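import Pool.Agent.Helper88.NSK.Exa

/-! EXA, second form: the exact sheet is a graph over the other coordinates, with a bounded gradient on a box. -/

set_option autoImplicit false

namespace Pool.Agent.Helper88.NSK

open Finset Filter Topology Matrix Pool.Agent.Helper69.RK Pool.Agent.Helper31.EC Pool.Agent.Helper31.EC.Sp
open Pool.Agent.Helper40.EL Pool.Agent.Helper52.KP Pool.Agent.Helper89.LX Pool.Agent.Helper3.LF
open Pool.Agent.Helper42.NS Pool.Agent.Helper99.EC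

noncomputable section

/-- values of the gradient of the new polynomial on a box -/
theorem core_grad {N M D K0 : ℕ} (v : Mon N D → ℝ) (c : Mon M K0 → ℝ) (b0 : Fin M → ℝ) (b1 : Fin M → Fin N → ℝ)
    (p y : Fin N → ℝ) (x : Fin M → ℝ) (lam δ K A B : ℝ) (hK : 1 ≤ K) (hlam : 0 ≤ lam) (hA : 0 ≤ A) (hB : 0 ≤ B)
    (hy : ∀ j, |y j - p j| ≤ δ) (h5 : ∀ i, |x i| ≤ K) (h6 : ∀ i, |x i - (b0 i + ∑ j, b1 i j * p j)| ≤ K)
    (h7 : ∀ i j, |b1 i j| ≤ B) (h8 : B * δ ≤ K) (h9 : ∀ a, |c a| ≤ A) (j : Fin N)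
    (hv : |MvPolynomial.eval y (MvPolynomial.pderiv j (pol v))| ≤ K) :
    |MvPolynomial.eval y (MvPolynomial.pderiv j (nwp v lam c b0 b1))| ≤
      K + lam * (nm M K0 * (A * (K0 * ((2 + N) * K) ^ K0 * B))) := by
  classical
  have hN : (0 : ℝ) ≤ N := Nat.cast_nonneg _
  have hpd : ∀ q : MvPolynomial (Fin N) ℝ, MvPolynomial.eval y (MvPolynomial.pderiv j q) =
      MvPolynomial.eval y (Du (Pi.single j 1) q) := by
    intro q
    rw [eval_Du, Finset.sum_eq_single j]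
    · rw [Pi.single_eq_same, one_mul]
    · intro k _ hk
      rw [Pi.single_eq_of_ne hk, zero_mul]
    · intro h
      exact absurd (Finset.mem_univ j) h
  have hyb : ∀ i, |b0 i + ∑ j, b1 i j * y j| ≤ (2 + N) * K := by
    intro i
    have e1 : b0 i + ∑ j, b1 i j * y j = x i - (x i - (b0 i + ∑ j, b1 i j * p j)) + ∑ j, b1 i j * (y j - p j) := by
      have : ∑ j, b1 i j * (y j - p j) = ∑ j, b1 i j * y j - ∑ j, b1 i j * p j := by
        rw [← Finset.sum_sub_distrib]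
        exact Finset.sum_congr rfl fun j _ => by ring
      rw [this]
      ring
    have e2 : |∑ j, b1 i j * (y j - p j)| ≤ N * K := by
      refine (Finset.abs_sum_le_sum_abs _ _).trans ?_
      have e3 : ∀ j ∈ (Finset.univ : Finset (Fin N)), |b1 i j * (y j - p j)| ≤ K := by
        intro j _
        rw [abs_mul]
        exact (mul_le_mul (h7 i j) (hy j) (abs_nonneg _) hB).trans h8
      refine (Finset.sum_le_card_nsmul _ _ _ e3).trans (le_of_eq ?_)
      rw [nsmul_eq_mul, Finset.card_univ, Fintype.card_fin]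
    rw [e1]
    refine (abs_add_le _ _).trans ?_
    have e4 := abs_sub (x i) (x i - (b0 i + ∑ j, b1 i j * p j))
    have e5 := h5 i
    have e6 := h6 i
    calc _ ≤ (K + K) + N * K := by linarith
      _ = _ := by ring
  rw [hpd] at hv ⊢
  rw [eval_Du_nwp]
  have h1 := Du_sbp_le c b0 b1 (Pi.single j 1) y ((2 + N) * K) A B (by nlinarith) hA hB h9 hyb (by
    intro i
    rw [Finset.sum_eq_single j]
    · rw [Pi.single_eq_same, one_mul]
      exact h7 i j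
    · intro k _ hk
      rw [Pi.single_eq_of_ne hk, zero_mul]
    · intro h
      exact absurd (Finset.mem_univ j) h)
  refine (abs_sub _ _).trans ?_
  rw [abs_mul, abs_of_nonneg hlam]
  exact add_le_add hv (mul_le_mul_of_nonneg_left h1 hlam)

/-- lower bound of one derivative of the new polynomial -/
theorem core_di {N M D K0 : ℕ} (v : Mon N D → ℝ) (c : Mon M K0 → ℝ) (b0 : Fin M → ℝ) (b1 : Fin M → Fin N → ℝ)
    (p : Fin N → ℝ) (x : Fin M → ℝ) (lam α K G : ℝ) (hK : 1 ≤ K) (hlam : 0 < lam) (hα : 1 ≤ α) (hG : 0 ≤ G)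
    (h5 : ∀ i, |x i| ≤ K) (h6 : ∀ i, |x i - (b0 i + ∑ j, b1 i j * p j)| ≤ K) (h9 : ∀ a, |c a| ≤ K * α) (i : Fin N)
    (hv : 1 ≤ K * |MvPolynomial.eval p (MvPolynomial.pderiv i (pol v))|) (hb : ∀ i', |b1 i' i| ≤ K * G)
    (hs : 2 * K * (lam * (nm M K0 * (K * α * (K0 * (2 * K) ^ K0 * (K * G))))) ≤ 1) :
    1 ≤ 2 * K * |MvPolynomial.eval p (MvPolynomial.pderiv i (nwp v lam c b0 b1))| := by
  have hs1 : ∀ f : Fin N → ℝ, ∑ j, (Pi.single i (1 : ℝ) : Fin N → ℝ) j * f j = f i := by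
    intro f
    rw [Finset.sum_eq_single i]
    · rw [Pi.single_eq_same, one_mul]
    · intro b _ hb
      rw [Pi.single_eq_of_ne hb, zero_mul]
    · intro h
      exact absurd (Finset.mem_univ _) h
  have e3 : ∀ q : MvPolynomial (Fin N) ℝ, MvPolynomial.eval p (Du (Pi.single i 1) q) =
      MvPolynomial.eval p (MvPolynomial.pderiv i q) := by
    intro q
    rw [eval_Du, hs1 (fun j => MvPolynomial.eval p (MvPolynomial.pderiv j q))]
  rw [← e3, eval_Du_nwp]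
  rw [← e3] at hv
  have hxb : ∀ i', |b0 i' + ∑ j, b1 i' j * p j| ≤ 2 * K := by
    intro i'
    have e1 : b0 i' + ∑ j, b1 i' j * p j = x i' - (x i' - (b0 i' + ∑ j, b1 i' j * p j)) := by ring
    rw [e1]
    refine (abs_sub _ _).trans ?_
    have e2 := h6 i'
    have e4 := h5 i'
    linarith
  have h1 := Du_sbp_le c b0 b1 (Pi.single i 1) p (2 * K) (K * α) (K * G) (by linarith) (by positivity)
    (by positivity) h9 hxb (fun i' => by
      rw [hs1 (fun j => b1 i' j)]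
      exact hb i')
  have e5 : |MvPolynomial.eval p (Du (Pi.single i 1) (pol v))| ≤ |MvPolynomial.eval p (Du (Pi.single i 1) (pol v)) -
      lam * MvPolynomial.eval p (Du (Pi.single i 1) (sbp c b0 b1))| +
      |lam * MvPolynomial.eval p (Du (Pi.single i 1) (sbp c b0 b1))| := by
    have := abs_sub_abs_le_abs_sub (MvPolynomial.eval p (Du (Pi.single i 1) (pol v)))
      (lam * MvPolynomial.eval p (Du (Pi.single i 1) (sbp c b0 b1)))
    linarith
  rw [abs_mul, abs_of_pos hlam] at e5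
  have e7 := mul_le_mul_of_nonneg_left (mul_le_mul_of_nonneg_left h1 hlam.le) (show 0 ≤ K by linarith)
  have e9 := mul_le_mul_of_nonneg_left e5 (show 0 ≤ K by linarith)
  linarith

variable {S : Sp} {m : ℕ}

/-- A SHEET WHICH IS A GRAPH over the coordinates other than `i`: label and polynomial `v` of degree `D`; `|v| ≤ 2^(-σ n)`
on the cell of side `2^(-n)` at the point, `|d_i v| ≥ 1` at the point, gradient at most `1` on the box of side
`2^(-β n)`, up to subexponential factors, typically -/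
def Sht (s : Sys S m) (i : Fin m) (D : ℕ) (c σ β : ℝ) : Prop :=
  ∃ l : Lab S, l.DM (cA s c) (cB s) ∧ ∃ v : ∀ k, (l k).T.Ω → Mon (m + 1) D → ℝ,
    (∀ k ω ω', (l k).T.μ ω ≠ 0 → (l k).T.μ ω' ≠ 0 → (l k).V ω ω' → (l k).T.Z ω ω' → v k ω = v k ω') ∧
    ∃ K : ℕ → ℝ, S.Sub K ∧ Sp.Typ (S := l.sp) (fun k (ω : (l k).T.Ω) =>
      (∀ y : Fin (m + 1) → ℝ, (∀ j, |y j - ptf s k ((l k).p.π ω) j| ≤ S.dl 1 k) →
        |MvPolynomial.eval y (pol (v k ω))| ≤ K k * S.dl σ k) ∧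
      1 ≤ K k * |MvPolynomial.eval (ptf s k ((l k).p.π ω)) (MvPolynomial.pderiv i.succ (pol (v k ω)))| ∧
      ∀ (j : Fin (m + 1)) (y : Fin (m + 1) → ℝ), (∀ j', |y j' - ptf s k ((l k).p.π ω) j'| ≤ S.dl β k) →
        |MvPolynomial.eval y (MvPolynomial.pderiv j (pol (v k ω)))| ≤ K k)

variable {s : Sys S m}

/-- graphs are sheets -/
theorem Sht.hf {i : Fin m} {D : ℕ} {c σ β : ℝ} (h : Sht s i D c σ β) : Hf s D c σ := by
  obtain ⟨l, hl, v, hv, K, hK, hT⟩ := h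
  have hF : S.Sub (fun k => nn (m + 1) D * K k ^ 2 + K k ^ 2) := by
    have := nn_one (m + 1) D
    exact ((S.Sub_const (by linarith)).mul (Sub_powN hK 2)).add (Sub_powN hK 2)
  refine Hf_of_poly l hl v hv _ hF ?_
  refine typ_mono (S := l.sp) hT ?_
  filter_upwards [hK.1] with k hKk ω hω g
  obtain ⟨g1, g2, _⟩ := g
  have hnn := nn_one (m + 1) D
  have hK2 : 0 ≤ K k ^ 2 := sq_nonneg _
  constructor
  · have e1 : ph D (pol (v k ω)) (S.dl 1 k) (ptf s k ((l k).p.π ω)) ≤ nn (m + 1) D * (K k * S.dl σ k) ^ 2 := by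
      unfold ph
      refine (Finset.sum_le_card_nsmul _ _ ((K k * S.dl σ k) ^ 2) fun j _ => ?_).trans (le_of_eq ?_)
      · rw [← sq_abs]
        apply pow_le_pow_left₀ (abs_nonneg _)
        apply g1
        intro i
        unfold nodp
        have e1 : ptf s k ((l k).p.π ω) i + S.dl 1 k * nod D (j i) - ptf s k ((l k).p.π ω) i =
          S.dl 1 k * nod D (j i) := by ring
        rw [e1, abs_mul, abs_of_pos (S.dl_pos 1 k), abs_of_nonneg (nod_nonneg D _)]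
        exact mul_le_of_le_one_right (S.dl_pos 1 k).le (nod_le D (j i) (Nat.le_of_lt_succ (j i).2))
      · rw [nsmul_eq_mul, card_nodes]
    have e2 : (2 : ℝ) ^ (2 * σ * (S.F k).n) * S.dl σ k ^ 2 = 1 := by
      unfold Sp.dl
      rw [← Real.rpow_natCast (2 ^ _) 2, ← Real.rpow_mul (by norm_num), ← Real.rpow_add (by norm_num)]
      have : 2 * σ * (S.F k).n + -(σ * (S.F k).n) * ((2 : ℕ) : ℝ) = 0 := by push_cast; ring
      rw [this, Real.rpow_zero]
    calc (2 : ℝ) ^ (2 * σ * (S.F k).n) * ph D (pol (v k ω)) (S.dl 1 k) (ptf s k ((l k).p.π ω))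
        ≤ 2 ^ (2 * σ * (S.F k).n) * (nn (m + 1) D * (K k * S.dl σ k) ^ 2) :=
          mul_le_mul_of_nonneg_left e1 (by positivity)
      _ = nn (m + 1) D * K k ^ 2 * (2 ^ (2 * σ * (S.F k).n) * S.dl σ k ^ 2) := by ring
      _ = nn (m + 1) D * K k ^ 2 := by rw [e2, mul_one]
      _ ≤ _ := by linarith
  · have h3 := Du_sq_le (D := D) (pol (v k ω)) (Pi.single i.succ 1) (ptf s k ((l k).p.π ω)) (S.dl 1 k)
    have e3 : ∑ j : Fin (m + 1), ((Pi.single i.succ (1 : ℝ) : Fin (m + 1) → ℝ) j) ^ 2 = 1 := by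
      rw [Finset.sum_eq_single i.succ]
      · rw [Pi.single_eq_same, one_pow]
      · intro b _ hb
        rw [Pi.single_eq_of_ne hb, zero_pow (by norm_num)]
      · intro h
        exact absurd (Finset.mem_univ _) h
    rw [e3, one_mul, eval_Du, Finset.sum_eq_single i.succ, Pi.single_eq_same, one_mul] at h3
    · have h4 : (1 : ℝ) ^ 2 ≤ (K k * |MvPolynomial.eval (ptf s k ((l k).p.π ω))
          (MvPolynomial.pderiv i.succ (pol (v k ω)))|) ^ 2 := pow_le_pow_left₀ zero_le_one g2 2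
      rw [one_pow, mul_pow, sq_abs] at h4
      have h5 := mul_le_mul_of_nonneg_left h3 hK2
      have h6 := ga_nonneg (D := D) (pol (v k ω)) (S.dl 1 k) (ptf s k ((l k).p.π ω))
      have h7 : 0 ≤ nn (m + 1) D * K k ^ 2 * ga D (pol (v k ω)) (S.dl 1 k) (ptf s k ((l k).p.π ω)) := by positivity
      calc (1 : ℝ) ≤ K k ^ 2 * ga D (pol (v k ω)) (S.dl 1 k) (ptf s k ((l k).p.π ω)) := h4.trans h5
        _ ≤ _ := by rw [add_mul]; linarith
    · intro b _ hb
      rw [Pi.single_eq_of_ne hb, zero_mul]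
    · intro h
      exact absurd (Finset.mem_univ _) h

/-- data for a graph over the coordinates other than `i` -/
def ShD (s : Sys S m) (i : Fin m) (l : Lab S) (D M : ℕ) (r a w b g β : ℝ) (v : ∀ k, (l k).T.Ω → Mon (m + 1) D → ℝ)
    (b0 : ∀ k, (l k).T.Ω → Fin M → ℝ) (b1 : ∀ k, (l k).T.Ω → Fin M → Fin (m + 1) → ℝ)
    (q : ∀ k, Fin M → (l k).T.Ω → ℝ) (z : ∀ k, (l k).T.Ω → ℝ) (K : ℕ → ℝ) (k : ℕ) (ω : (l k).T.Ω) : Prop :=
  (∀ (j : Fin (m + 1)) (y : Fin (m + 1) → ℝ), (∀ j', |y j' - ptf s k ((l k).p.π ω) j'| ≤ S.dl β k) →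
    |MvPolynomial.eval y (MvPolynomial.pderiv j (pol (v k ω)))| ≤ K k) ∧
  |z k ω - 2 ^ (r * (S.F k).n) * MvPolynomial.eval (ptf s k ((l k).p.π ω)) (pol (v k ω))| ≤ K k * S.dl w k ∧
  (∀ i, |q k i ω| ≤ K k) ∧
  (∀ i, |q k i ω - (b0 k ω i + ∑ j, b1 k ω i j * ptf s k ((l k).p.π ω) j)| ≤ K k * S.dl (a + w) k) ∧
  (∀ i j, |b1 k ω i j| ≤ K k * 2 ^ (b * (S.F k).n)) ∧
  1 ≤ K k * |MvPolynomial.eval (ptf s k ((l k).p.π ω)) (MvPolynomial.pderiv i.succ (pol (v k ω)))| ∧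
  ∀ i', |b1 k ω i' i.succ| ≤ K k * 2 ^ (g * (S.F k).n)

theorem sum_single (i : Fin (m + 1)) (f : Fin (m + 1) → ℝ) :
    ∑ j, (Pi.single i (1 : ℝ) : Fin (m + 1) → ℝ) j * f j = f i := by
  rw [Finset.sum_eq_single i]
  · rw [Pi.single_eq_same, one_mul]
  · intro b _ hb
    rw [Pi.single_eq_of_ne hb, zero_mul]
  · intro h
    exact absurd (Finset.mem_univ _) h

/-- A GRAPH FROM A SHEET OVER A BASE, on an event of positive probability of the space of a double Markov label: the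
conclusion is for the system restricted to the event -/
theorem sht_of_sheet {i : Fin m} {c r a w b g β : ℝ} {D D' K0 M : ℕ} (hD : D ≤ D') (hK0 : K0 ≤ D') (l : Lab S)
    (hl : l.DM (cA s c) (cB s)) (v : ∀ k, (l k).T.Ω → Mon (m + 1) D → ℝ) (cc : ∀ k, (l k).T.Ω → Mon M K0 → ℝ)
    (b0 : ∀ k, (l k).T.Ω → Fin M → ℝ) (b1 : ∀ k, (l k).T.Ω → Fin M → Fin (m + 1) → ℝ)
    (hm : ∀ k ω ω', (l k).T.μ ω ≠ 0 → (l k).T.μ ω' ≠ 0 → (l k).V ω ω' → (l k).T.Z ω ω' →
      v k ω = v k ω' ∧ cc k ω = cc k ω' ∧ b0 k ω = b0 k ω' ∧ b1 k ω = b1 k ω')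
    (q : ∀ k, Fin M → (l k).T.Ω → ℝ) (z : ∀ k, (l k).T.Ω → ℝ)
    (ha : 0 ≤ a) (hw : 0 ≤ w) (hrw : r + w ≤ 1) (hb : b + a + w ≤ 1) (hg : g + a < r) (hβ : β ≤ 1) (hbβ : b ≤ β)
    (hab : a + b ≤ r) (K : ℕ → ℝ) (hK : S.Sub K) (G : ∀ k, (l.sp.F k).Ω → Prop) (hG : 0 < ul (l.sp.pr G))
    (hd : ∀ᶠ k in UF, ∀ ω : (l k).T.Ω, (l k).T.μ ω ≠ 0 → G k ω → ShD s i l D M r a w b g β v b0 b1 q z K k ω ∧
      |z k ω - ∑ a, cc k ω a * ∏ i, q k i ω ^ (a.1 i : ℕ)| ≤
        K k * ((1 + ∑ a : Mon M K0, |∏ i, q k i ω ^ (a.1 i : ℕ)|) * S.dl w k) ∧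
      ∀ i, |cc k ω i| ≤ K k * 2 ^ (a * (S.F k).n)) : Sht (s.im l.pj G hG) i D' c (r + w) β := by
  have hnnm := nn_one (m + 1) D
  have hm0 : (0 : ℝ) ≤ (m + 1 : ℕ) := Nat.cast_nonneg _
  have hK1 : S.Sub (fun k => K k + 1) := hK.add (S.Sub_const zero_le_one)
  -- a constant which bounds the size of the gradient
  have hKg : S.Sub (fun k => ((m + 1 : ℕ) : ℝ) * nn (m + 1) D * (K k + 1) ^ 2 + (K k + 1)) :=
    ((S.Sub_const (by positivity)).mul (Sub_powN hK1 2)).add hK1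
  have hCs := Cst_sub (m + 1) M D K0 hKg
  have hF2 : S.Sub (fun k => 2 * (K k + 1) * (nm M K0 * ((K k + 1) * (K0 * (2 * (K k + 1)) ^ K0 * (K k + 1))))) := by
    have h0 := S.Sub_const (K := (2 : ℝ)) (by norm_num)
    exact (h0.mul hK1).mul ((S.Sub_const (nm_nonneg M K0)).mul (hK1.mul (((S.Sub_const (Nat.cast_nonneg K0)).mul
      (Sub_powN (h0.mul hK1) K0)).mul hK1)))
  have hF3 : S.Sub (fun k => (K k + 1) + nm M K0 * ((K k + 1) * (K0 * ((2 + ((m + 1 : ℕ) : ℝ)) * (K k + 1)) ^ K0 *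
      (K k + 1)))) :=
    hK1.add ((S.Sub_const (nm_nonneg M K0)).mul (hK1.mul (((S.Sub_const (Nat.cast_nonneg K0)).mul
      (Sub_powN ((S.Sub_const (K := 2 + ((m + 1 : ℕ) : ℝ)) (by positivity)).mul hK1) K0)).mul hK1)))
  have hl' : (l.im G).DM (cA (s.im l.pj G hG) c) (cB (s.im l.pj G hG)) := by
    rw [cA_im, cB_im]
    exact hl.im G hG
  refine ⟨l.im G, hl', fun k ω => nwv D' (v k ω) (S.dl r k) (cc k ω) (b0 k ω) (b1 k ω), ?_,
    fun k => Cst (m + 1) M D K0 (((m + 1 : ℕ) : ℝ) * nn (m + 1) D * (K k + 1) ^ 2 + (K k + 1)) + (2 * (K k + 1) +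
      ((K k + 1) + nm M K0 * ((K k + 1) * (K0 * ((2 + ((m + 1 : ℕ) : ℝ)) * (K k + 1)) ^ K0 * (K k + 1))))),
    hCs.add (((S.Sub_const (K := 2) (by norm_num)).mul hK1).add hF3), ?_⟩
  · intro k ω ω' h1 h2 h3 h4
    obtain ⟨e1, e2, e3, e4⟩ := hm k ω ω' ((l k).T.rest_supp (G k) ω h1).1 ((l k).T.rest_supp (G k) ω' h2).1 h3 h4
    show nwv D' (v k ω) (S.dl r k) (cc k ω) (b0 k ω) (b1 k ω) = nwv D' (v k ω') (S.dl r k) (cc k ω') (b0 k ω') (b1 k ω')
    rw [e1, e2, e3, e4]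
  have h1 : Tendsto (l.sp.pr G) UF (𝓝 (ul (l.sp.pr G))) := ul_tendsto (Sp.UB_pr G)
  refine typ_mono (S := (l.im G).sp) (Typ_true (S := (l.im G).sp)) ?_
  filter_upwards [h1.eventually (lt_mem_nhds hG), hd, hK.1, hF2.eventually_le (show 0 < r - (g + a) by linarith)] with
    k hkG hk hKk hks ω hω _
  obtain ⟨hω0, hωG⟩ := (l k).T.rest_supp (G k) ω hω
  obtain ⟨⟨g1, g2, g4, g5, g6, g8, g9⟩, g3, g7⟩ := hk ω hω0 (hωG hkG.ne')
  have hn := (S.F k).pos
  set n := (S.F k).n with hndef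
  set P := ptf s k ((l k).p.π ω) with hP
  have hdl : ∀ y : ℝ, S.dl y k = 2 ^ (-(y * n)) := fun y => rfl
  have hρ : 0 < S.dl w k := S.dl_pos w k
  have hlam : 0 < S.dl r k := S.dl_pos r k
  have hα1 : (1 : ℝ) ≤ 2 ^ (a * n) := Real.one_le_rpow (by norm_num) (by positivity)
  have hρ1 : S.dl w k ≤ 1 := by
    rw [hdl]
    exact Real.rpow_le_one_of_one_le_of_nonpos (by norm_num) (neg_nonpos.mpr (mul_nonneg hw hn.le))
  have hρα : S.dl w k / 2 ^ (a * n) = S.dl (a + w) k := by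
    rw [hdl, hdl, ← Real.rpow_sub (by norm_num)]
    congr 1
    ring
  have hlr : S.dl r k * S.dl w k = S.dl (r + w) k := by
    rw [hdl, hdl, hdl, ← Real.rpow_add (by norm_num)]
    congr 1
    ring
  have hK1' : 1 ≤ K k + 1 := by linarith
  set Kg : ℝ := ((m + 1 : ℕ) : ℝ) * nn (m + 1) D * (K k + 1) ^ 2 + (K k + 1) with hKgd
  have hKg1 : K k + 1 ≤ Kg := by
    have : 0 ≤ ((m + 1 : ℕ) : ℝ) * nn (m + 1) D * (K k + 1) ^ 2 := by positivity
    linarith
  have hKKg : K k ≤ Kg := by linarith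
  have hinv : (S.dl r k)⁻¹ = 2 ^ (r * n) := by
    rw [hdl, Real.rpow_neg (by norm_num), inv_inv]
  -- the gradient on the small cell
  have hga : ga D (pol (v k ω)) (S.dl 1 k) P ≤ ((m + 1 : ℕ) : ℝ) * nn (m + 1) D * (K k + 1) ^ 2 := by
    have e1 : ∀ j ∈ (Finset.univ : Finset (Fin (m + 1))), ph D (MvPolynomial.pderiv j (pol (v k ω))) (S.dl 1 k) P ≤
        nn (m + 1) D * (K k + 1) ^ 2 := by
      intro j _
      unfold ph
      refine (Finset.sum_le_card_nsmul _ _ ((K k + 1) ^ 2) fun j' _ => ?_).trans (le_of_eq ?_)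
      · rw [← sq_abs]
        apply pow_le_pow_left₀ (abs_nonneg _)
        refine (g1 j _ fun i' => ?_).trans (by linarith)
        unfold nodp
        have e1 : P i' + S.dl 1 k * nod D (j' i') - P i' = S.dl 1 k * nod D (j' i') := by ring
        rw [e1, abs_mul, abs_of_pos (S.dl_pos 1 k), abs_of_nonneg (nod_nonneg D _)]
        exact (mul_le_of_le_one_right (S.dl_pos 1 k).le (nod_le D (j' i') (Nat.le_of_lt_succ (j' i').2))).trans
          (S.dl_anti hβ k)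
      · rw [nsmul_eq_mul, card_nodes]
    unfold ga
    refine (Finset.sum_le_card_nsmul _ _ _ e1).trans (le_of_eq ?_)
    rw [nsmul_eq_mul, Finset.card_univ, Fintype.card_fin]
    ring
  have hsq : Real.sqrt (ga D (pol (v k ω)) (S.dl 1 k) P) ≤ Kg := by
    apply Real.sqrt_le_iff.mpr
    refine ⟨by linarith, ?_⟩
    have e2 : ((m + 1 : ℕ) : ℝ) * nn (m + 1) D * (K k + 1) ^ 2 ≤ Kg := by linarith
    exact hga.trans (e2.trans (le_self_pow₀ (by linarith) two_ne_zero))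
  have hle : ∀ y : ℝ, 0 ≤ y → K k * y ≤ Kg * y := fun y hy => mul_le_mul_of_nonneg_right hKKg hy
  have hKg1' : 1 ≤ Kg := by linarith
  have hC0 : 0 ≤ Cst (m + 1) M D K0 Kg := Cst_nonneg _ _ _ _ (by linarith)
  have hnm := nm_nonneg M K0
  have hkd : K k * S.dl (a + w) k ≤ K k := by
    have e5 : S.dl (a + w) k ≤ 1 := by
      rw [← hρα]
      exact (div_le_self hρ.le hα1).trans hρ1
    exact mul_le_of_le_one_right hKk e5
  have hR0 : 0 ≤ (K k + 1) + nm M K0 * ((K k + 1) * (K0 * ((2 + ((m + 1 : ℕ) : ℝ)) * (K k + 1)) ^ K0 *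
      (K k + 1))) := by positivity
  refine ⟨?_, ?_, ?_⟩
  · intro y hy
    show |MvPolynomial.eval y (pol (nwv D' (v k ω) (S.dl r k) (cc k ω) (b0 k ω) (b1 k ω)))| ≤ _ * S.dl (r + w) k
    rw [pol_nwv hD hK0, ← hlr]
    have hy' : ∀ j, |y j - P j| ≤ S.dl 1 k := hy
    have hh := core_val (v k ω) (cc k ω) (b0 k ω) (b1 k ω) P y (fun i => q k i ω) (z k ω) (S.dl r k) (S.dl 1 k)
      (S.dl w k) (2 ^ (a * n)) Kg (K k * 2 ^ (b * n)) (S.dl_pos 1 k) hKg1' hlam hρ.le hρ1 hα1 hy' hsq (by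
        rw [hlr]
        exact S.dl_anti hrw k) (by
        rw [hinv]
        exact g2.trans (hle _ hρ.le)) (g3.trans (hle _ (by
          have : 0 ≤ ∑ a : Mon M K0, |∏ i, q k i ω ^ (a.1 i : ℕ)| := Finset.sum_nonneg fun _ _ => abs_nonneg _
          positivity))) (fun i => (g4 i).trans hKKg) (by
        intro i
        rw [hρα]
        exact (g5 i).trans (hle _ (S.dl_pos _ k).le)) g6 (by
        rw [hρα, mul_assoc, hdl 1, ← Real.rpow_add (by norm_num)]
        have e1 : (2 : ℝ) ^ (b * n + -(1 * n)) ≤ S.dl (a + w) k := by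
          rw [hdl]
          apply Real.rpow_le_rpow_of_exponent_le (by norm_num)
          have := mul_le_mul_of_nonneg_right hb hn.le
          linarith
        exact (mul_le_mul_of_nonneg_left e1 hKk).trans (hle _ (S.dl_pos _ k).le)) (by
        intro i
        exact (g7 i).trans (hle _ (by positivity)))
    refine hh.trans ?_
    apply mul_le_mul_of_nonneg_right _ (by positivity)
    show Cst (m + 1) M D K0 Kg ≤ _
    linarith
  · show 1 ≤ _ * |MvPolynomial.eval P (MvPolynomial.pderiv i.succ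
      (pol (nwv D' (v k ω) (S.dl r k) (cc k ω) (b0 k ω) (b1 k ω))))|
    rw [pol_nwv hD hK0]
    have h2 : 2 * (K k + 1) * (S.dl r k * (nm M K0 * ((K k + 1) * 2 ^ (a * n) *
        (K0 * (2 * (K k + 1)) ^ K0 * ((K k + 1) * 2 ^ (g * n)))))) ≤ 1 := by
      have e1 : 2 * (K k + 1) * (S.dl r k * (nm M K0 * ((K k + 1) * 2 ^ (a * n) *
          (K0 * (2 * (K k + 1)) ^ K0 * ((K k + 1) * 2 ^ (g * n)))))) =
          2 * (K k + 1) * (nm M K0 * ((K k + 1) * (K0 * (2 * (K k + 1)) ^ K0 * (K k + 1)))) *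
          (S.dl r k * (2 ^ (a * n) * 2 ^ (g * n))) := by ring
      have e2 : S.dl r k * (2 ^ (a * n) * 2 ^ (g * n)) = 2 ^ (-((r - (g + a)) * n)) := by
        rw [hdl, ← Real.rpow_add (by norm_num), ← Real.rpow_add (by norm_num)]
        congr 1
        ring
      rw [e1, e2, Real.rpow_neg (by norm_num), ← div_eq_mul_inv, div_le_one (by positivity)]
      linarith
    have h1 := core_di (v k ω) (cc k ω) (b0 k ω) (b1 k ω) P (fun i' => q k i' ω) (S.dl r k) (2 ^ (a * n)) (K k + 1)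
      (2 ^ (g * n)) hK1' hlam hα1 (by positivity) (fun i' => (g4 i').trans (by linarith)) (fun i' => (g5 i').trans
        ((hkd).trans (by linarith))) (fun i' => (g7 i').trans (mul_le_mul_of_nonneg_right (by linarith) (by positivity)))
      i.succ (g8.trans (mul_le_mul_of_nonneg_right (by linarith) (abs_nonneg _))) (fun i' => (g9 i').trans
        (mul_le_mul_of_nonneg_right (by linarith) (by positivity))) h2
    refine h1.trans (mul_le_mul_of_nonneg_right ?_ (abs_nonneg _))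
    linarith
  · intro j y hy
    show |MvPolynomial.eval y (MvPolynomial.pderiv j
      (pol (nwv D' (v k ω) (S.dl r k) (cc k ω) (b0 k ω) (b1 k ω))))| ≤ _
    rw [pol_nwv hD hK0]
    have hy' : ∀ j', |y j' - P j'| ≤ S.dl β k := hy
    have hh := core_grad (v k ω) (cc k ω) (b0 k ω) (b1 k ω) P y (fun i => q k i ω) (S.dl r k) (S.dl β k) (K k + 1)
      ((K k + 1) * 2 ^ (a * n)) ((K k + 1) * 2 ^ (b * n)) hK1' hlam.le (by positivity) (by positivity) hy'
      (fun i => (g4 i).trans (by linarith)) (fun i' => (g5 i').trans (hkd.trans (by linarith)))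
      (fun i' j' => (g6 i' j').trans
        (mul_le_mul_of_nonneg_right (by linarith) (by positivity))) (by
        rw [mul_assoc, hdl, ← Real.rpow_add (by norm_num)]
        have e1 : (2 : ℝ) ^ (b * n + -(β * n)) ≤ 1 := by
          refine Real.rpow_le_one_of_one_le_of_nonpos (by norm_num) ?_
          have := mul_le_mul_of_nonneg_right hbβ hn.le
          linarith
        exact mul_le_of_le_one_right (by linarith) e1) (fun i' => (g7 i').trans (mul_le_mul_of_nonneg_right (by linarith) (by positivity))) j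
      ((g1 j y hy').trans (by linarith))
    refine hh.trans ?_
    have e1 : S.dl r k * (2 ^ (a * n) * 2 ^ (b * n)) ≤ 1 := by
      rw [hdl, ← Real.rpow_add (by norm_num), ← Real.rpow_add (by norm_num)]
      refine Real.rpow_le_one_of_one_le_of_nonpos (by norm_num) ?_
      have := mul_le_mul_of_nonneg_right hab hn.le
      linarith
    have e2 : S.dl r k * (nm M K0 * ((K k + 1) * 2 ^ (a * n) * (K0 * ((2 + ((m + 1 : ℕ) : ℝ)) * (K k + 1)) ^ K0 *
        ((K k + 1) * 2 ^ (b * n))))) = nm M K0 * ((K k + 1) * (K0 * ((2 + ((m + 1 : ℕ) : ℝ)) * (K k + 1)) ^ K0 *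
        (K k + 1))) * (S.dl r k * (2 ^ (a * n) * 2 ^ (b * n))) := by ring
    have e3 : 0 ≤ nm M K0 * ((K k + 1) * (K0 * ((2 + ((m + 1 : ℕ) : ℝ)) * (K k + 1)) ^ K0 * (K k + 1))) := by
      positivity
    have e4 : nm M K0 * ((K k + 1) * (K0 * ((2 + ((m + 1 : ℕ) : ℝ)) * (K k + 1)) ^ K0 * (K k + 1))) *
        (S.dl r k * (2 ^ (a * n) * 2 ^ (b * n))) ≤
        nm M K0 * ((K k + 1) * (K0 * ((2 + ((m + 1 : ℕ) : ℝ)) * (K k + 1)) ^ K0 * (K k + 1))) :=
      mul_le_of_le_one_right e3 e1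
    rw [e2]
    linarith

/-- **EXA with a graph**: as `exa`, the conclusion is a graph over the coordinates other than `i`, with a bounded
gradient on boxes of side `2^(-β n)`, for a restriction of the system (to an event `E` of the space of the label, then
to an event of the space of the refined label `l1` on `E`) -/
theorem exa_sht {i : Fin m} {c r a w b g β ε : ℝ} {D D' K0 M : ℕ} (hD : D ≤ D') (hK0 : K0 ≤ D') {l : Lab S}
    (hl : IsKap s c l) (v : ∀ k, (l k).T.Ω → Mon (m + 1) D → ℝ)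
    (b0 : ∀ k, (l k).T.Ω → Fin M → ℝ) (b1 : ∀ k, (l k).T.Ω → Fin M → Fin (m + 1) → ℝ)
    (hm : ∀ k ω ω', (l k).T.μ ω ≠ 0 → (l k).T.μ ω' ≠ 0 → (l k).V ω ω' → (l k).T.Z ω ω' →
      v k ω = v k ω' ∧ b0 k ω = b0 k ω' ∧ b1 k ω = b1 k ω')
    (q : ∀ k, Fin M → (l k).T.Ω → ℝ) (z : ∀ k, (l k).T.Ω → ℝ)
    (Zb : ∀ k, Setoid (l k).T.Ω) (e : ℝ) (he : 0 < e) (PB PX : ∀ k, Setoid (l k).T.Ω) (ha : 0 ≤ a) (hw : 0 ≤ w)
    (hrw : r + w ≤ 1) (hb : b + a + w ≤ 1) (hg : g + a < r) (hβ : β ≤ 1) (hbβ : b ≤ β) (hab : a + b ≤ r) (hε : ε < 1)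
    (hZ : ∀ᶠ k in UF, ∀ ω ω',
      (l k).T.μ ω ≠ 0 → (l k).T.μ ω' ≠ 0 → (l k).V ω ω' → (l k).T.Z ω ω' → (Zb k) ω ω')
    (hPX : Nul S (fun k => h (fc (PX k) : FL (l k).T) ((l k).v ⊔ (l k).p.map (cA s c k))))
    (hPB : Nul S (fun k => h (fc (PB k) : FL (l k).T) ((l k).v ⊔ (l k).p.map (cB s k))))
    (hf : ∀ᶠ k in UF, LfF (((l k).T).chg (Zb k) e he) K0 (q k) (z k) (PB k) (PX k) (2 ^ (a * (S.F k).n)) (S.dl w k) ε)
    (K : ℕ → ℝ) (hK : S.Sub K) (G : ∀ k, (l.sp.F k).Ω → Prop) (hG : ε < ul (l.sp.pr G))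
    (hd : ∀ᶠ k in UF, ∀ ω : (l k).T.Ω, (l k).T.μ ω ≠ 0 → G k ω → ShD s i l D M r a w b g β v b0 b1 q z K k ω) :
    ∃ (E : ∀ k, (l.sp.F k).Ω → Prop) (hE : 0 < ul (l.sp.pr E)) (l1 : Lab (Sp.im l.pj E))
      (G1 : ∀ k, (l1.sp.F k).Ω → Prop) (hG1 : 0 < ul (l1.sp.pr G1)),
      Sht ((s.im l.pj E hE).im l1.pj G1 hG1) i D' c (r + w) β := by
  obtain ⟨E, cc, hE, hcc, hzc, _, hmax⟩ := exact_leaf hl (cA_Bd s c) (fun E => cA_im_Bd s c l.pj E) Zb e he q z PB PX
    (fun k => 2 ^ (a * (S.F k).n)) (fun k => S.dl w k) (fun k => S.dl_pos w k) hε hZ hPX hPB hf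
  have hE0 : 0 < ul (l.sp.pr E) := by linarith
  refine ⟨E, hE0, (l.im E).addW (fun k => Setoid.ker (cc k)), G, ?_, ?_⟩
  · have t1 : Tendsto (l.sp.pr G) UF (𝓝 (ul (l.sp.pr G))) := ul_tendsto (Sp.UB_pr G)
    have t2 : Tendsto (l.sp.pr E) UF (𝓝 (ul (l.sp.pr E))) := ul_tendsto (Sp.UB_pr E)
    set η : ℝ := (ul (l.sp.pr G) - ε) / 3 with hη
    have hη0 : 0 < η := by rw [hη]; linarith
    refine lt_of_lt_of_le hη0 (Lab.pr_ge_of (l := (l.im E).addW (fun k => Setoid.ker (cc k))) ?_)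
    filter_upwards [t1.eventually (lt_mem_nhds (show ul (l.sp.pr G) - η < ul (l.sp.pr G) by linarith)),
      t2.eventually (lt_mem_nhds (show ul (l.sp.pr E) - η < ul (l.sp.pr E) by linarith))] with k k1 k2
    have k3 := pb_rest (l k).T (E k) (G k)
    have k4 := FSp.pb_and_ge (l k).T (E k) (G k)
    have k5 := (l k).T.pb_le_one (E k)
    have k6 := ((l k).T.rest (E k)).pb_nonneg (G k)
    have k7 : ul (l.sp.pr G) - η < (l k).T.pb (G k) := k1
    have k8 : ul (l.sp.pr E) - η < (l k).T.pb (E k) := k2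
    show η ≤ ((l k).T.rest (E k)).pb (G k)
    have k9 : (l k).T.pb (E k) * ((l k).T.rest (E k)).pb (G k) ≤ ((l k).T.rest (E k)).pb (G k) :=
      mul_le_of_le_one_left k6 k5
    linarith
  have hev : ∀ᶠ k in UF, (l k).T.pb (E k) ≠ 0 := by
    have t2 : Tendsto (l.sp.pr E) UF (𝓝 (ul (l.sp.pr E))) := ul_tendsto (Sp.UB_pr E)
    filter_upwards [t2.eventually (lt_mem_nhds hE0)] with k hk
    exact hk.ne'
  have hdm : ((l.im E).addW (fun k => Setoid.ker (cc k))).DM (cA (s.im l.pj E hE0) c) (cB (s.im l.pj E hE0)) := by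
    rw [cA_im, cB_im]
    exact hmax.1
  have hK2 : S.Sub (fun k => K k + 2) := hK.add (S.Sub_const (by norm_num))
  refine sht_of_sheet (s := s.im l.pj E hE0) (a := a) (b := b) (g := g) hD hK0 _ hdm v cc b0 b1 ?_ q z ha hw
    hrw hb hg hβ hbβ hab _ hK2 G _ ?_
  · intro k ω ω' a1 a2 a3 a4
    have b1' := ((l k).T.rest_supp (E k) ω a1).1
    have b2' := ((l k).T.rest_supp (E k) ω' a2).1
    obtain ⟨c1, c2, c3⟩ := hm k ω ω' b1' b2' a3.1 a4
    exact ⟨c1, a3.2, c2, c3⟩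
  filter_upwards [hd, hev, hcc, hK.1] with k k1 k2 k3 k4 ω hω hGω
  obtain ⟨h0, hEω⟩ := (l k).T.rest_supp (E k) ω hω
  have hEω := hEω k2
  obtain ⟨d1, d2, d3, d4, d5, d6, d7⟩ := k1 ω h0 hGω
  have hn := (S.F k).pos
  have hKK : K k ≤ K k + 2 := by linarith
  have hα1 : (1 : ℝ) ≤ 2 ^ (a * (S.F k).n) := Real.one_le_rpow (by norm_num) (by positivity)
  have hρ1 : S.dl w k ≤ 1 := by
    have hdl : S.dl w k = 2 ^ (-(w * (S.F k).n)) := rfl
    rw [hdl]
    exact Real.rpow_le_one_of_one_le_of_nonpos (by norm_num) (neg_nonpos.mpr (mul_nonneg hw hn.le))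
  refine ⟨⟨fun j y hy => (d1 j y hy).trans hKK, d2.trans (mul_le_mul_of_nonneg_right hKK (S.dl_pos w k).le),
    fun i => (d3 i).trans hKK,
    fun i => (d4 i).trans (mul_le_mul_of_nonneg_right hKK (S.dl_pos _ k).le),
    fun i j => (d5 i j).trans (mul_le_mul_of_nonneg_right hKK (by positivity)),
    d6.trans (mul_le_mul_of_nonneg_right hKK (abs_nonneg _)),
    fun i => (d7 i).trans (mul_le_mul_of_nonneg_right hKK (by positivity))⟩, ?_, ?_⟩
  · refine (hzc k ω hEω).trans ?_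
    have : 0 ≤ (1 + ∑ a : Mon M K0, |∏ i, q k i ω ^ (a.1 i : ℕ)|) * S.dl w k := by
      have h1 : 0 ≤ ∑ a : Mon M K0, |∏ i, q k i ω ^ (a.1 i : ℕ)| := Finset.sum_nonneg fun _ _ => abs_nonneg _
      have h2 := S.dl_pos w k
      positivity
    exact le_mul_of_one_le_left this (by linarith)
  · intro i
    have h1 : |cc k ω i| ≤ 2 ^ (a * (S.F k).n) + S.dl w k := k3 ω i
    have h2 := mul_nonneg k4 (show (0 : ℝ) ≤ 2 ^ (a * (S.F k).n) by positivity)
    show |cc k ω i| ≤ (K k + 2) * 2 ^ (a * (S.F k).n)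
    linarith

end

end Pool.Agent.Helper88.NSK
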