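import Pool.Agent.Helper3.LF.Eta
import Pool.Agent.Helper42.NS.Hfb
import Pool.Agent.Helper99.EC.FinC

/-! EXACT SHEETS FROM LABEL-MEASURABLE POLYNOMIALS: a double Markov label of the window `c` together with a polynomial
of degree at most `D` which is a function of the label, is at most `2 ^ (-σ n)` at the point and has a gradient of size
`1` there gives `H(c, σ)`; for robust systems an event of positive probability is enough. -/

set_option autoImplicit false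

namespace Pool.Agent.Helper88.NSK

open Finset Filter Topology Matrix Pool.Agent.Helper69.RK Pool.Agent.Helper31.EC Pool.Agent.Helper31.EC.Sp
open Pool.Agent.Helper40.EL Pool.Agent.Helper52.KP Pool.Agent.Helper89.LX Pool.Agent.Helper3.LF
open Pool.Agent.Helper42.NS

noncomputable section

variable {S : Sp} {m D : ℕ} {s : Sys S m}

/-- the label with the form `1 + 2 ^ (2 σ n) v v ^ T`, cut at the cap -/
def pfd (s : Sys S m) (σ : ℝ) (l : Lab S) (v : ∀ k, (l k).T.Ω → Mon (m + 1) D → ℝ)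
    (hv : ∀ k ω ω', (l k).T.μ ω ≠ 0 → (l k).T.μ ω' ≠ 0 → (l k).V ω ω' → (l k).T.Z ω ω' → v k ω = v k ω') (k : ℕ) :
    FD (S.F k) (Mon (m + 1) D) :=
  mkFD (l k) (fun ω => capd ((gau s D).cp k) (nfm (2 ^ (2 * σ * (S.F k).n)) (v k ω))) (by
    intro ω ω' a a' b b'
    rw [hv k ω ω' a a' b b'])

/-- A LABEL-MEASURABLE POLYNOMIAL WHICH IS SMALL AT THE POINT AND HAS A LARGE GRADIENT gives `H(c, σ)` -/
theorem Hf_of_poly (l : Lab S) {c σ : ℝ} (hl : l.DM (cA s c) (cB s)) (v : ∀ k, (l k).T.Ω → Mon (m + 1) D → ℝ)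
    (hv : ∀ k ω ω', (l k).T.μ ω ≠ 0 → (l k).T.μ ω' ≠ 0 → (l k).V ω ω' → (l k).T.Z ω ω' → v k ω = v k ω')
    (K : ℕ → ℝ) (hK : S.Sub K) (hT : Sp.Typ (S := l.sp) (fun k (ω : (l k).T.Ω) =>
      2 ^ (2 * σ * (S.F k).n) * ph D (pol (v k ω)) (S.dl 1 k) (ptf s k ((l k).p.π ω)) ≤ K k ∧
      1 ≤ K k * ga D (pol (v k ω)) (S.dl 1 k) (ptf s k ((l k).p.π ω)))) : Hf s D c σ := by
  obtain ⟨K0, hK0, hone⟩ := (gau s D).one
  have hKK : S.Sub (fun k => K0 k + K k) := hK0.add hK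
  have hw : ∀ k, (0 : ℝ) ≤ 2 ^ (2 * σ * (S.F k).n) := fun k => by positivity
  have hphi : ∀ k (ω : (l k).T.Ω),
      2 ^ (2 * σ * (S.F k).n) * ph D (pol (v k ω)) (S.dl 1 k) (ptf s k ((l k).p.π ω)) ≤ K k →
      (gau s D).φ k ((l k).p.π ω) 1 ≤ K0 k →
      sph s D k ((l k).p.π ω) (nfm (2 ^ (2 * σ * (S.F k).n)) (v k ω)) ≤ K0 k + K k := by
    intro k ω g1 g2
    unfold sph
    rw [nfm_phi]
    exact add_le_add g2 g1
  have hcap : ∀ᶠ k in UF, ∀ ω, (l k).T.μ ω ≠ 0 →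
      sph s D k ((l k).p.π ω) (nfm (2 ^ (2 * σ * (S.F k).n)) (v k ω)) ≤ K0 k + K k →
      Cpd ((gau s D).cp k) (nfm (2 ^ (2 * σ * (S.F k).n)) (v k ω)) := by
    filter_upwards [(gau s D).cap, hKK.eventually_le one_pos] with k b1 b2 ω hω g1
    have g2 : Pool.Agent.Helper95.LF.PdM (nfm (2 ^ (2 * σ * (S.F k).n)) (v k ω)) :=
      pdM_of_one_le (nfm_symm _ _) (nfm_one_le (hw k) _)
    refine ⟨nfm_symm _ _, nfm_one_le (hw k) _, fun y => ?_⟩
    refine (b1 _ ((l k).p.supp ω hω) _ g2 y).trans ?_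
    apply mul_le_mul_of_nonneg_right _ (dot_self_nonneg y)
    unfold Gau.cp
    rw [add_mul, Real.rpow_add (by norm_num)]
    apply mul_le_mul_of_nonneg_left _ (by positivity)
    have g3 : (gau s D).φ k ((l k).p.π ω) (nfm (2 ^ (2 * σ * (S.F k).n)) (v k ω)) ≤ K0 k + K k := g1
    linarith
  refine ⟨pfd s σ l v hv, ?_, ?_⟩
  · apply ad_mk (Φ := gau s D) (pfd s σ l v hv) hl (fun k => rfl)
      (Eventually.of_forall fun k ω _ => capd_Cpd ((gau s D).one_le_cp k) _) (fun k => K0 k + K k) hKK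
    refine typ_mono (S := l.sp) hT ?_
    filter_upwards [hone, hK.1] with k b1 b2 ω hω g1
    have g2 := b1 _ ((l k).p.supp ω hω)
    show (gau s D).φ k ((l k).p.π ω) (capd ((gau s D).cp k) (nfm (2 ^ (2 * σ * (S.F k).n)) (v k ω))) ≤ K0 k + K k
    unfold capd
    split_ifs with h3
    · exact hphi k ω g1.1 g2
    · linarith
  · have hfin : Sp.Typ (S := l.sp) (fun k (ω : (l k).T.Ω) => 2 ^ (2 * σ * (l.sp.F k).n) ≤
        K k * sga s D k ((l k).p.π ω) (capd ((gau s D).cp k) (nfm (2 ^ (2 * σ * (S.F k).n)) (v k ω)))) := by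
      refine typ_mono (S := l.sp) hT ?_
      filter_upwards [hone, hcap, hK.1] with k b1 b3 b4 ω hω g1
      have g2 := b1 _ ((l k).p.supp ω hω)
      have g3 := b3 ω hω (hphi k ω g1.1 g2)
      rw [capd_eq g3, sp_n]
      have g6 := nfm_gam (r := S.dl 1 k) (w := 2 ^ (2 * σ * (S.F k).n)) (v k ω) (ptf s k ((l k).p.π ω))
      have g7 : (2 : ℝ) ^ (2 * σ * (S.F k).n) * 1 ≤ 2 ^ (2 * σ * (S.F k).n) * (K k *
          ga D (pol (v k ω)) (S.dl 1 k) (ptf s k ((l k).p.π ω))) := mul_le_mul_of_nonneg_left g1.2 (hw k)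
      rw [mul_one] at g7
      refine g7.trans ?_
      have g8 := mul_le_mul_of_nonneg_left g6 b4
      refine le_trans (le_of_eq ?_) g8
      ring
    intro e he
    have hfin2 := typ_of_sub_ge ((sp_Sub l).mpr hK) (2 * σ)
      (Eventually.of_forall fun k ω _ => gam_nonneg _ (fun y => (capd_Cpd ((gau s D).one_le_cp k)
        (nfm (2 ^ (2 * σ * (S.F k).n)) (v k ω))).psd.2 y) _) hfin (2 * e) (by linarith)
    have hfin3 : Tendsto (fun k => (l k).T.pb (fun ω => ¬ 2 ^ ((2 * σ - 2 * e) * (l.sp.F k).n) ≤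
      sga s D k ((l k).p.π ω) (capd ((gau s D).cp k) (nfm (2 ^ (2 * σ * (S.F k).n)) (v k ω))))) UF (𝓝 0) := hfin2
    refine hfin3.congr fun k => ?_
    show (l k).T.pb _ = (l k).T.pb _
    congr 1
    funext ω
    rw [sp_n]
    show (¬ _ ≤ sga s D k ((l k).p.π ω) (capd ((gau s D).cp k) (nfm (2 ^ (2 * σ * (S.F k).n)) (v k ω)))) =
      (¬ _ ≤ sga s D k ((l k).p.π ω) (capd ((gau s D).cp k) (nfm (2 ^ (2 * σ * (S.F k).n)) (v k ω))))
    congr 2
    ring_nf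

/-- points do not change under restriction -/
theorem ptf_im {T : Sp} (p : Pj T S) (E : ∀ k, (T.F k).Ω → Prop) (hE : 0 < ul (T.pr E)) (k : ℕ) (ω : (S.F k).Ω) :
    ptf (s.im p E hE) k ω = ptf s k ω := rfl

/-- the same on an event of positive probability, for robust systems -/
theorem Hf_of_poly_im (hR : RobH s) (l : Lab S) {c σ : ℝ} (hl : l.DM (cA s c) (cB s))
    (v : ∀ k, (l k).T.Ω → Mon (m + 1) D → ℝ)
    (hv : ∀ k ω ω', (l k).T.μ ω ≠ 0 → (l k).T.μ ω' ≠ 0 → (l k).V ω ω' → (l k).T.Z ω ω' → v k ω = v k ω')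
    (K : ℕ → ℝ) (hK : S.Sub K) (G : ∀ k, (l.sp.F k).Ω → Prop) (hG : 0 < ul (l.sp.pr G))
    (hT : ∀ᶠ k in UF, ∀ ω : (l k).T.Ω, (l k).T.μ ω ≠ 0 → G k ω →
      2 ^ (2 * σ * (S.F k).n) * ph D (pol (v k ω)) (S.dl 1 k) (ptf s k ((l k).p.π ω)) ≤ K k ∧
      1 ≤ K k * ga D (pol (v k ω)) (S.dl 1 k) (ptf s k ((l k).p.π ω))) : Hf s D c σ := by
  rw [← hR.Hf_im l.pj G hG]
  have hl' : (l.im G).DM (cA (s.im l.pj G hG) c) (cB (s.im l.pj G hG)) := by
    rw [cA_im, cB_im]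
    exact hl.im G hG
  refine Hf_of_poly (s := s.im l.pj G hG) (l.im G) hl' v ?_ K hK ?_
  · intro k ω ω' a a' b b'
    exact hv k ω ω' ((l k).T.rest_supp (G k) ω a).1 ((l k).T.rest_supp (G k) ω' a').1 b b'
  · have h1 : Tendsto (l.sp.pr G) UF (𝓝 (ul (l.sp.pr G))) := ul_tendsto (Sp.UB_pr G)
    refine typ_mono (S := (l.im G).sp) (Typ_true (S := (l.im G).sp)) ?_
    filter_upwards [h1.eventually (lt_mem_nhds hG), hT] with k hk hk2 ω hω _
    obtain ⟨a, b⟩ := (l k).T.rest_supp (G k) ω hω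
    exact hk2 ω a (b hk.ne')

end

end Pool.Agent.Helper88.NSK
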