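import Pool.Agent.Helper31.NSB.Lev
import Pool.Agent.Helper97.T1.Pot
import Pool.Agent.Helper3.H3.Full
import Pool.Agent.Helper83.NSA.End
import Pool.Agent.Helper59.GR.Shf

/-! CASE B: a typical window (`Win`) is an admissible window (`Adm`) of the potential: slabs `la s 1 {0,1}`, sheets
`la s 2 {0,1,2}`, fullness of the base `(y, R)` from its robust volume. -/

set_option autoImplicit false

namespace Pool.Agent.Helper88.NSK

open Finset Filter Topology Matrix Pool.Agent.Helper69.RK Pool.Agent.Helper31.EC Pool.Agent.Helper31.EC.Sp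
open Pool.Agent.Helper42.NS Pool.Agent.Helper40.EL Pool.Agent.Helper40.NSK Pool.Agent.Helper52.KP
open Pool.Agent.Helper19.S12 Pool.Agent.Helper91.GR Pool.Agent.Helper80.MX
open Pool.Agent.Helper3.SG (Fac)
open Pool.Agent.Helper59.EV (ST)
open Pool.Agent.Helper31.NSB (Win Rbb VolB)

noncomputable section

variable {S : Sp}

/-- depth of a sheet below the depth of the forms -/
theorem la_le_eta {s : Sys S 3} {D : ℕ} (hD : 1 ≤ D) {i : Fin 3} {J : Finset (Fin 4)} (hi : i.succ ∉ J) (b : ℝ) :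
    la s i J b ≤ Pool.Agent.Helper3.LF.eta s D b :=
  Pool.Agent.Helper3.LF.le_eta (Pool.Agent.Helper59.GR.Hf_of_SJD hD hi (HH_la b))

/-- speed of sheets on an interval where they are shallow -/
theorem la_sub_mono {s : Sys S 3} {i : Fin 3} {J : Finset (Fin 4)} {c c' : ℝ} (h0 : 0 ≤ c) (hcc : c ≤ c')
    (h1 : c' ≤ 1) (hl : la s i J c' < 1) : la s i J c - c ≤ la s i J c' - c' := by
  have h2 := la_speed (s := s) (i := i) (J := J) h0 hcc h1
  rcases min_le_iff.mp h2 with h | h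
  · linarith
  · linarith

/-- the digits of the point of the base `(y, R)` -/
theorem prI2_P_dg (s : Sys S 3) (r : ℝ) :
    (prI s 2).P.dg r = TR.dg (TR.cor s.P 0) r ⊔ TR.dg (TR.cor s.P 1) r := by
  have h1 : (prI s 2).P = TR.vec (fun i : Fin 2 => TR.cor s.P ((2 : Fin 3).succAbove i)) := by
    rw [Pool.Agent.Helper83.NSA.prI_P]
    rfl
  rw [h1, TR.vec_dg_eq, Fin.univ_succ]
  simp
  rfl

/-- the base of a window is full over every label of the window, on all events of all extensions -/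
theorem full_win_all (hst : ST 1 2) {s : Sys S 3} {b : ℝ} (h0 : 0 ≤ b) (h1 : b < 1)
    (hV : Pool.Agent.Helper39.LIP.RobV s (prI s 2) 1 b)
    (hB : Pool.Agent.Helper52.SL.lvolP s (prI s 2) 1 b ≤ 2 * (b + la s 1 {0, 1} b)) {l : Lab S} (hl : DMc s b l)
    {T : Sp} (q : Pj T (l.ovr 1 one_pos)) (E : ∀ k, (T.F k).Ω → Prop) (hE : 0 < ul (T.pr E)) :
    (1 - b) + (1 - la s 1 {0, 1} b) ≤
      h (restL E hE (q.map (up1 l (TR.dg (TR.cor s.P 0) 1 ⊔ TR.dg (TR.cor s.P 1) 1))))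
        (restL E hE (q.map (up1 l s.T))) := by
  have hF : Fac s (prI s 2) := Fac.pr s _ _ _ _
  have h2 := Pool.Agent.Helper3.H3.full_dm (D := 1) hF le_rfl hst h0 h1 hV hl q E hE
  have e1 : ((2 : ℕ) : ℝ) = 2 := by norm_num
  rw [e1] at h2
  rw [prI2_P_dg s 1] at h2
  have h3 : 2 - Pool.Agent.Helper52.SL.lvolP s (prI s 2) 1 b / 2 ≤
      h (restL E hE (q.map (up1 l (TR.dg (TR.cor s.P 0) 1 ⊔ TR.dg (TR.cor s.P 1) 1))))
        (restL E hE (q.map (up1 l s.T))) := h2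
  linarith

/-- the base of a window is full over every label of the window -/
theorem full_win (hst : ST 1 2) {s : Sys S 3} {b : ℝ} (h0 : 0 ≤ b) (h1 : b < 1)
    (hV : Pool.Agent.Helper39.LIP.RobV s (prI s 2) 1 b)
    (hB : Pool.Agent.Helper52.SL.lvolP s (prI s 2) 1 b ≤ 2 * (b + la s 1 {0, 1} b)) {l : Lab S} (hl : DMc s b l) :
    (1 - b) + (1 - la s 1 {0, 1} b) ≤
      h (up1 l (TR.dg (TR.cor s.P 0) 1 ⊔ TR.dg (TR.cor s.P 1) 1)) (up1 l s.T) := by
  have ht : Typ (S := l.ovr 1 one_pos) (fun _ _ => True) := Typ_true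
  have h2 := full_win_all hst h0 h1 hV hB hl (Pj.id (l.ovr 1 one_pos)) (fun _ _ => True) (ul_pr_typ_pos _ ht)
  rw [Pj.id_map, Pj.id_map, h_restL_typ _ ht] at h2
  exact h2

/-- **TYPICAL WINDOWS ARE ADMISSIBLE** -/
theorem adm_of_win (hst : ST 1 2) {g : ℝ} {D : ℕ} (hD : 1 ≤ D) {s : Sys S 3} {c w1 w d : ℝ} (hW : Win D s 0 1 2 c w1 w d)
    (hR : Rbb g s) {a b : ℝ} (ha : c - d < a) (hb : b < c + d) :
    Pool.Agent.Helper97.T1.Adm s (la s 1 {0, 1}) (la s 2 {0, 1, 2}) a b := by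
  have hI : ∀ x ∈ Set.Icc a b, x ∈ Set.Ioo (c - d) (c + d) := fun x hx => ⟨ha.trans_le hx.1, hx.2.trans_lt hb⟩
  have hx0 : ∀ x ∈ Set.Icc a b, 0 < x := fun x hx => hW.cd.trans (hI x hx).1
  have hx1 : ∀ x ∈ Set.Icc a b, x < 1 := fun x hx => (hI x hx).2.trans hW.cd1
  have n1 : Fin.succ (1 : Fin 3) ∉ ({0, 1} : Finset (Fin 4)) := by decide
  have n2 : Fin.succ (2 : Fin 3) ∉ ({0, 1, 2} : Finset (Fin 4)) := by decide
  have l1 : ∀ x ∈ Set.Icc a b, la s 1 {0, 1} x < 1 := fun x hx =>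
    (la_le_eta hD n1 x).trans_lt (hW.lt1 x (hI x hx))
  have l2 : ∀ x ∈ Set.Icc a b, la s 2 {0, 1, 2} x < 1 := fun x hx =>
    (la_le_eta hD n2 x).trans_lt (hW.lt1 x (hI x hx))
  have e1 : ∀ x : ℝ, la s 1 {0, (0 : Fin 3).succ} x = la s 1 {0, 1} x := fun _ => rfl
  exact
    { a0 := (hW.cd.trans ha).le
      b1 := (hb.trans hW.cd1).le
      lam1 := fun x _ => la_le_one x
      eta0 := fun x _ => la_nonneg x
      eta1 := fun x _ => la_le_one x
      clam := fun x hx => la_ge_self (hx0 x hx).le (hx1 x hx).le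
      slam := fun x hx y hy h => la_sub_mono (hx0 x hx).le h (hx1 y hy).le (l1 y hy)
      seta := fun x hx y hy h => la_sub_mono (hx0 x hx).le h (hx1 y hy).le (l2 y hy)
      hR := fun x _ => HH_la x
      hz := fun x _ => HH_la x
      full := fun x hx l hl => by
        have h1 : Pool.Agent.Helper52.SL.lvolP s (prI s 2) 1 x ≤ 2 * (x + la s 1 {0, (0 : Fin 3).succ} x) :=
          hW.vol x (hI x hx)
        rw [e1] at h1
        exact full_win hst (hx0 x hx).le (hx1 x hx)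
          (hR.vol 2 x (hx0 x hx).le (hx1 x hx)) h1 hl.dm }

end

end Pool.Agent.Helper88.NSK
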