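import Pool.Agent.Helper88.NSK.Nwp

/-! The polynomial `q - λ c(aff)`, finite estimates: size on a small cell and derivative in a direction. -/

set_option autoImplicit false

namespace Pool.Agent.Helper88.NSK

open Finset MvPolynomial Pool.Agent.Helper3.LF

noncomputable section

variable {N M D D' K0 : ℕ}

/-- the polynomial `q - λ c(aff)` -/
def nwp (v : Mon N D → ℝ) (lam : ℝ) (c : Mon M K0 → ℝ) (b0 : Fin M → ℝ) (b1 : Fin M → Fin N → ℝ) :
    MvPolynomial (Fin N) ℝ := pol v - C lam * sbp c b0 b1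

/-- its coefficients -/
def nwv (D' : ℕ) (v : Mon N D → ℝ) (lam : ℝ) (c : Mon M K0 → ℝ) (b0 : Fin M → ℝ) (b1 : Fin M → Fin N → ℝ) :
    Mon N D' → ℝ := fun a => coeff a.ex (nwp v lam c b0 b1)

theorem deg_nwp (hD : D ≤ D') (hK : K0 ≤ D') (v : Mon N D → ℝ) (lam : ℝ) (c : Mon M K0 → ℝ) (b0 : Fin M → ℝ)
    (b1 : Fin M → Fin N → ℝ) : (nwp v lam c b0 b1).totalDegree ≤ D' := by
  unfold nwp
  refine (totalDegree_sub _ _).trans (max_le ((pol_deg v).trans hD) ?_)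
  refine (totalDegree_mul _ _).trans ?_
  rw [totalDegree_C, zero_add]
  exact (deg_sbp c b0 b1).trans hK

theorem pol_nwv (hD : D ≤ D') (hK : K0 ≤ D') (v : Mon N D → ℝ) (lam : ℝ) (c : Mon M K0 → ℝ) (b0 : Fin M → ℝ)
    (b1 : Fin M → Fin N → ℝ) : pol (nwv D' v lam c b0 b1) = nwp v lam c b0 b1 := by
  obtain ⟨w, hw⟩ := exists_pol (nwp v lam c b0 b1) (deg_nwp hD hK v lam c b0 b1)
  have h : nwv D' v lam c b0 b1 = w := by
    funext a
    show coeff a.ex (nwp v lam c b0 b1) = w a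
    rw [hw, coeff_pol]
  rw [h, ← hw]

theorem eval_nwp (v : Mon N D → ℝ) (lam : ℝ) (c : Mon M K0 → ℝ) (b0 : Fin M → ℝ) (b1 : Fin M → Fin N → ℝ)
    (y : Fin N → ℝ) : eval y (nwp v lam c b0 b1) =
      eval y (pol v) - lam * ∑ a, c a * ∏ i, (b0 i + ∑ j, b1 i j * y j) ^ (a.1 i : ℕ) := by
  unfold nwp
  rw [map_sub, map_mul, eval_C, eval_sbp]

/-- oscillation of a polynomial on a small cell -/
theorem osc_le (v : Mon N D → ℝ) (p y : Fin N → ℝ) (r : ℝ) (hr : 0 < r) (hy : ∀ j, |y j - p j| ≤ r) :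
    |eval y (pol v) - eval p (pol v)| ≤ N * (Cu D * Cm N D) * (r * Real.sqrt (ga D (pol v) r p)) := by
  have h1 := Cu_one D
  have h2 := Cm_one N D
  have h := Pool.Agent.Helper59.LF.mvb (pol v) p y r ((Cu D * Cm N D) * (r * Real.sqrt (ga D (pol v) r p)))
    (by positivity) hy (fun i y' hy' => by
      have h3 := grad_near (D := D) (pol v) (pol_deg v) r 1 hr le_rfl p y' (fun j => by rw [one_mul]; exact hy' j) i
      rw [one_pow, mul_one] at h3
      calc r * |eval y' (pderiv i (pol v))| ≤ r * (Cu D * Cm N D * Real.sqrt (ga D (pol v) r p)) :=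
            mul_le_mul_of_nonneg_left h3 hr.le
        _ = _ := by ring)
  refine h.trans (le_of_eq ?_)
  ring

/-- the number of monomials -/
def nm (M K0 : ℕ) : ℝ := Fintype.card (Mon M K0)

theorem nm_nonneg (M K0 : ℕ) : 0 ≤ nm M K0 := Nat.cast_nonneg _

theorem sum_ex_le (a : Mon M K0) : (∑ i, ((a.1 i : ℕ) : ℝ)) ≤ K0 := by
  exact_mod_cast a.2

/-- difference of the values of a polynomial -/
theorem val_diff (c : Mon M K0 → ℝ) (x y : Fin M → ℝ) (R L η : ℝ) (hR : 1 ≤ R) (hη : 0 ≤ η) (hL : 0 ≤ L)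
    (hc : ∀ a, |c a| ≤ L) (hx : ∀ i, |x i| ≤ R) (hy : ∀ i, |y i| ≤ R) (hd : ∀ i, |x i - y i| ≤ η) :
    |∑ a, c a * ∏ i, x i ^ (a.1 i : ℕ) - ∑ a, c a * ∏ i, y i ^ (a.1 i : ℕ)| ≤ nm M K0 * (L * (K0 * R ^ K0 * η)) := by
  rw [← Finset.sum_sub_distrib]
  refine (Finset.abs_sum_le_sum_abs _ _).trans ?_
  have h0 : ∀ a ∈ (Finset.univ : Finset (Mon M K0)),
      |c a * ∏ i, x i ^ (a.1 i : ℕ) - c a * ∏ i, y i ^ (a.1 i : ℕ)| ≤ L * (K0 * R ^ K0 * η) := by
    intro a _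
    rw [← mul_sub, abs_mul]
    have h1 := prod_pow_lip Finset.univ x y (fun i => (a.1 i : ℕ)) R η hR hη (fun i _ => hx i) (fun i _ => hy i)
      (fun i _ => hd i)
    have h2 : (∑ i, ((a.1 i : ℕ) : ℝ)) * R ^ (∑ i, (a.1 i : ℕ)) * η ≤ K0 * R ^ K0 * η := by
      apply mul_le_mul_of_nonneg_right _ hη
      exact mul_le_mul (sum_ex_le a) (pow_le_pow_right₀ hR a.2) (by positivity) (Nat.cast_nonneg _)
    exact mul_le_mul (hc a) (h1.trans h2) (abs_nonneg _) hL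
  refine (Finset.sum_le_card_nsmul _ _ _ h0).trans (le_of_eq ?_)
  rw [nsmul_eq_mul]
  rfl

/-- SIZE OF THE NEW POLYNOMIAL at the points of a small cell -/
theorem core_val (v : Mon N D → ℝ) (c : Mon M K0 → ℝ) (b0 : Fin M → ℝ) (b1 : Fin M → Fin N → ℝ) (p y : Fin N → ℝ)
    (x : Fin M → ℝ) (z lam r ρ α K B : ℝ) (hr : 0 < r) (hK : 1 ≤ K) (hlam : 0 < lam) (hρ : 0 ≤ ρ) (hρ1 : ρ ≤ 1)
    (hα : 1 ≤ α)
    (hy : ∀ j, |y j - p j| ≤ r)
    (h1 : Real.sqrt (ga D (pol v) r p) ≤ K) (h2 : r ≤ lam * ρ)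
    (h3 : |z - lam⁻¹ * eval p (pol v)| ≤ K * ρ)
    (h4 : |z - ∑ a, c a * ∏ i, x i ^ (a.1 i : ℕ)| ≤ K * ((1 + ∑ a : Mon M K0, |∏ i, x i ^ (a.1 i : ℕ)|) * ρ))
    (h5 : ∀ i, |x i| ≤ K) (h6 : ∀ i, |x i - (b0 i + ∑ j, b1 i j * p j)| ≤ K * (ρ / α))
    (h7 : ∀ i j, |b1 i j| ≤ B) (h8 : B * r ≤ K * (ρ / α)) (h9 : ∀ a, |c a| ≤ K * α) :
    |eval y (nwp v lam c b0 b1)| ≤ (N * (Cu D * Cm N D) * K + K + K * (1 + nm M K0 * K ^ K0) +
      nm M K0 * (K * (K0 * ((2 + N) * K) ^ K0 * ((1 + N) * K)))) * (lam * ρ) := by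
  have hρα : ρ / α ≤ ρ := div_le_self hρ hα
  have hρα0 : 0 ≤ ρ / α := by positivity
  -- four terms
  have t1 := osc_le v p y r hr hy
  have hCC : 0 ≤ (N : ℝ) * (Cu D * Cm N D) := by
    have h1 := Cu_one D
    have h2 := Cm_one N D
    positivity
  have t1' : |eval y (pol v) - eval p (pol v)| ≤ N * (Cu D * Cm N D) * K * (lam * ρ) := by
    refine t1.trans ?_
    have e1 : r * Real.sqrt (ga D (pol v) r p) ≤ (lam * ρ) * K :=
      mul_le_mul h2 h1 (Real.sqrt_nonneg _) (by positivity)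
    calc (N : ℝ) * (Cu D * Cm N D) * (r * Real.sqrt (ga D (pol v) r p))
        ≤ N * (Cu D * Cm N D) * ((lam * ρ) * K) := mul_le_mul_of_nonneg_left e1 hCC
      _ = _ := by ring
  have t2 : |eval p (pol v) - lam * z| ≤ K * (lam * ρ) := by
    have e1 : eval p (pol v) - lam * z = -(lam * (z - lam⁻¹ * eval p (pol v))) := by
      rw [mul_sub, ← mul_assoc, mul_inv_cancel₀ hlam.ne', one_mul]
      ring
    rw [e1, abs_neg, abs_mul, abs_of_pos hlam]
    calc lam * |z - lam⁻¹ * eval p (pol v)| ≤ lam * (K * ρ) := mul_le_mul_of_nonneg_left h3 hlam.le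
      _ = _ := by ring
  have hsum : (∑ a : Mon M K0, |∏ i, x i ^ (a.1 i : ℕ)|) ≤ nm M K0 * K ^ K0 := by
    have e0 : ∀ a ∈ (Finset.univ : Finset (Mon M K0)), |∏ i, x i ^ (a.1 i : ℕ)| ≤ K ^ K0 := by
      intro a _
      exact (prod_pow_le Finset.univ x _ K fun i _ => h5 i).trans (pow_le_pow_right₀ hK a.2)
    refine (Finset.sum_le_card_nsmul _ _ _ e0).trans (le_of_eq ?_)
    rw [nsmul_eq_mul]
    rfl
  have t3 : |lam * z - lam * ∑ a, c a * ∏ i, x i ^ (a.1 i : ℕ)| ≤ K * (1 + nm M K0 * K ^ K0) * (lam * ρ) := by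
    rw [← mul_sub, abs_mul, abs_of_pos hlam]
    calc lam * |z - ∑ a, c a * ∏ i, x i ^ (a.1 i : ℕ)|
        ≤ lam * (K * ((1 + ∑ a : Mon M K0, |∏ i, x i ^ (a.1 i : ℕ)|) * ρ)) := mul_le_mul_of_nonneg_left h4 hlam.le
      _ ≤ lam * (K * ((1 + nm M K0 * K ^ K0) * ρ)) := by
          apply mul_le_mul_of_nonneg_left _ hlam.le
          apply mul_le_mul_of_nonneg_left _ (by linarith)
          apply mul_le_mul_of_nonneg_right _ hρ
          linarith
      _ = _ := by ring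
  have hdiff : ∀ i, |x i - (b0 i + ∑ j, b1 i j * y j)| ≤ (1 + N) * K * (ρ / α) := by
    intro i
    have e1 : x i - (b0 i + ∑ j, b1 i j * y j) = (x i - (b0 i + ∑ j, b1 i j * p j)) - ∑ j, b1 i j * (y j - p j) := by
      have : ∑ j, b1 i j * (y j - p j) = ∑ j, b1 i j * y j - ∑ j, b1 i j * p j := by
        rw [← Finset.sum_sub_distrib]
        exact Finset.sum_congr rfl fun j _ => by ring
      rw [this]
      ring
    rw [e1]
    refine (abs_sub _ _).trans ?_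
    have e2 : |∑ j, b1 i j * (y j - p j)| ≤ N * (K * (ρ / α)) := by
      refine (Finset.abs_sum_le_sum_abs _ _).trans ?_
      have e3 : ∀ j ∈ (Finset.univ : Finset (Fin N)), |b1 i j * (y j - p j)| ≤ K * (ρ / α) := by
        intro j _
        rw [abs_mul]
        exact (mul_le_mul (h7 i j) (hy j) (abs_nonneg _) ((abs_nonneg _).trans (h7 i j))).trans h8
      refine (Finset.sum_le_card_nsmul _ _ _ e3).trans (le_of_eq ?_)
      rw [nsmul_eq_mul, Finset.card_univ, Fintype.card_fin]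
    have := h6 i
    calc |x i - (b0 i + ∑ j, b1 i j * p j)| + |∑ j, b1 i j * (y j - p j)|
        ≤ K * (ρ / α) + N * (K * (ρ / α)) := add_le_add this e2
      _ = _ := by ring
  have hN : (0 : ℝ) ≤ N := Nat.cast_nonneg _
  have hR : 1 ≤ (2 + N) * K := by nlinarith
  have hη0 : 0 ≤ (1 + N) * K * (ρ / α) := by positivity
  have hyb : ∀ i, |b0 i + ∑ j, b1 i j * y j| ≤ (2 + N) * K := by
    intro i
    have e1 : b0 i + ∑ j, b1 i j * y j = x i - (x i - (b0 i + ∑ j, b1 i j * y j)) := by ring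
    rw [e1]
    refine (abs_sub _ _).trans ?_
    have e2 := hdiff i
    have e3 := h5 i
    have e4 : (1 + N) * K * (ρ / α) ≤ (1 + N) * K * 1 := by
      apply mul_le_mul_of_nonneg_left (hρα.trans hρ1) (by positivity)
    calc |x i| + |x i - (b0 i + ∑ j, b1 i j * y j)| ≤ K + (1 + N) * K * 1 := by linarith
      _ = (2 + N) * K := by ring
  have t4 : |lam * ∑ a, c a * ∏ i, x i ^ (a.1 i : ℕ) - lam * ∑ a, c a * ∏ i, (b0 i + ∑ j, b1 i j * y j) ^ (a.1 i : ℕ)| ≤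
      nm M K0 * (K * (K0 * ((2 + N) * K) ^ K0 * ((1 + N) * K))) * (lam * ρ) := by
    rw [← mul_sub, abs_mul, abs_of_pos hlam]
    have e1 := val_diff c x (fun i => b0 i + ∑ j, b1 i j * y j) ((2 + N) * K) (K * α) ((1 + N) * K * (ρ / α)) hR hη0
      (by positivity) h9 (fun i => (h5 i).trans (by nlinarith)) hyb hdiff
    refine (mul_le_mul_of_nonneg_left e1 hlam.le).trans (le_of_eq ?_)
    have e2 : K * α * ((K0 : ℝ) * ((2 + N) * K) ^ K0 * ((1 + N) * K * (ρ / α))) =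
        K * (K0 * ((2 + N) * K) ^ K0 * ((1 + N) * K)) * (α * (ρ / α)) := by ring
    rw [e2, mul_div_cancel₀ _ (by linarith : α ≠ 0)]
    ring
  rw [eval_nwp]
  have e0 : eval y (pol v) - lam * ∑ a, c a * ∏ i, (b0 i + ∑ j, b1 i j * y j) ^ (a.1 i : ℕ) =
      (eval y (pol v) - eval p (pol v)) + (eval p (pol v) - lam * z) +
      (lam * z - lam * ∑ a, c a * ∏ i, x i ^ (a.1 i : ℕ)) +
      (lam * ∑ a, c a * ∏ i, x i ^ (a.1 i : ℕ) -
        lam * ∑ a, c a * ∏ i, (b0 i + ∑ j, b1 i j * y j) ^ (a.1 i : ℕ)) := by ring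
  rw [e0]
  refine (abs_add_le _ _).trans ?_
  have a1 := abs_add_le ((eval y (pol v) - eval p (pol v)) + (eval p (pol v) - lam * z))
    (lam * z - lam * ∑ a, c a * ∏ i, x i ^ (a.1 i : ℕ))
  have a2 := abs_add_le (eval y (pol v) - eval p (pol v)) (eval p (pol v) - lam * z)
  calc _ ≤ (N * (Cu D * Cm N D) * K * (lam * ρ) + K * (lam * ρ) + K * (1 + nm M K0 * K ^ K0) * (lam * ρ)) +
        nm M K0 * (K * (K0 * ((2 + N) * K) ^ K0 * ((1 + N) * K))) * (lam * ρ) := by linarith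
    _ = _ := by ring

end

end Pool.Agent.Helper88.NSK
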