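import Pool.Agent.Helper88.NSK.Core

/-! The polynomial `q - λ c(aff)`: derivative in a direction, lower bound of the gradient. -/

set_option autoImplicit false

namespace Pool.Agent.Helper88.NSK

open Finset MvPolynomial Pool.Agent.Helper3.LF

noncomputable section

variable {N M D D' K0 : ℕ}

theorem Du_sbp_le (c : Mon M K0 → ℝ) (b0 : Fin M → ℝ) (b1 : Fin M → Fin N → ℝ) (u p : Fin N → ℝ) (R L G : ℝ)
    (hR : 1 ≤ R) (hL : 0 ≤ L) (hG : 0 ≤ G) (hc : ∀ a, |c a| ≤ L) (hx : ∀ i, |b0 i + ∑ j, b1 i j * p j| ≤ R)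
    (hu : ∀ i, |∑ j, u j * b1 i j| ≤ G) :
    |eval p (Du u (sbp c b0 b1))| ≤ nm M K0 * (L * (K0 * R ^ K0 * G)) := by
  unfold sbp
  rw [map_sum, map_sum]
  refine (Finset.abs_sum_le_sum_abs _ _).trans ?_
  have h0 : ∀ a ∈ (Finset.univ : Finset (Mon M K0)),
      |eval p (Du u (C (c a) * ∏ i, aff b0 b1 i ^ (a.1 i : ℕ)))| ≤ L * (K0 * R ^ K0 * G) := by
    intro a _
    rw [Derivation.leibniz, ← algebraMap_eq, Derivation.map_algebraMap, smul_zero, add_zero, smul_eq_mul, map_mul,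
      algebraMap_eq, eval_C, abs_mul]
    have h1 := Du_prod_le Finset.univ (fun i => aff b0 b1 i) (fun i => (a.1 i : ℕ)) u p R G hR hG
      (fun i _ => by rw [eval_aff]; exact hx i) (fun i _ => by rw [Du_aff, eval_C]; exact hu i)
    have h2 : (∑ i, ((a.1 i : ℕ) : ℝ)) * R ^ (∑ i, (a.1 i : ℕ)) * G ≤ K0 * R ^ K0 * G := by
      apply mul_le_mul_of_nonneg_right _ hG
      exact mul_le_mul (sum_ex_le a) (pow_le_pow_right₀ hR a.2) (by positivity) (Nat.cast_nonneg _)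
    exact mul_le_mul (hc a) (h1.trans h2) (abs_nonneg _) hL
  refine (Finset.sum_le_card_nsmul _ _ _ h0).trans (le_of_eq ?_)
  rw [nsmul_eq_mul]
  rfl

theorem eval_Du_nwp (v : Mon N D → ℝ) (lam : ℝ) (c : Mon M K0 → ℝ) (b0 : Fin M → ℝ) (b1 : Fin M → Fin N → ℝ)
    (u p : Fin N → ℝ) : eval p (Du u (nwp v lam c b0 b1)) =
      eval p (Du u (pol v)) - lam * eval p (Du u (sbp c b0 b1)) := by
  unfold nwp
  rw [map_sub, map_sub, Derivation.leibniz, ← algebraMap_eq, Derivation.map_algebraMap, smul_zero, add_zero,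
    smul_eq_mul, map_mul, algebraMap_eq, eval_C]

/-- the derivative in a direction is bounded by the gradient -/
theorem Du_sq_le (q : MvPolynomial (Fin N) ℝ) (u p : Fin N → ℝ) (r : ℝ) :
    (eval p (Du u q)) ^ 2 ≤ (∑ j, (u j) ^ 2) * ga D q r p := by
  rw [eval_Du]
  refine (Finset.sum_mul_sq_le_sq_mul_sq _ _ _).trans ?_
  apply mul_le_mul_of_nonneg_left _ (Finset.sum_nonneg fun j _ => sq_nonneg _)
  unfold ga
  apply Finset.sum_le_sum
  intro j _
  have h1 : nodp D p r (fun _ => 0) = p := by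
    funext i
    unfold nodp nod
    simp
  have h2 := Finset.single_le_sum (f := fun j' : Fin N → Fin (D + 1) => (eval (nodp D p r j') (pderiv j q)) ^ 2)
    (fun _ _ => sq_nonneg _) (Finset.mem_univ (fun _ => (0 : Fin (D + 1))))
  rw [h1] at h2
  exact h2

/-- LOWER BOUND OF THE GRADIENT of the new polynomial -/
theorem core_der (v : Mon N D → ℝ) (c : Mon M K0 → ℝ) (b0 : Fin M → ℝ) (b1 : Fin M → Fin N → ℝ) (p u : Fin N → ℝ)
    (x : Fin M → ℝ) (lam r ρ α K G : ℝ) (hK : 1 ≤ K) (hlam : 0 < lam) (hρ : 0 ≤ ρ) (hρ1 : ρ ≤ 1) (hα : 1 ≤ α)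
    (hG : 0 ≤ G) (h5 : ∀ i, |x i| ≤ K) (h6 : ∀ i, |x i - (b0 i + ∑ j, b1 i j * p j)| ≤ K * (ρ / α))
    (h9 : ∀ a, |c a| ≤ K * α) (hu : ∀ j, |u j| ≤ K) (hv : 1 ≤ K * |eval p (Du u (pol v))|)
    (hb : ∀ i, |∑ j, u j * b1 i j| ≤ K * G)
    (hs : 2 * K * (lam * (nm M K0 * (K * α * (K0 * (2 * K) ^ K0 * (K * G))))) ≤ 1) :
    1 ≤ 4 * N * K ^ 4 * ga D' (nwp v lam c b0 b1) r p := by
  have hK0 : 0 < K := by linarith
  have hρα : ρ / α ≤ 1 := (div_le_self hρ hα).trans hρ1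
  have hxb : ∀ i, |b0 i + ∑ j, b1 i j * p j| ≤ 2 * K := by
    intro i
    have e1 : b0 i + ∑ j, b1 i j * p j = x i - (x i - (b0 i + ∑ j, b1 i j * p j)) := by ring
    rw [e1]
    refine (abs_sub _ _).trans ?_
    have e2 := h6 i
    have e3 := h5 i
    nlinarith
  have h1 := Du_sbp_le c b0 b1 u p (2 * K) (K * α) (K * G) (by linarith) (by positivity) (by positivity) h9 hxb hb
  have h2 : K * |eval p (Du u (nwp v lam c b0 b1))| ≥ 1 / 2 := by
    rw [eval_Du_nwp]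
    have e1 : |eval p (Du u (pol v))| ≤ |eval p (Du u (pol v)) - lam * eval p (Du u (sbp c b0 b1))| +
        |lam * eval p (Du u (sbp c b0 b1))| := by
      have := abs_sub_abs_le_abs_sub (eval p (Du u (pol v))) (lam * eval p (Du u (sbp c b0 b1)))
      linarith
    rw [abs_mul, abs_of_pos hlam] at e1
    have e2 : K * (lam * |eval p (Du u (sbp c b0 b1))|) ≤ 1 / 2 := by
      have e3 := mul_le_mul_of_nonneg_left h1 hlam.le
      have e4 := mul_le_mul_of_nonneg_left e3 hK0.le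
      linarith
    have e5 := mul_le_mul_of_nonneg_left e1 hK0.le
    linarith
  have h3 := Du_sq_le (D := D') (nwp v lam c b0 b1) u p r
  have h4 : ∑ j, (u j) ^ 2 ≤ N * K ^ 2 := by
    have e0 : ∀ j ∈ (Finset.univ : Finset (Fin N)), (u j) ^ 2 ≤ K ^ 2 := by
      intro j _
      rw [← sq_abs]
      exact pow_le_pow_left₀ (abs_nonneg _) (hu j) 2
    refine (Finset.sum_le_card_nsmul _ _ _ e0).trans (le_of_eq ?_)
    rw [nsmul_eq_mul, Finset.card_univ, Fintype.card_fin]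
  have h5' : (1 / 2) ^ 2 ≤ (K * |eval p (Du u (nwp v lam c b0 b1))|) ^ 2 := pow_le_pow_left₀ (by norm_num) h2 2
  have hga := ga_nonneg (D := D') (nwp v lam c b0 b1) r p
  rw [mul_pow, sq_abs] at h5'
  have h6' : (eval p (Du u (nwp v lam c b0 b1))) ^ 2 ≤ N * K ^ 2 * ga D' (nwp v lam c b0 b1) r p :=
    h3.trans (mul_le_mul_of_nonneg_right h4 hga)
  have h7 : K ^ 2 * (eval p (Du u (nwp v lam c b0 b1))) ^ 2 ≤ K ^ 2 * (N * K ^ 2 * ga D' (nwp v lam c b0 b1) r p) :=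
    mul_le_mul_of_nonneg_left h6' (by positivity)
  nlinarith

end

end Pool.Agent.Helper88.NSK
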