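import Pool.Agent.Helper88.NSK.Sheet

/-! EXA: THE FINITE LEAF STATEMENT OVER A MAXIMAL LABEL AT ONE STAGE GIVES AN EXACT SHEET OF THE SYSTEM. -/

set_option autoImplicit false

namespace Pool.Agent.Helper88.NSK

open Finset Filter Topology Matrix Pool.Agent.Helper69.RK Pool.Agent.Helper31.EC Pool.Agent.Helper31.EC.Sp
open Pool.Agent.Helper40.EL Pool.Agent.Helper52.KP Pool.Agent.Helper89.LX Pool.Agent.Helper3.LF
open Pool.Agent.Helper42.NS Pool.Agent.Helper99.EC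

noncomputable section

variable {S : Sp} {m : ℕ} {s : Sys S m}

/-- DATA OF EXA on an event `G` of the space of the label `l`: `v` the polynomial of the top coordinate `z`, `b0, b1`
the base coordinates `q` as affine functions of the point, `u` a direction in which the base coordinates are almost
constant and `v` is not -/
def ExD (s : Sys S m) (l : Lab S) (D M : ℕ) (r a w b g : ℝ) (v : ∀ k, (l k).T.Ω → Mon (m + 1) D → ℝ)
    (b0 : ∀ k, (l k).T.Ω → Fin M → ℝ) (b1 : ∀ k, (l k).T.Ω → Fin M → Fin (m + 1) → ℝ)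
    (u : ∀ k, (l k).T.Ω → Fin (m + 1) → ℝ) (q : ∀ k, Fin M → (l k).T.Ω → ℝ) (z : ∀ k, (l k).T.Ω → ℝ) (K : ℕ → ℝ)
    (k : ℕ) (ω : (l k).T.Ω) : Prop :=
  ga D (pol (v k ω)) (S.dl 1 k) (ptf s k ((l k).p.π ω)) ≤ K k ∧
  |z k ω - 2 ^ (r * (S.F k).n) * MvPolynomial.eval (ptf s k ((l k).p.π ω)) (pol (v k ω))| ≤ K k * S.dl w k ∧
  (∀ i, |q k i ω| ≤ K k) ∧
  (∀ i, |q k i ω - (b0 k ω i + ∑ j, b1 k ω i j * ptf s k ((l k).p.π ω) j)| ≤ K k * S.dl (a + w) k) ∧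
  (∀ i j, |b1 k ω i j| ≤ K k * 2 ^ (b * (S.F k).n)) ∧ (∀ j, |u k ω j| ≤ K k) ∧
  1 ≤ K k * |∑ j, u k ω j * MvPolynomial.eval (ptf s k ((l k).p.π ω)) (MvPolynomial.pderiv j (pol (v k ω)))| ∧
  ∀ i, |∑ j, u k ω j * b1 k ω i j| ≤ K k * 2 ^ (g * (S.F k).n)

/-- SHEETS OVER A BASE, with a direction: `cc` the coefficients (functions of the label) of the sheet `z = cc(q)` over
the base, on an event of positive probability of the space of a double Markov label -/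
theorem Hf_of_sheet_u (hR : RobH s) {c r a w b g : ℝ} {D D' K0 M : ℕ} (hD : D ≤ D') (hK0 : K0 ≤ D') (l : Lab S)
    (hl : l.DM (cA s c) (cB s)) (v : ∀ k, (l k).T.Ω → Mon (m + 1) D → ℝ) (cc : ∀ k, (l k).T.Ω → Mon M K0 → ℝ)
    (b0 : ∀ k, (l k).T.Ω → Fin M → ℝ) (b1 : ∀ k, (l k).T.Ω → Fin M → Fin (m + 1) → ℝ)
    (hm : ∀ k ω ω', (l k).T.μ ω ≠ 0 → (l k).T.μ ω' ≠ 0 → (l k).V ω ω' → (l k).T.Z ω ω' →
      v k ω = v k ω' ∧ cc k ω = cc k ω' ∧ b0 k ω = b0 k ω' ∧ b1 k ω = b1 k ω')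
    (u : ∀ k, (l k).T.Ω → Fin (m + 1) → ℝ) (q : ∀ k, Fin M → (l k).T.Ω → ℝ) (z : ∀ k, (l k).T.Ω → ℝ)
    (ha : 0 ≤ a) (hw : 0 ≤ w) (hrw : r + w ≤ 1) (hb : b + a + w ≤ 1) (hg : g + a < r)
    (K : ℕ → ℝ) (hK : S.Sub K) (G : ∀ k, (l.sp.F k).Ω → Prop) (hG : 0 < ul (l.sp.pr G))
    (hd : ∀ᶠ k in UF, ∀ ω : (l k).T.Ω, (l k).T.μ ω ≠ 0 → G k ω → ExD s l D M r a w b g v b0 b1 u q z K k ω ∧
      |z k ω - ∑ a, cc k ω a * ∏ i, q k i ω ^ (a.1 i : ℕ)| ≤
        K k * ((1 + ∑ a : Mon M K0, |∏ i, q k i ω ^ (a.1 i : ℕ)|) * S.dl w k) ∧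
      ∀ i, |cc k ω i| ≤ K k * 2 ^ (a * (S.F k).n)) : Hf s D' c (r + w) := by
  have hK1 : S.Sub (fun k => K k + 1) := hK.add (S.Sub_const zero_le_one)
  have hF1 : S.Sub (fun k => 4 * ((m + 1 : ℕ) : ℝ) * (K k + 1) ^ 4 + (K k + 1)) :=
    ((S.Sub_const (by positivity)).mul (Sub_powN hK1 4)).add hK1
  have hF2 : S.Sub (fun k => 2 * (K k + 1) * (nm M K0 * ((K k + 1) * (K0 * (2 * (K k + 1)) ^ K0 * (K k + 1))))) := by
    have h0 := S.Sub_const (K := (2 : ℝ)) (by norm_num)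
    exact (h0.mul hK1).mul ((S.Sub_const (nm_nonneg M K0)).mul (hK1.mul (((S.Sub_const (Nat.cast_nonneg K0)).mul
      (Sub_powN (h0.mul hK1) K0)).mul hK1)))
  refine Hf_of_sheet hR l (a := a) (b := b) hl hD hK0 v cc b0 b1 hm (fun k ω i => q k i ω) z ha hw hrw hb _ hF1 G hG ?_
  filter_upwards [hd, hK.1, hF2.eventually_le (show 0 < r - (g + a) by linarith)] with k k1 k4 k5 ω hω hGω
  obtain ⟨⟨d1, d2, d3, d4, d5, d6, d7, d8⟩, d9, d10⟩ := k1 ω hω hGω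
  have hn := (S.F k).pos
  set n := (S.F k).n with hndef
  have h40 : 0 ≤ 4 * ((m + 1 : ℕ) : ℝ) * (K k + 1) ^ 4 := by positivity
  have hKF : K k ≤ 4 * ((m + 1 : ℕ) : ℝ) * (K k + 1) ^ 4 + (K k + 1) := by linarith
  have hdl : ∀ y : ℝ, S.dl y k = 2 ^ (-(y * n)) := fun y => rfl
  have hα1 : (1 : ℝ) ≤ 2 ^ (a * n) := Real.one_le_rpow (by norm_num) (by positivity)
  have hρ1 : S.dl w k ≤ 1 := by
    rw [hdl]
    exact Real.rpow_le_one_of_one_le_of_nonpos (by norm_num) (by nlinarith)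
  have hρα : S.dl w k / 2 ^ (a * n) = S.dl (a + w) k := by
    rw [hdl, hdl, ← Real.rpow_sub (by norm_num)]
    congr 1
    ring
  have hKK : K k ≤ K k + 1 := by linarith
  refine ⟨d1.trans hKF, ?_, ?_, fun i => (d3 i).trans hKF, ?_, ?_, ?_, ?_⟩
  · exact d2.trans (mul_le_mul_of_nonneg_right hKF (S.dl_pos w k).le)
  · refine d9.trans (mul_le_mul_of_nonneg_right hKF ?_)
    have h1 : 0 ≤ ∑ a : Mon M K0, |∏ i, q k i ω ^ (a.1 i : ℕ)| := Finset.sum_nonneg fun _ _ => abs_nonneg _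
    have h2 := S.dl_pos w k
    positivity
  · intro i
    exact (d4 i).trans (mul_le_mul_of_nonneg_right hKF (S.dl_pos _ k).le)
  · intro i j
    exact (d5 i j).trans (mul_le_mul_of_nonneg_right hKF (by positivity))
  · intro i
    exact (d10 i).trans (mul_le_mul_of_nonneg_right hKF (by positivity))
  · have h1 := core_der (D' := D') (v k ω) (cc k ω) (b0 k ω) (b1 k ω) (ptf s k ((l k).p.π ω)) (u k ω)
      (fun i => q k i ω) (S.dl r k) (S.dl 1 k) (S.dl w k) (2 ^ (a * n)) (K k + 1) (2 ^ (g * n)) (by linarith)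
      (S.dl_pos r k) (S.dl_pos w k).le hρ1 hα1 (by positivity) (fun i => (d3 i).trans hKK) (by
        intro i
        rw [hρα]
        exact (d4 i).trans (mul_le_mul_of_nonneg_right hKK (S.dl_pos _ k).le)) (by
        intro i
        exact (d10 i).trans (mul_le_mul_of_nonneg_right hKK (by positivity))) (fun j => (d6 j).trans hKK) (by
        rw [eval_Du]
        exact d7.trans (mul_le_mul_of_nonneg_right hKK (abs_nonneg _))) (by
        intro i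
        exact (d8 i).trans (mul_le_mul_of_nonneg_right hKK (by positivity))) (by
        have e1 : 2 * (K k + 1) * (S.dl r k * (nm M K0 * ((K k + 1) * 2 ^ (a * n) *
            (K0 * (2 * (K k + 1)) ^ K0 * ((K k + 1) * 2 ^ (g * n)))))) =
            2 * (K k + 1) * (nm M K0 * ((K k + 1) * (K0 * (2 * (K k + 1)) ^ K0 * (K k + 1)))) *
            (S.dl r k * (2 ^ (a * n) * 2 ^ (g * n))) := by ring
        have e2 : S.dl r k * (2 ^ (a * n) * 2 ^ (g * n)) = 2 ^ (-((r - (g + a)) * n)) := by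
          rw [hdl, ← Real.rpow_add (by norm_num), ← Real.rpow_add (by norm_num)]
          congr 1
          ring
        rw [e1, e2, Real.rpow_neg (by norm_num), ← div_eq_mul_inv, div_le_one (by positivity)]
        linarith)
    refine h1.trans ?_
    apply mul_le_mul_of_nonneg_right _ (ga_nonneg _ _ _)
    linarith

/-- **EXA** (ns_notes_40c sect. 2 (1)): the finite leaf statement at one stage over the maximal label of the window
`c`, with probability at least `1 - ε`, and the data on an event of probability more than `ε`, give an exact sheet of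
degree `D'` and depth `r + w` of the window `c`. -/
theorem exa (hR : RobH s) {c r a w b g ε : ℝ} {D D' K0 M : ℕ} (hD : D ≤ D') (hK0 : K0 ≤ D') {l : Lab S}
    (hl : IsKap s c l) (v : ∀ k, (l k).T.Ω → Mon (m + 1) D → ℝ)
    (b0 : ∀ k, (l k).T.Ω → Fin M → ℝ) (b1 : ∀ k, (l k).T.Ω → Fin M → Fin (m + 1) → ℝ)
    (hm : ∀ k ω ω', (l k).T.μ ω ≠ 0 → (l k).T.μ ω' ≠ 0 → (l k).V ω ω' → (l k).T.Z ω ω' →
      v k ω = v k ω' ∧ b0 k ω = b0 k ω' ∧ b1 k ω = b1 k ω')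
    (u : ∀ k, (l k).T.Ω → Fin (m + 1) → ℝ) (q : ∀ k, Fin M → (l k).T.Ω → ℝ) (z : ∀ k, (l k).T.Ω → ℝ)
    (Zb : ∀ k, Setoid (l k).T.Ω) (e : ℝ) (he : 0 < e) (PB PX : ∀ k, Setoid (l k).T.Ω) (ha : 0 ≤ a) (hw : 0 ≤ w)
    (hrw : r + w ≤ 1) (hb : b + a + w ≤ 1) (hg : g + a < r) (hε : ε < 1) (hZ : ∀ᶠ k in UF, ∀ ω ω',
      (l k).T.μ ω ≠ 0 → (l k).T.μ ω' ≠ 0 → (l k).V ω ω' → (l k).T.Z ω ω' → (Zb k) ω ω')
    (hPX : Nul S (fun k => h (fc (PX k) : FL (l k).T) ((l k).v ⊔ (l k).p.map (cA s c k))))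
    (hPB : Nul S (fun k => h (fc (PB k) : FL (l k).T) ((l k).v ⊔ (l k).p.map (cB s k))))
    (hf : ∀ᶠ k in UF, LfF (((l k).T).chg (Zb k) e he) K0 (q k) (z k) (PB k) (PX k) (2 ^ (a * (S.F k).n)) (S.dl w k) ε)
    (K : ℕ → ℝ) (hK : S.Sub K) (G : ∀ k, (l.sp.F k).Ω → Prop) (hG : ε < ul (l.sp.pr G))
    (hd : ∀ᶠ k in UF, ∀ ω : (l k).T.Ω, (l k).T.μ ω ≠ 0 → G k ω → ExD s l D M r a w b g v b0 b1 u q z K k ω) :
    Hf s D' c (r + w) := by
  obtain ⟨E, cc, hE, hcc, hzc, _, hmax⟩ := exact_leaf hl (cA_Bd s c) (fun E => cA_im_Bd s c l.pj E) Zb e he q z PB PX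
    (fun k => 2 ^ (a * (S.F k).n)) (fun k => S.dl w k) (fun k => S.dl_pos w k) hε hZ hPX hPB hf
  have hE0 : 0 < ul (l.sp.pr E) := by linarith
  rw [← hR.Hf_im l.pj E hE0]
  have hR1 : RobH (s.im l.pj E hE0) := hR.im l.pj E hE0
  set l1 : Lab (Sp.im l.pj E) := (l.im E).addW (fun k => Setoid.ker (cc k)) with hl1
  have hdm : l1.DM (cA (s.im l.pj E hE0) c) (cB (s.im l.pj E hE0)) := by
    rw [cA_im, cB_im]
    exact hmax.1
  -- the event has positive probability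
  have hG1 : 0 < ul (l1.sp.pr G) := by
    have t1 : Tendsto (l.sp.pr G) UF (𝓝 (ul (l.sp.pr G))) := ul_tendsto (Sp.UB_pr G)
    have t2 : Tendsto (l.sp.pr E) UF (𝓝 (ul (l.sp.pr E))) := ul_tendsto (Sp.UB_pr E)
    set η : ℝ := (ul (l.sp.pr G) - ε) / 3 with hη
    have hη0 : 0 < η := by rw [hη]; linarith
    refine lt_of_lt_of_le hη0 (Lab.pr_ge_of (l := l1) ?_)
    filter_upwards [t1.eventually (lt_mem_nhds (show ul (l.sp.pr G) - η < ul (l.sp.pr G) by linarith)),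
      t2.eventually (lt_mem_nhds (show ul (l.sp.pr E) - η < ul (l.sp.pr E) by linarith))] with k k1 k2
    have k3 := pb_rest (l k).T (E k) (G k)
    have k4 := FSp.pb_and_ge (l k).T (E k) (G k)
    have k5 := (l k).T.pb_le_one (E k)
    have k6 := ((l k).T.rest (E k)).pb_nonneg (G k)
    have k7 : ul (l.sp.pr G) - η < (l k).T.pb (G k) := k1
    have k8 : ul (l.sp.pr E) - η < (l k).T.pb (E k) := k2
    show η ≤ ((l k).T.rest (E k)).pb (G k)
    have k9 : (l k).T.pb (E k) * ((l k).T.rest (E k)).pb (G k) ≤ ((l k).T.rest (E k)).pb (G k) :=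
      mul_le_of_le_one_left k6 k5
    linarith
  have hev : ∀ᶠ k in UF, (l k).T.pb (E k) ≠ 0 := by
    have t2 : Tendsto (l.sp.pr E) UF (𝓝 (ul (l.sp.pr E))) := ul_tendsto (Sp.UB_pr E)
    filter_upwards [t2.eventually (lt_mem_nhds hE0)] with k hk
    exact hk.ne'
  have hK2 : S.Sub (fun k => K k + 2) := hK.add (S.Sub_const (by norm_num))
  refine Hf_of_sheet_u (s := s.im l.pj E hE0) hR1 (a := a) (b := b) (g := g) hD hK0 l1 hdm v cc b0 b1 ?_ u q z ha hw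
    hrw hb hg _ hK2 G hG1 ?_
  · intro k ω ω' a1 a2 a3 a4
    have b1' := ((l k).T.rest_supp (E k) ω a1).1
    have b2' := ((l k).T.rest_supp (E k) ω' a2).1
    obtain ⟨c1, c2, c3⟩ := hm k ω ω' b1' b2' a3.1 a4
    exact ⟨c1, a3.2, c2, c3⟩
  filter_upwards [hd, hev, hcc, hK.1] with k k1 k2 k3 k4 ω hω hGω
  obtain ⟨h0, hEω⟩ := (l k).T.rest_supp (E k) ω hω
  have hEω := hEω k2
  obtain ⟨d1, d2, d3, d4, d5, d6, d7, d8⟩ := k1 ω h0 hGω
  have hn := (S.F k).pos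
  have hKK : K k ≤ K k + 2 := by linarith
  have hα1 : (1 : ℝ) ≤ 2 ^ (a * (S.F k).n) := Real.one_le_rpow (by norm_num) (by positivity)
  have hρ1 : S.dl w k ≤ 1 := by
    have hdl : S.dl w k = 2 ^ (-(w * (S.F k).n)) := rfl
    rw [hdl]
    exact Real.rpow_le_one_of_one_le_of_nonpos (by norm_num) (by nlinarith)
  refine ⟨⟨d1.trans hKK, d2.trans (mul_le_mul_of_nonneg_right hKK (S.dl_pos w k).le), fun i => (d3 i).trans hKK,
    fun i => (d4 i).trans (mul_le_mul_of_nonneg_right hKK (S.dl_pos _ k).le),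
    fun i j => (d5 i j).trans (mul_le_mul_of_nonneg_right hKK (by positivity)), fun j => (d6 j).trans hKK,
    d7.trans (mul_le_mul_of_nonneg_right hKK (abs_nonneg _)),
    fun i => (d8 i).trans (mul_le_mul_of_nonneg_right hKK (by positivity))⟩, ?_, ?_⟩
  · refine (hzc k ω hEω).trans ?_
    have : 0 ≤ (1 + ∑ a : Mon M K0, |∏ i, q k i ω ^ (a.1 i : ℕ)|) * S.dl w k := by
      have h1 : 0 ≤ ∑ a : Mon M K0, |∏ i, q k i ω ^ (a.1 i : ℕ)| := Finset.sum_nonneg fun _ _ => abs_nonneg _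
      have h2 := S.dl_pos w k
      positivity
    exact le_mul_of_one_le_left this (by linarith)
  · intro i
    have h1 : |cc k ω i| ≤ 2 ^ (a * (S.F k).n) + S.dl w k := k3 ω i
    show |cc k ω i| ≤ (K k + 2) * 2 ^ (a * (S.F k).n)
    nlinarith

end

end Pool.Agent.Helper88.NSK
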