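import Pool.Agent.Helper88.NSK.Hfp

/-! The converse: `H(c, σ)` gives a double Markov label with one label-measurable polynomial. -/

set_option autoImplicit false

namespace Pool.Agent.Helper88.NSK

open Finset Filter Topology Matrix Pool.Agent.Helper69.RK Pool.Agent.Helper31.EC Pool.Agent.Helper31.EC.Sp
open Pool.Agent.Helper40.EL Pool.Agent.Helper52.KP Pool.Agent.Helper89.LX Pool.Agent.Helper3.LF
open Pool.Agent.Helper42.NS

noncomputable section

variable {S : Sp} {m D : ℕ} {s : Sys S m}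

theorem pol_smul {N : ℕ} (y : ℝ) (v : Mon N D → ℝ) : pol (fun a => y * v a) = MvPolynomial.C y * pol v := by
  unfold pol
  rw [Finset.mul_sum]
  apply Finset.sum_congr rfl
  intro a _
  rw [map_mul, mul_assoc]

theorem ph_smul {N : ℕ} (y : ℝ) (q : MvPolynomial (Fin N) ℝ) (r : ℝ) (p : Fin N → ℝ) :
    ph D (MvPolynomial.C y * q) r p = y ^ 2 * ph D q r p := by
  unfold ph
  rw [Finset.mul_sum]
  apply Finset.sum_congr rfl
  intro j _
  rw [map_mul, MvPolynomial.eval_C, mul_pow]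

theorem ga_smul {N : ℕ} (y : ℝ) (q : MvPolynomial (Fin N) ℝ) (r : ℝ) (p : Fin N → ℝ) :
    ga D (MvPolynomial.C y * q) r p = y ^ 2 * ga D q r p := by
  unfold ga
  rw [Finset.mul_sum]
  apply Finset.sum_congr rfl
  intro j _
  rw [MvPolynomial.pderiv_C_mul, ph_smul]

/-- one label-measurable polynomial, small on the cell of the point with a large gradient there -/
def PolyH (s : Sys S m) (D : ℕ) (c σ : ℝ) : Prop :=
  ∃ l : Lab S, l.DM (cA s c) (cB s) ∧ ∃ v : ∀ k, (l k).T.Ω → Mon (m + 1) D → ℝ,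
    (∀ k ω ω', (l k).T.μ ω ≠ 0 → (l k).T.μ ω' ≠ 0 → (l k).V ω ω' → (l k).T.Z ω ω' → v k ω = v k ω') ∧
    ∃ K : ℕ → ℝ, S.Sub K ∧ Sp.Typ (S := l.sp) (fun k (ω : (l k).T.Ω) =>
      2 ^ (2 * σ * (S.F k).n) * ph D (pol (v k ω)) (S.dl 1 k) (ptf s k ((l k).p.π ω)) ≤ K k ∧
      1 ≤ K k * ga D (pol (v k ω)) (S.dl 1 k) (ptf s k ((l k).p.π ω)))

/-- `H(c, σ)` GIVES ONE POLYNOMIAL -/
theorem PolyH_of_Hf {c σ : ℝ} (h : Hf s D c σ) : PolyH s D c σ := by
  obtain ⟨x, hx, hσ⟩ := h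
  have hPd : ∀ᶠ k in UF, ∀ ω, (x k).l.T.μ ω ≠ 0 → Pool.Agent.Helper95.LF.PdM ((x k).g ω) := by
    filter_upwards [hx 1 one_pos] with k hk ω hω using (hk.2.2.1 ω hω).1.pdM
  obtain ⟨K1, hK1, hT1⟩ := ad_sub hx
  obtain ⟨K3, hK3, hK31, hT3⟩ := typ_sub_ge (S := (lb x).sp)
    (fun k (ω : (x k).l.T.Ω) => sga s D k ((x k).l.p.π ω) ((x k).g ω)) (2 * σ) (fun e he => by
      have h2 := hσ (e / 2) (by linarith)
      show Tendsto (fun k => (x k).l.T.pb (fun ω => ¬ 2 ^ ((2 * σ - e) * ((lb x).sp.F k).n) ≤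
        sga s D k ((x k).l.p.π ω) ((x k).g ω))) UF (𝓝 0)
      refine h2.congr fun k => ?_
      congr 1
      funext ω
      rw [sp_n]
      congr 2
      ring_nf)
  have hK3' : S.Sub K3 := (sp_Sub (lb x)).mp hK3
  have hdm : (lb x).DM (cA s c) (cB s) := hx.dm
  have hdm2 := DM_free hdm (fun k ω => rowi s x k ω) (fun _ _ => 0) 0 le_rfl (Eventually.of_forall fun k ω _ => by
    simp)
  refine ⟨_, hdm2, fun k ω a => S.dl σ k * rowv s x k ω a, ?_, fun k => K1 k + Fintype.card (Mon (m + 1) D) * K3 k,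
    hK1.add ((S.Sub_const (Nat.cast_nonneg _)).mul hK3'), ?_⟩
  · intro k ω ω' a a' hV hZ
    obtain ⟨b1, b2⟩ := hV
    have e1 : (x k).g ω = (x k).g ω' := ((x k).meas ω ω' a a' b1 hZ).1
    have e2 : rowi s x k ω = rowi s x k ω' := (Prod.mk.inj b2).1
    have e3 : rowv s x k ω = rowv s x k ω' := by
      unfold rowv
      rw [e1, e2]
    show (fun a => S.dl σ k * rowv s x k ω a) = fun a => S.dl σ k * rowv s x k ω' a
    rw [e3]
  · refine typ_mono (S := (lb x).sp) (typ_and hT1 hT3) ?_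
    filter_upwards [hPd, hK1.1, hK3'.1] with k b2 b4 b5 ω hω g1
    obtain ⟨g1, g2⟩ := g1
    rw [sp_n] at g2
    have hn := (S.F k).pos
    have hP := b2 ω hω
    have e2 : (2 : ℝ) ^ (2 * σ * (S.F k).n) * S.dl σ k ^ 2 = 1 := by
      unfold Sp.dl
      rw [← Real.rpow_natCast (2 ^ _) 2, ← Real.rpow_mul (by norm_num), ← Real.rpow_add (by norm_num)]
      have : 2 * σ * (S.F k).n + -(σ * (S.F k).n) * ((2 : ℕ) : ℝ) = 0 := by push_cast; ring
      rw [this, Real.rpow_zero]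
    have h1 : ph D (pol (rowv s x k ω)) (S.dl 1 k) (ptf s k ((x k).l.p.π ω)) ≤ K1 k :=
      (rws_ph_le hP _ _ _).trans g1
    have h2 : sga s D k ((x k).l.p.π ω) ((x k).g ω) ≤ Fintype.card (Mon (m + 1) D) *
        ga D (pol (rowv s x k ω)) (S.dl 1 k) (ptf s k ((x k).l.p.π ω)) := mrow_spec hP _ _
    have hga := ga_nonneg (D := D) (pol (rowv s x k ω)) (S.dl 1 k) (ptf s k ((x k).l.p.π ω))
    have hcd : (0 : ℝ) ≤ Fintype.card (Mon (m + 1) D) := Nat.cast_nonneg _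
    show 2 ^ (2 * σ * (S.F k).n) * ph D (pol (fun a => S.dl σ k * rowv s x k ω a)) (S.dl 1 k)
        (ptf s k ((x k).l.p.π ω)) ≤ K1 k + Fintype.card (Mon (m + 1) D) * K3 k ∧
      1 ≤ (K1 k + Fintype.card (Mon (m + 1) D) * K3 k) * ga D (pol (fun a => S.dl σ k * rowv s x k ω a)) (S.dl 1 k)
        (ptf s k ((x k).l.p.π ω))
    rw [pol_smul, ph_smul, ga_smul]
    constructor
    · calc (2 : ℝ) ^ (2 * σ * (S.F k).n) * (S.dl σ k ^ 2 *
            ph D (pol (rowv s x k ω)) (S.dl 1 k) (ptf s k ((x k).l.p.π ω)))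
          = (2 ^ (2 * σ * (S.F k).n) * S.dl σ k ^ 2) *
            ph D (pol (rowv s x k ω)) (S.dl 1 k) (ptf s k ((x k).l.p.π ω)) := by ring
        _ ≤ K1 k := by rw [e2, one_mul]; exact h1
        _ ≤ _ := by
          have := mul_nonneg hcd b5
          linarith
    · have h3 : (2 : ℝ) ^ (2 * σ * (S.F k).n) ≤ K3 k * (Fintype.card (Mon (m + 1) D) *
          ga D (pol (rowv s x k ω)) (S.dl 1 k) (ptf s k ((x k).l.p.π ω))) :=
        g2.trans (mul_le_mul_of_nonneg_left h2 b5)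
      have h4 := mul_le_mul_of_nonneg_right h3 (sq_nonneg (S.dl σ k))
      rw [e2] at h4
      have h5 : 0 ≤ K1 k * (S.dl σ k ^ 2 * ga D (pol (rowv s x k ω)) (S.dl 1 k) (ptf s k ((x k).l.p.π ω))) :=
        mul_nonneg b4 (mul_nonneg (sq_nonneg _) hga)
      calc (1 : ℝ) ≤ K3 k * (Fintype.card (Mon (m + 1) D) *
            ga D (pol (rowv s x k ω)) (S.dl 1 k) (ptf s k ((x k).l.p.π ω))) * S.dl σ k ^ 2 := h4
        _ ≤ K1 k * (S.dl σ k ^ 2 * ga D (pol (rowv s x k ω)) (S.dl 1 k) (ptf s k ((x k).l.p.π ω))) +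
            K3 k * (Fintype.card (Mon (m + 1) D) *
            ga D (pol (rowv s x k ω)) (S.dl 1 k) (ptf s k ((x k).l.p.π ω))) * S.dl σ k ^ 2 := by linarith
        _ = _ := by ring

/-- `H(c, σ)` in terms of one polynomial -/
theorem Hf_iff_poly {c σ : ℝ} : Hf s D c σ ↔ PolyH s D c σ := by
  constructor
  · exact PolyH_of_Hf
  · rintro ⟨l, hl, v, hv, K, hK, hT⟩
    exact Hf_of_poly l hl v hv K hK hT

end

end Pool.Agent.Helper88.NSK
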