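import Pool.Agent.Helper88.NSK.KlR
import Pool.Agent.Helper98.FR.Ex

/-! THE KILL OF CASE B at the space over the label of the base window: from the box data of the windows and a literal
sheet in the box to `H(c, σ)`. -/

set_option autoImplicit false

namespace Pool.Agent.Helper88.NSK

open Finset Filter Topology MvPolynomial Pool.Agent.Helper69.RK Pool.Agent.Helper31.EC Pool.Agent.Helper31.EC.Sp
open Pool.Agent.Helper40.EL Pool.Agent.Helper52.KP Pool.Agent.Helper89.LX Pool.Agent.Helper3.LF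
open Pool.Agent.Helper42.NS Pool.Agent.Helper51.KL

noncomputable section

/-! ### powers -/

theorem two_le {a b : ℝ} (h : a ≤ b) : (2 : ℝ) ^ a ≤ 2 ^ b := Real.rpow_le_rpow_of_exponent_le (by norm_num) h

theorem two_add (a b : ℝ) : (2 : ℝ) ^ (a + b) = 2 ^ a * 2 ^ b := Real.rpow_add (by norm_num) a b

theorem two_pow_nat (a : ℝ) (n : ℕ) : ((2 : ℝ) ^ a) ^ n = 2 ^ (a * n) := by
  rw [← Real.rpow_natCast, ← Real.rpow_mul (by norm_num)]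

theorem one_le_two {a : ℝ} (h : 0 ≤ a) : (1 : ℝ) ≤ 2 ^ a := Real.one_le_rpow (by norm_num) h

theorem two_le_one {a : ℝ} (h : a ≤ 0) : (2 : ℝ) ^ a ≤ 1 := by
  rw [← Real.rpow_zero 2]
  exact two_le h

/-! ### the kill with a slack in the orientation -/

variable {S : Sp} {D : ℕ} {s : Sys S 3}

theorem kill_slack (hR : RobH s) {c : ℝ} {l : Lab S} (hl : IsKap s c l) (hD : 1 ≤ D) (G : ∀ k, (l.sp.F k).Ω → Prop)
    (hG : 0 < ul (l.sp.pr G)) {α : Fin 3 → ℝ} {β σ κ κ0 : ℝ} (hα : ∀ i, α i ≤ 1 + κ0) (hαβ : ∀ i, α i ≤ β + κ0)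
    (hβσ : β ≤ σ - D * κ0) (hσ : σ - D * κ0 ≤ 1) (hκ : 0 ≤ κ) (hκ0 : 0 ≤ κ0) (x : ∀ k, (l k).T.Ω → Fin 9 → ℝ)
    (hx : ∀ᶠ k in UF, ∀ ω ω', (l k).T.μ ω ≠ 0 → (l k).T.μ ω' ≠ 0 → (l k).V ω ω' → (l k).T.Z ω ω' → x k ω = x k ω')
    (cX cY : ∀ k, (l k).T.Ω → Mon 3 D → ℝ)
    (hcX : Nul S (fun k => h (fc (Setoid.ker (cX k)) : FL (l k).T) ((l k).v ⊔ (l k).p.map (cA s c k))))
    (hcY : Nul S (fun k => h (fc (Setoid.ker (cY k)) : FL (l k).T) ((l k).v ⊔ (l k).p.map (cB s k))))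
    (hest : ∀ᶠ k in UF, ∀ ω : (l k).T.Ω, (l k).T.μ ω ≠ 0 → G k ω →
      (∀ j, j ≠ 0 → j ≠ 1 → j ≠ 2 → j ≠ 5 → |x k ω j| ≤ 2 ^ (κ * (S.F k).n)) ∧
      (∀ i, |bgv (fun i => 2 ^ (α i * (S.F k).n)) (x k ω) (ptf s k ((l k).p.π ω)) i| ≤ 2 ^ (κ * (S.F k).n)) ∧
      (∀ a, |cY k ω a| ≤ 2 ^ (κ * (S.F k).n)) ∧
      (∀ a, |cX k ω a - cY k ω a| ≤ 2 ^ (-((σ - β) * (S.F k).n))) ∧
      |bqv (fun i => 2 ^ (α i * (S.F k).n)) (x k ω) (2 ^ (-(β * (S.F k).n))) (cY k ω) (ptf s k ((l k).p.π ω))| ≤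
        2 ^ (-(σ * (S.F k).n))) : Hf s D c (σ - D * κ0 - (D + 2) * (κ + D * κ0)) := by
  have hD0 : (0 : ℝ) ≤ D := Nat.cast_nonneg D
  have hDκ : 0 ≤ D * κ0 := mul_nonneg hD0 hκ0
  have ker_le : ∀ (k : ℕ) (f : (l k).T.Ω → Mon 3 D → ℝ),
      (fc (Setoid.ker fun ω => fun a => f ω a * (2 ^ (κ0 * (S.F k).n)) ^ dgm a) : FL (l k).T) ≤
        fc (Setoid.ker f) := by
    intro k f
    apply fc_mono
    intro ω ω' h1
    have h2 : f ω = f ω' := h1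
    show (fun a => f ω a * _) = fun a => f ω' a * _
    rw [h2]
  refine kill hR hl hD G hG (α := fun i => α i - κ0) (β := β) (σ := σ - D * κ0) (κ := κ + D * κ0)
    (fun i => by have := hα i; linarith) (fun i => by have := hαβ i; linarith) hβσ hσ (by linarith) x hx
    (fun k ω a => cX k ω a * (2 ^ (κ0 * (S.F k).n)) ^ dgm a)
    (fun k ω a => cY k ω a * (2 ^ (κ0 * (S.F k).n)) ^ dgm a)
    (hcX.of_le (Eventually.of_forall fun k => h_nonneg _ _)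
      (Eventually.of_forall fun k => h_mono (ker_le k (cX k))))
    (hcY.of_le (Eventually.of_forall fun k => h_nonneg _ _)
      (Eventually.of_forall fun k => h_mono (ker_le k (cY k)))) ?_
  filter_upwards [hest] with k hk ω hω hGω
  obtain ⟨g1, g2, g3, g4, g5⟩ := hk ω hω hGω
  obtain ⟨n, hn⟩ : ∃ n, n = (S.F k).n := ⟨_, rfl⟩
  have hn0 : 0 < n := by rw [hn]; exact (S.F k).pos
  rw [← hn] at g1 g2 g3 g4 g5 ⊢
  have hA : (fun i => (2 : ℝ) ^ ((α i - κ0) * n)) = fun i => 2 ^ (α i * n) * 2 ^ (-(κ0 * n)) := by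
    funext i
    rw [← two_add]
    congr 1
    ring
  have hcd : (2 : ℝ) ^ (-(κ0 * n)) * 2 ^ (κ0 * n) = 1 := by
    rw [← two_add, neg_add_cancel, Real.rpow_zero]
  have hpw : ∀ a : Mon 3 D, 0 ≤ ((2 : ℝ) ^ (κ0 * n)) ^ dgm a ∧ ((2 : ℝ) ^ (κ0 * n)) ^ dgm a ≤ 2 ^ (D * κ0 * n) := by
    intro a
    refine ⟨by positivity, ?_⟩
    rw [two_pow_nat]
    apply two_le
    have h1 : (dgm a : ℝ) ≤ D := by exact_mod_cast dgm_le a
    have h2 : κ0 * n * dgm a ≤ κ0 * n * D := mul_le_mul_of_nonneg_left h1 (by positivity)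
    linarith
  refine ⟨fun j a b c d => (g1 j a b c d).trans (two_le ?_), fun i => ?_, fun a => ?_, fun a => ?_, ?_⟩
  · have : 0 ≤ D * κ0 * n := by positivity
    linarith
  · rw [hA, bgv_scale, abs_mul, abs_of_pos (by positivity)]
    calc (2 : ℝ) ^ (-(κ0 * n)) * |bgv (fun i => 2 ^ (α i * n)) (x k ω) (ptf s k ((l k).p.π ω)) i| ≤
        1 * 2 ^ (κ * n) := mul_le_mul (two_le_one (by nlinarith)) (g2 i) (abs_nonneg _) zero_le_one
      _ = 2 ^ (κ * n) := one_mul _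
      _ ≤ _ := two_le (by nlinarith)
  · rw [abs_mul, abs_of_nonneg (hpw a).1]
    calc |cY k ω a| * (2 ^ (κ0 * n)) ^ dgm a ≤ 2 ^ (κ * n) * 2 ^ (D * κ0 * n) :=
          mul_le_mul (g3 a) (hpw a).2 (hpw a).1 (by positivity)
      _ = _ := by rw [← two_add]; congr 1; ring
  · rw [← sub_mul, abs_mul, abs_of_nonneg (hpw a).1]
    calc |cX k ω a - cY k ω a| * (2 ^ (κ0 * n)) ^ dgm a ≤ 2 ^ (-((σ - β) * n)) * 2 ^ (D * κ0 * n) :=
          mul_le_mul (g4 a) (hpw a).2 (hpw a).1 (by positivity)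
      _ = _ := by rw [← two_add]; congr 1; ring
  · rw [hA, bqv_scale _ _ _ _ _ hcd]
    exact g5.trans (two_le (by nlinarith))

/-! ### literal extension of functions known on an event -/

/-- a function which is literally known on an event agrees there with a literally known function -/
theorem exists_lit {T : Sp} {β : Type} (W : ∀ k, Setoid (T.F k).Ω) (G : ∀ k, (T.F k).Ω → Prop)
    (f : ∀ k, (T.F k).Ω → β) (d : β) (hf : ∀ᶠ k in UF, ∀ ω ω', (T.F k).μ ω ≠ 0 → (T.F k).μ ω' ≠ 0 → G k ω → G k ω' →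
      W k ω ω' → (T.F k).Z ω ω' → f k ω = f k ω') :
    ∃ g : ∀ k, (T.F k).Ω → β, (∀ k ω ω', W k ω ω' → (T.F k).Z ω ω' → g k ω = g k ω') ∧
      ∀ᶠ k in UF, ∀ ω, (T.F k).μ ω ≠ 0 → G k ω → g k ω = f k ω := by
  classical
  obtain ⟨F, hF⟩ : ∃ F : ∀ k, Quotient (W k ⊓ (T.F k).Z) → β, ∀ k c, F k c =
      if h : ∃ ω', (T.F k).μ ω' ≠ 0 ∧ G k ω' ∧ Quotient.mk (W k ⊓ (T.F k).Z) ω' = c then f k h.choose else d :=
    ⟨fun k c => if h : ∃ ω', (T.F k).μ ω' ≠ 0 ∧ G k ω' ∧ Quotient.mk (W k ⊓ (T.F k).Z) ω' = c then f k h.choose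
      else d, fun _ _ => rfl⟩
  refine ⟨fun k ω => F k (Quotient.mk (W k ⊓ (T.F k).Z) ω), ?_, ?_⟩
  · intro k ω ω' h1 h2
    exact congrArg (F k) (Quotient.sound ⟨h1, h2⟩)
  · filter_upwards [hf] with k hk ω hω hG
    have h1 : ∃ ω', (T.F k).μ ω' ≠ 0 ∧ G k ω' ∧
        Quotient.mk (W k ⊓ (T.F k).Z) ω' = Quotient.mk (W k ⊓ (T.F k).Z) ω := ⟨ω, hω, hG, rfl⟩
    rw [hF, dif_pos h1]
    obtain ⟨a, b, c⟩ := h1.choose_spec
    have c' : (W k ⊓ (T.F k).Z) h1.choose ω := Quotient.exact c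
    exact hk _ _ a hω b hG c'.1 c'.2

/-! ### estimates at a point -/

/-- scales of the box coordinates -/
def bsc (w1 s0 m : ℝ) : Fin 3 → ℝ := ![2 ^ (s0 * m), 2 ^ (s0 * m), 2 ^ (w1 * s0 * m)]

theorem bsc_pos (w1 s0 m : ℝ) (i : Fin 3) : 0 < bsc w1 s0 m i := by
  fin_cases i
  · show (0 : ℝ) < 2 ^ (s0 * m)
    positivity
  · show (0 : ℝ) < 2 ^ (s0 * m)
    positivity
  · show (0 : ℝ) < 2 ^ (w1 * s0 * m)
    positivity

/-- constant of the perturbation -/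
def C1 (D : ℕ) : ℝ := 4 + 3 * (Fintype.card (Mon 3 D) * (D * 4 ^ D))

theorem Cpt_le {D : ℕ} {M : ℝ} (hM : 1 ≤ M) : Cpt D M ≤ C1 D * M ^ (D + 2) := by
  have hM0 : 0 ≤ M := by linarith
  have c3 : M ≤ M ^ (D + 2) := by
    calc M = M ^ 1 := (pow_one M).symm
      _ ≤ M ^ (D + 2) := pow_le_pow_right₀ hM (by omega)
  unfold Cpt C1
  have c4 : (Fintype.card (Mon 3 D) : ℝ) * M * (D * (4 * M) ^ D * (3 * M)) =
      3 * (Fintype.card (Mon 3 D) * (D * 4 ^ D)) * M ^ (D + 2) := by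
    rw [mul_pow, pow_add]
    ring
  rw [c4, add_mul]
  linarith

theorem C1_pos (D : ℕ) : 0 < C1 D := by unfold C1; positivity

/-- box coordinates and distance to the sheet at the true point -/
theorem est_pt {D : ℕ} {m w1 w s0 u κ : ℝ} (hm : 0 < m) (hκ : 0 < κ) (hs0 : 0 ≤ s0) (hw1 : 1 ≤ w1) (hw : 1 ≤ w)
    (hw1s : w1 * s0 + κ ≤ 1) (n7 : u + (D + 3) * (2 * κ) ≤ 1) (n8 : u + (w1 - w) * s0 + (D + 3) * (2 * κ) ≤ 1)
    (f : Fin 9 → ℝ) (T P : Fin 4 → ℝ) (cY : Mon 3 D → ℝ) (hf : ∀ j, |f j| ≤ 2 ^ (κ / 4 * m))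
    (hP : ∀ i, |P i - T i| ≤ 2 ^ (-((1 - κ / 4) * m))) (b0 : |T 0 - f 0| ≤ 2 ^ (-((s0 - κ - κ / 4) * m)))
    (b1 : |T 1 - f 1| ≤ 2 ^ (-((s0 - κ - κ / 4) * m)))
    (b2 : |T 2 - (f 2 + f 3 * T 0 + f 4 * T 1)| ≤ 2 ^ (-((w1 * s0 - κ - κ / 4) * m)))
    (hc : ∀ a, |cY a| ≤ 2 ^ (κ * m)) (hz : |bqv (bsc w1 s0 m) f (2 ^ (-(w * s0 * m))) cY P| ≤ 2 ^ (-(u * m)))
    (hC : 2 * C1 D ≤ 2 ^ (κ * m)) (hC2 : (2 : ℝ) ≤ 2 ^ (κ * m)) :
    (∀ i, |bgv (bsc w1 s0 m) f T i| ≤ 2 ^ (2 * κ * m)) ∧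
    |bqv (bsc w1 s0 m) f (2 ^ (-(w * s0 * m))) cY T| ≤ 2 ^ (-((u - κ) * m)) := by
  have hκm : 0 < κ * m := mul_pos hκ hm
  have hs0m : 0 ≤ s0 * m := mul_nonneg hs0 hm.le
  have hb : ∀ i, |bgv (bsc w1 s0 m) f T i| ≤ 2 ^ (2 * κ * m) := by
    intro i
    fin_cases i
    · show |2 ^ (s0 * m) * (T 0 - f 0)| ≤ _
      rw [abs_mul, abs_of_pos (by positivity)]
      refine (mul_le_mul_of_nonneg_left b0 (by positivity)).trans ?_
      rw [← two_add]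
      exact two_le (by nlinarith)
    · show |2 ^ (s0 * m) * (T 1 - f 1)| ≤ _
      rw [abs_mul, abs_of_pos (by positivity)]
      refine (mul_le_mul_of_nonneg_left b1 (by positivity)).trans ?_
      rw [← two_add]
      exact two_le (by nlinarith)
    · show |2 ^ (w1 * s0 * m) * (T 2 - (f 2 + f 3 * T 0 + f 4 * T 1))| ≤ _
      rw [abs_mul, abs_of_pos (by positivity)]
      refine (mul_le_mul_of_nonneg_left b2 (by positivity)).trans ?_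
      rw [← two_add]
      exact two_le (by nlinarith)
  refine ⟨hb, ?_⟩
  obtain ⟨ϑ, hϑ⟩ : ∃ ϑ, ϑ = max 0 ((w1 - w) * s0) := ⟨_, rfl⟩
  have hϑ0 : 0 ≤ ϑ := by rw [hϑ]; exact le_max_left _ _
  have hϑ1 : (w1 - w) * s0 ≤ ϑ := by rw [hϑ]; exact le_max_right _ _
  have hϑu : ϑ ≤ 1 - u - (D + 3) * (2 * κ) := by rw [hϑ]; exact max_le (by linarith) (by linarith)
  have hM : (1 : ℝ) ≤ 2 ^ (2 * κ * m) := one_le_two (by linarith)
  have hws : s0 ≤ w1 * s0 := by nlinarith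
  have h1 := bqv_near' (bsc w1 s0 m) (fun i => (bsc_pos _ _ _ i).le) f (θ := 2 ^ (-(w * s0 * m)))
    (Θ := 2 ^ (ϑ * m)) (by positivity) (one_le_two (by positivity)) cY T P (M := 2 ^ (2 * κ * m))
    (r := 2 ^ (-((1 - κ / 4) * m))) hM (by positivity) hP (by
      intro i
      fin_cases i
      · show (2 : ℝ) ^ (s0 * m) * 2 ^ (-((1 - κ / 4) * m)) ≤ 1
        rw [← two_add]
        exact two_le_one (by nlinarith)
      · show (2 : ℝ) ^ (s0 * m) * 2 ^ (-((1 - κ / 4) * m)) ≤ 1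
        rw [← two_add]
        exact two_le_one (by nlinarith)
      · show (2 : ℝ) ^ (w1 * s0 * m) * 2 ^ (-((1 - κ / 4) * m)) ≤ 1
        rw [← two_add]
        exact two_le_one (by nlinarith)) (by
      intro i
      fin_cases i
      · show (2 : ℝ) ^ (-(w * s0 * m)) * 2 ^ (s0 * m) ≤ _
        rw [← two_add]
        exact two_le (by nlinarith)
      · show (2 : ℝ) ^ (-(w * s0 * m)) * 2 ^ (s0 * m) ≤ _
        rw [← two_add]
        exact two_le (by nlinarith)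
      · show (2 : ℝ) ^ (-(w * s0 * m)) * 2 ^ (w1 * s0 * m) ≤ _
        rw [← two_add]
        exact two_le (by nlinarith)) (fun j _ _ _ _ => (hf j).trans (two_le (by nlinarith))) hb
    (fun a => (hc a).trans (two_le (by nlinarith)))
  have h2 : 2 * 2 ^ (ϑ * m) * (Cpt D (2 ^ (2 * κ * m)) * 2 ^ (-((1 - κ / 4) * m))) ≤ 2 ^ (-(u * m)) := by
    have h3 := Cpt_le (D := D) hM
    have h4 : 2 * 2 ^ (ϑ * m) * (Cpt D (2 ^ (2 * κ * m)) * 2 ^ (-((1 - κ / 4) * m))) ≤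
        2 * 2 ^ (ϑ * m) * (C1 D * (2 ^ (2 * κ * m)) ^ (D + 2) * 2 ^ (-((1 - κ / 4) * m))) :=
      mul_le_mul_of_nonneg_left (mul_le_mul_of_nonneg_right h3 (by positivity)) (by positivity)
    refine h4.trans ?_
    have h5 : 2 * 2 ^ (ϑ * m) * (C1 D * (2 ^ (2 * κ * m)) ^ (D + 2) * 2 ^ (-((1 - κ / 4) * m))) =
        2 * C1 D * 2 ^ ((ϑ + 2 * κ * (D + 2) - (1 - κ / 4)) * m) := by
      have h6 : (2 : ℝ) ^ ((ϑ + 2 * κ * (D + 2) - (1 - κ / 4)) * m) =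
          2 ^ (ϑ * m) * (2 ^ (2 * κ * m)) ^ (D + 2) * 2 ^ (-((1 - κ / 4) * m)) := by
        rw [two_pow_nat, ← two_add, ← two_add]
        congr 1
        push_cast
        ring
      rw [h6]
      ring
    rw [h5]
    calc 2 * C1 D * 2 ^ ((ϑ + 2 * κ * (D + 2) - (1 - κ / 4)) * m) ≤
        2 ^ (κ * m) * 2 ^ ((ϑ + 2 * κ * (D + 2) - (1 - κ / 4)) * m) :=
          mul_le_mul_of_nonneg_right hC (by positivity)
      _ = 2 ^ ((κ + ϑ + 2 * κ * (D + 2) - (1 - κ / 4)) * m) := by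
          rw [← two_add]
          congr 1
          ring
      _ ≤ _ := two_le (by
          have h7 : (κ + ϑ + 2 * κ * (D + 2) - (1 - κ / 4)) ≤ -u := by nlinarith
          have h8 := mul_le_mul_of_nonneg_right h7 hm.le
          linarith)
  have h3 : |bqv (bsc w1 s0 m) f (2 ^ (-(w * s0 * m))) cY T| ≤ 2 * 2 ^ (-(u * m)) := by
    have h4 : bqv (bsc w1 s0 m) f (2 ^ (-(w * s0 * m))) cY T = bqv (bsc w1 s0 m) f (2 ^ (-(w * s0 * m))) cY P -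
        (bqv (bsc w1 s0 m) f (2 ^ (-(w * s0 * m))) cY P - bqv (bsc w1 s0 m) f (2 ^ (-(w * s0 * m))) cY T) := by ring
    rw [h4]
    refine (abs_sub _ _).trans ?_
    have h5 := h1.trans h2
    linarith
  refine h3.trans ?_
  calc 2 * (2 : ℝ) ^ (-(u * m)) ≤ 2 ^ (κ * m) * 2 ^ (-(u * m)) := mul_le_mul_of_nonneg_right hC2 (by positivity)
    _ = _ := by rw [← two_add]; congr 1; ring

end

end Pool.Agent.Helper88.NSK
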