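import Pool.Agent.Helper88.NSK.KlB
import Pool.Agent.Helper60.CS.Sml

/-! THE KILL OF CASE B at the space over the label of the base window. -/

set_option autoImplicit false

namespace Pool.Agent.Helper88.NSK

open Finset Filter Topology MvPolynomial Pool.Agent.Helper69.RK Pool.Agent.Helper31.EC Pool.Agent.Helper31.EC.Sp
open Pool.Agent.Helper40.EL Pool.Agent.Helper52.KP Pool.Agent.Helper89.LX Pool.Agent.Helper3.LF
open Pool.Agent.Helper42.NS Pool.Agent.Helper51.KL Pool.Agent.Helper98.FR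

noncomputable section

theorem exp_aux0 {x y n : ℝ} (hn : 0 ≤ n) (h : x ≤ y) : -((y - x) * n) ≤ 0 := by
  have := mul_nonneg (sub_nonneg.mpr h) hn
  linarith

theorem exp_aux {x y n κ e : ℝ} (hn : 0 ≤ n) (h : x ≤ y + κ * e) : -((y - x) * n) ≤ κ * (e * n) := by
  have := mul_nonneg (sub_nonneg.mpr h) hn
  linarith

/-- agreement with a positive loss of level -/
theorem ag_le {T : Sp} {f g : TR T} {r δ : ℝ} (h : TR.Ag r f g) (hδ : 0 < δ) : Typ (S := T) (fun k ω =>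
    |f.1 k ω - g.1 k ω| ≤ 2 ^ (-((r - δ) * (T.F k).n))) := by
  obtain ⟨E, K, hE, hK, hh⟩ := h
  refine hE.mono ?_
  filter_upwards [hh, hK.eventually_le hδ, hK.1] with k h1 h2 h3 ω hω hEω
  have h4 : |f.1 k ω - g.1 k ω| ≤ K k * T.dl r k := h1 ω hω hEω
  refine h4.trans ?_
  have h5 : K k ≤ 2 ^ (δ * (T.F k).n) := by linarith
  refine (mul_le_mul_of_nonneg_right h5 (T.dl_pos r k).le).trans (le_of_eq ?_)
  show (2 : ℝ) ^ (δ * (T.F k).n) * 2 ^ (-(r * (T.F k).n)) = _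
  rw [← two_add]
  congr 1
  ring

theorem mem_le {T : Sp} {f : TR T} {r δ : ℝ} (hr : r ≤ 1) (h : QS.mk f ∈ QS.Id T r) (hδ : 0 < δ) :
    Typ (S := T) (fun k ω => |f.1 k ω| ≤ 2 ^ (-((r - δ) * (T.F k).n))) := by
  refine (ag_le ((QS.mk_mem_Id hr).mp h) hδ).mono (Eventually.of_forall fun k ω _ h1 => ?_)
  have h2 : |f.1 k ω - 0| ≤ 2 ^ (-((r - δ) * (T.F k).n)) := h1
  rwa [sub_zero] at h2

theorem tr_le {T : Sp} (f : TR T) {δ : ℝ} (hδ : 0 < δ) : ∀ᶠ k in UF, ∀ ω, (T.F k).μ ω ≠ 0 →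
    |f.1 k ω| ≤ 2 ^ (δ * (T.F k).n) := by
  obtain ⟨K, hK, hh⟩ := f.2
  filter_upwards [hh, hK.eventually_le hδ] with k h1 h2 ω hω
  exact (h1 ω hω).trans (by linarith)

variable {S : Sp} {s : Sys S 3} {q lam eta : ℕ → ℝ} {L : ℕ → Lab S}

/-- THE KILL, real form: a literal sheet of level `u` in the box coordinates of a window (relative level `s0`) of the
space over the label of the window `i0` gives `H(q i2, ηn + (u - C κ) e)` -/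
theorem kill_box (hR : RobH s) (b : Bx s q lam eta L) {i0 i2 : ℕ} {e : ℝ} (he : 0 < e) (hi : q i0 ≤ q i2) {ηn : ℝ}
    (hη : ηn ≤ b.bd.eta i0) {D : ℕ} (hD : 1 ≤ D) {w1 w s0 u κ : ℝ} (hκ : 0 < κ) (hs0 : 0 ≤ s0) (hw1 : 1 ≤ w1)
    (hw : 1 ≤ w) (n1 : q i0 + s0 * e ≤ 1 + κ * e) (n2 : lam i0 + w1 * s0 * e ≤ 1 + κ * e) (n3 : ηn + u * e ≤ 1)
    (n4 : lam i0 + w1 * s0 * e ≤ ηn + w * s0 * e + κ * e) (n4' : lam i0 ≤ ηn + κ * e)
    (n6 : w * s0 + (1 + D) * κ ≤ u) (n7 : u + (D + 3) * (2 * κ) ≤ 1) (n8 : u + (w1 - w) * s0 + (D + 3) * (2 * κ) ≤ 1)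
    (n9 : w1 * s0 + κ ≤ 1)
    (P : Fin 4 → TR (b.bd.Sj i0 e he)) (hP0 : QS.mk (P 0) = QS.mk (b.bd.tT i0 e he))
    (hP1 : QS.mk (P 1) = QS.mk (b.bd.yT i0 e he)) (hP2 : QS.mk (P 2) = QS.mk (b.bd.RT i0 e he))
    (hP3 : QS.mk (P 3) = QS.mk (b.bd.zT i0 e he ηn hη)) (f : Fin 9 → TR (b.bd.Sj i0 e he))
    (bx0 : QS.mk (P 0) - QS.mk (f 0) ∈ QS.Id (b.bd.Sj i0 e he) (s0 - κ))
    (bx1 : QS.mk (P 1) - QS.mk (f 1) ∈ QS.Id (b.bd.Sj i0 e he) (s0 - κ))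
    (bx2 : QS.mk (P 2) - (QS.mk (f 2) + QS.mk (f 3) * QS.mk (P 0) + QS.mk (f 4) * QS.mk (P 1)) ∈
      QS.Id (b.bd.Sj i0 e he) (w1 * s0 - κ))
    (G0 : ∀ k, ((b.bd.Sj i0 e he).F k).Ω → Prop) (hG0 : Typ (S := b.bd.Sj i0 e he) G0)
    (hlit : ∀ᶠ k in UF, ∀ ω ω', (b.M.sp.F k).μ ω ≠ 0 → (b.M.sp.F k).μ ω' ≠ 0 → G0 k ω → G0 k ω' →
      (b.M k).V i2 ω ω' → (b.M.sp.F k).Z ω ω' → ∀ j, (f j).1 k ω = (f j).1 k ω')
    (cX cY : Mon 3 D → ∀ k, ((b.bd.Sj i0 e he).F k).Ω → ℝ)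
    (hcX : Nul S (fun k => h (fc (Setoid.ker fun ω => fun a => cX a k ω) : FL ((b.M.lab i2) k).T)
      (((b.M.lab i2) k).v ⊔ ((b.M.lab i2) k).p.map (cA s (q i2) k))))
    (hcY : Nul S (fun k => h (fc (Setoid.ker fun ω => fun a => cY a k ω) : FL ((b.M.lab i2) k).T)
      (((b.M.lab i2) k).v ⊔ ((b.M.lab i2) k).p.map (cB s k))))
    (E : ∀ k, ((b.bd.Sj i0 e he).F k).Ω → Prop) (hE : 0 < ul ((b.bd.Sj i0 e he).pr E))
    (hest : ∀ᶠ k in UF, ∀ ω, ((b.bd.Sj i0 e he).F k).μ ω ≠ 0 → E k ω →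
      (∀ a, |cY a k ω| ≤ 2 ^ (κ * ((b.bd.Sj i0 e he).F k).n)) ∧
      (∀ a, |cX a k ω - cY a k ω| ≤ 2 ^ (-((u - w * s0) * ((b.bd.Sj i0 e he).F k).n))) ∧
      |bqv (bsc w1 s0 ((b.bd.Sj i0 e he).F k).n) (fun j => (f j).1 k ω)
        (2 ^ (-(w * s0 * ((b.bd.Sj i0 e he).F k).n))) (fun a => cY a k ω) (fun i => (P i).1 k ω)| ≤
        2 ^ (-(u * ((b.bd.Sj i0 e he).F k).n))) :
    Hf s D (q i2) (ηn + (u - (1 + D + (D + 2) ^ 2) * κ) * e) := by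
  classical
  obtain ⟨W, hW⟩ : ∃ W, W = b.bd.Sj i0 e he := ⟨_, rfl⟩
  have hκ4 : 0 < κ / 4 := by linarith
  have q0 := b.q0 i0
  have hql := b.qlam i0
  -- the true box coordinates
  obtain ⟨Q, hQ⟩ : ∃ Q : Fin 4 → TR (b.bd.Sj i0 e he),
    Q = ![b.bd.tT i0 e he, b.bd.yT i0 e he, b.bd.RT i0 e he, b.bd.zT i0 e he ηn hη] := ⟨_, rfl⟩
  have hPQ : ∀ i, QS.mk (P i) = QS.mk (Q i) := by
    intro i
    rw [hQ]
    fin_cases i
    · exact hP0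
    · exact hP1
    · exact hP2
    · exact hP3
  have tP : ∀ i, Typ (S := b.bd.Sj i0 e he) (fun k ω => |(P i).1 k ω - (Q i).1 k ω| ≤
      2 ^ (-((1 - κ / 4) * ((b.bd.Sj i0 e he).F k).n))) := fun i => ag_le (QS.mk_eq.mp (hPQ i)) hκ4
  have m0 : QS.mk (Q 0 - f 0) ∈ QS.Id (b.bd.Sj i0 e he) (s0 - κ) := by
    rw [map_sub, ← hPQ]
    exact bx0
  have m1 : QS.mk (Q 1 - f 1) ∈ QS.Id (b.bd.Sj i0 e he) (s0 - κ) := by
    rw [map_sub, ← hPQ]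
    exact bx1
  have m2 : QS.mk (Q 2 - (f 2 + f 3 * Q 0 + f 4 * Q 1)) ∈ QS.Id (b.bd.Sj i0 e he) (w1 * s0 - κ) := by
    rw [map_sub, map_add, map_add, map_mul, map_mul, ← hPQ, ← hPQ, ← hPQ]
    exact bx2
  have hs1 : s0 ≤ w1 * s0 := le_mul_of_one_le_left hs0 hw1
  have t0 := mem_le (by linarith) m0 hκ4
  have t1 := mem_le (by linarith) m1 hκ4
  have t2 := mem_le (by linarith) m2 hκ4
  -- the relations with the real point
  have r0 : Typ (S := b.bd.Sj i0 e he) (fun k ω => (b.bd.t - b.bd.tc i0).1 k ω =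
      b.M.sp.dl (b.bd.q i0) k * (Q 0).1 k ω) := by
    rw [hQ]
    exact nf_typ (hr := b.bd.q1 i0) (hf := b.bd.T_mem i0) (Z := b.bd.V i0) (e := e) (he := he)
  have r1 : Typ (S := b.bd.Sj i0 e he) (fun k ω => (b.bd.y - b.bd.yc i0).1 k ω =
      b.M.sp.dl (b.bd.q i0) k * (Q 1).1 k ω) := by
    rw [hQ]
    exact nf_typ (hr := b.bd.q1 i0) (hf := b.bd.Y_mem i0) (Z := b.bd.V i0) (e := e) (he := he)
  have r2 : Typ (S := b.bd.Sj i0 e he) (fun k ω => (b.bd.Rr i0).1 k ω =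
      b.M.sp.dl (b.bd.lam i0) k * (Q 2).1 k ω) := by
    rw [hQ]
    exact nf_typ (hr := b.bd.lam1 i0) (hf := b.bd.Rr_mem i0) (Z := b.bd.V i0) (e := e) (he := he)
  have r3 : Typ (S := b.bd.Sj i0 e he) (fun k ω => (b.bd.Zr i0).1 k ω =
      b.M.sp.dl ηn k * (Q 3).1 k ω) := by
    rw [hQ]
    exact nf_typ (hr := hη.trans (b.bd.eta1 i0)) (hf := QS.Id_anti hη (b.bd.Zr_mem i0)) (Z := b.bd.V i0) (e := e)
      (he := he)
  -- literal extension of the frames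
  obtain ⟨fh, fh1, fh2⟩ := exists_lit (T := b.M.sp) (fun k => (b.M k).V i2) G0 (fun k ω => fun j => (f j).1 k ω) 0
    (hlit.mono fun k hk ω ω' a a' g g' v z => funext fun j => hk ω ω' a a' g g' v z j)
  -- the event
  obtain ⟨X, hX⟩ : ∃ X : ∀ k, ((b.bd.Sj i0 e he).F k).Ω → Prop, X = fun k ω =>
      ((((∀ i : Fin 4, |(P i).1 k ω - (Q i).1 k ω| ≤
        2 ^ (-((1 - κ / 4) * ((b.bd.Sj i0 e he).F k).n))) ∧
      |(Q 0 - f 0).1 k ω| ≤ 2 ^ (-((s0 - κ - κ / 4) * ((b.bd.Sj i0 e he).F k).n))) ∧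
      |(Q 1 - f 1).1 k ω| ≤ 2 ^ (-((s0 - κ - κ / 4) * ((b.bd.Sj i0 e he).F k).n))) ∧
      |(Q 2 - (f 2 + f 3 * Q 0 + f 4 * Q 1)).1 k ω| ≤
        2 ^ (-((w1 * s0 - κ - κ / 4) * ((b.bd.Sj i0 e he).F k).n))) ∧
      ((((b.bd.t - b.bd.tc i0).1 k ω = b.M.sp.dl (b.bd.q i0) k * (Q 0).1 k ω ∧
      (b.bd.y - b.bd.yc i0).1 k ω = b.M.sp.dl (b.bd.q i0) k * (Q 1).1 k ω) ∧
      (b.bd.Rr i0).1 k ω = b.M.sp.dl (b.bd.lam i0) k * (Q 2).1 k ω) ∧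
      (b.bd.Zr i0).1 k ω = b.M.sp.dl ηn k * (Q 3).1 k ω) := ⟨_, rfl⟩
  have hXT : Typ (S := b.bd.Sj i0 e he) X := by
    rw [hX]
    exact ((((Pool.Agent.Helper99.EC.typ_forall (V := b.bd.Sj i0 e he) tP).and t0).and t1).and t2).and (((r0.and r1).and r2).and r3)
  obtain ⟨G, hGd⟩ : ∃ G : ∀ k, ((b.bd.Sj i0 e he).F k).Ω → Prop, G = fun k ω => (E k ω ∧ G0 k ω) ∧ X k ω := ⟨_, rfl⟩
  have hG : 0 < ul ((b.bd.Sj i0 e he).pr G) := by
    refine hE.trans_le (Pool.Agent.Helper60.CS.ul_pr_le (hG0.and hXT) (Eventually.of_forall fun k ω _ h1 h2 => ?_))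
    rw [hGd]
    exact ⟨⟨h2, h1.1⟩, h1.2⟩
  have hD0 : (0 : ℝ) ≤ D := Nat.cast_nonneg D
  have hκe : 0 < κ * e := mul_pos hκ he
  have hs0e : s0 * e ≤ w * s0 * e := by
    have h1 : 0 ≤ s0 * e := by positivity
    have h2 := mul_le_mul_of_nonneg_right hw h1
    linarith
  have hq0 : q i0 ≤ lam i0 := hql
  have key := kill_slack hR (b.kap i2) hD G hG (α := ![q i0 + s0 * e, q i0 + s0 * e, lam i0 + w1 * s0 * e])
    (β := ηn + w * s0 * e) (σ := ηn + (u - κ) * e) (κ := 2 * κ * e) (κ0 := κ * e)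
    (by
      intro i
      fin_cases i
      · exact n1
      · exact n1
      · exact n2)
    (by
      intro i
      fin_cases i
      · show q i0 + s0 * e ≤ _
        linarith
      · show q i0 + s0 * e ≤ _
        linarith
      · show lam i0 + w1 * s0 * e ≤ _
        linarith)
    (by
      have h1 := mul_le_mul_of_nonneg_right n6 he.le
      have h2 : (w * s0 + (1 + D) * κ) * e = w * s0 * e + κ * e + D * (κ * e) := by ring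
      have h3 : (u - κ) * e = u * e - κ * e := by ring
      rw [h3]
      linarith)
    (by
      have h1 : (u - κ) * e = u * e - κ * e := by ring
      have h2 : 0 ≤ (D : ℝ) * (κ * e) := by positivity
      rw [h1]
      linarith)
    (by positivity) hκe.le
    (fun k ω => frx (b.M.sp.dl (b.bd.q i0) k) (b.M.sp.dl (b.bd.lam i0 - b.bd.q i0) k)
      (b.M.sp.dl (ηn - b.bd.q i0) k) (b.M.sp.dl (ηn - b.bd.lam i0) k) ((b.bd.tc i0).1 k ω) ((b.bd.yc i0).1 k ω)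
      (fun j => (b.bd.r i0 j).1 k ω) (fun j => (b.bd.c i0 j).1 k ω) (fh k ω))
    ?_ (fun k ω a => cX a k ω) (fun k ω a => cY a k ω) hcX hcY ?_
  · have e1 : ηn + (u - κ) * e - D * (κ * e) - (D + 2) * (2 * κ * e + D * (κ * e)) =
        ηn + (u - (1 + D + (D + 2) ^ 2) * κ) * e := by ring
    rwa [e1] at key
  · have hn := b.bd.nest i0 i2 hi
    have h1 := (b.bd.lt i0).mono hn
    have h2 := (b.bd.ly i0).mono hn
    have h3 : ∀ᶠ k in UF, ∀ j : Fin 3, ∀ ω ω', (b.M.sp.F k).μ ω ≠ 0 → (b.M.sp.F k).μ ω' ≠ 0 →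
        (b.M k).V i2 ω ω' → (b.M.sp.F k).Z ω ω' → (b.bd.r i0 j).1 k ω = (b.bd.r i0 j).1 k ω' :=
      (eventually_all).mpr fun j => (b.bd.lr i0 j).mono hn
    have h4 : ∀ᶠ k in UF, ∀ j : Fin 4, ∀ ω ω', (b.M.sp.F k).μ ω ≠ 0 → (b.M.sp.F k).μ ω' ≠ 0 →
        (b.M k).V i2 ω ω' → (b.M.sp.F k).Z ω ω' → (b.bd.c i0 j).1 k ω = (b.bd.c i0 j).1 k ω' :=
      (eventually_all).mpr fun j => (b.bd.lc i0 j).mono hn
    filter_upwards [h1, h2, h3, h4] with k g1 g2 g3 g4 ω ω' a a' v z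
    have e1 : (b.bd.tc i0).1 k ω = (b.bd.tc i0).1 k ω' := g1 ω ω' a a' v z
    have e2 : (b.bd.yc i0).1 k ω = (b.bd.yc i0).1 k ω' := g2 ω ω' a a' v z
    have e3 : (fun j => (b.bd.r i0 j).1 k ω) = fun j => (b.bd.r i0 j).1 k ω' := funext fun j => g3 j ω ω' a a' v z
    have e4 : (fun j => (b.bd.c i0 j).1 k ω) = fun j => (b.bd.c i0 j).1 k ω' := funext fun j => g4 j ω ω' a a' v z
    have e5 : fh k ω = fh k ω' := fh1 k ω ω' v z
    rw [e1, e2, e3, e4, e5]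
  · have hf : ∀ᶠ k in UF, ∀ j : Fin 9, ∀ ω, ((b.bd.Sj i0 e he).F k).μ ω ≠ 0 →
        |(f j).1 k ω| ≤ 2 ^ (κ / 4 * ((b.bd.Sj i0 e he).F k).n) := (eventually_all).mpr fun j => tr_le (f j) hκ4
    have hκ4e : 0 < κ / 4 * e := mul_pos hκ4 he
    have hr : ∀ᶠ k in UF, ∀ j : Fin 3, ∀ ω, (b.M.sp.F k).μ ω ≠ 0 →
        |(b.bd.r i0 j).1 k ω| ≤ 2 ^ (κ / 4 * e * (b.M.sp.F k).n) :=
      (eventually_all).mpr fun j => tr_le (b.bd.r i0 j) hκ4e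
    have hc : ∀ᶠ k in UF, ∀ j : Fin 4, ∀ ω, (b.M.sp.F k).μ ω ≠ 0 →
        |(b.bd.c i0 j).1 k ω| ≤ 2 ^ (κ / 4 * e * (b.M.sp.F k).n) :=
      (eventually_all).mpr fun j => tr_le (b.bd.c i0 j) hκ4e
    have hC := ((b.bd.Sj i0 e he).Sub_const (mul_nonneg zero_le_two (C1_pos D).le)).eventually_le hκ
    have hC3 := ((b.bd.Sj i0 e he).Sub_const (zero_le_one (α := ℝ))).eventually_le (show 0 < κ / 2 by linarith)
    filter_upwards [hest, hf, hr, hc, hC, hC3, fh2] with k g1 g2 g3 g4 g5 g6 g7 ω hω hGω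
    rw [hGd] at hGω
    obtain ⟨⟨hEω, hG0ω⟩, hXω⟩ := hGω
    rw [hX] at hXω
    obtain ⟨⟨⟨⟨x1, x2⟩, x3⟩, x4⟩, ⟨⟨y0, y1⟩, y2⟩, y3⟩ := hXω
    obtain ⟨z1, z2, z3⟩ := g1 ω hω hEω
    obtain ⟨n, hn⟩ : ∃ n, n = (S.F k).n := ⟨_, rfl⟩
    have hnM : (b.M.sp.F k).n = n := by
      rw [hn]
      exact (b.M k).hn
    obtain ⟨m, hm⟩ : ∃ m, m = e * n := ⟨_, rfl⟩
    have hnj : ((b.bd.Sj i0 e he).F k).n = m := by
      rw [hm, ← hnM]
      rfl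
    have hn0 : 0 < n := by rw [hn]; exact (S.F k).pos
    have hm0 : 0 < m := by rw [hm]; exact mul_pos he hn0
    have hfe : fh k ω = fun j => (f j).1 k ω := g7 ω hω hG0ω
    have dlM : ∀ r, b.M.sp.dl r k = 2 ^ (-(r * n)) := by
      intro r
      rw [← hnM]
      rfl
    rw [hnj] at z1 z2 z3 x1 x2 x3 x4 g5 g6
    have g2' : ∀ j, |(f j).1 k ω| ≤ 2 ^ (κ / 4 * m) := fun j => by
      have := g2 j ω hω
      rwa [hnj] at this
    obtain ⟨c1, c2⟩ := est_pt (D := D) hm0 hκ hs0 hw1 hw n9 n7 n8 (fun j => (f j).1 k ω) (fun i => (Q i).1 k ω)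
      (fun i => (P i).1 k ω) (fun a => cY a k ω) g2' x1 x2 x3 x4 z1 z3
      (by linarith) (by
        have h0 := mul_pos hκ hm0
        have h1 : (2 : ℝ) ^ (κ / 2 * m) ≤ 2 ^ (κ * m) := two_le (by linarith)
        linarith)
    rw [hfe, ← hn]
    have hq0' : b.bd.q i0 ≤ b.bd.lam i0 := b.bd.qlam i0
    have n4'' : b.bd.lam i0 ≤ ηn + κ * e := n4'
    obtain ⟨p, hp⟩ : ∃ p, p = ptf s k (((b.M.lab i2) k).p.π ω) := ⟨_, rfl⟩
    have p0 : p 0 = (b.bd.t).1 k ω := by rw [hp]; rfl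
    have p1 : p 1 = (b.bd.y).1 k ω := by rw [hp]; rfl
    have p2 : p 2 = (b.bd.R).1 k ω := by rw [hp]; rfl
    have p3 : p 3 = (b.bd.z).1 k ω := by rw [hp]; rfl
    have k0 : p 0 - (b.bd.tc i0).1 k ω = b.M.sp.dl (b.bd.q i0) k * (Q 0).1 k ω := by
      rw [p0]
      exact y0
    have k1 : p 1 - (b.bd.yc i0).1 k ω = b.M.sp.dl (b.bd.q i0) k * (Q 1).1 k ω := by
      rw [p1]
      exact y1
    have uv : b.M.sp.dl (b.bd.q i0) k * b.M.sp.dl (b.bd.lam i0 - b.bd.q i0) k = b.M.sp.dl (b.bd.lam i0) k := by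
      rw [← dl_add]
      congr 1
      ring
    have uw : b.M.sp.dl (b.bd.q i0) k * b.M.sp.dl (ηn - b.bd.q i0) k = b.M.sp.dl ηn k := by
      rw [← dl_add]
      congr 1
      ring
    have wv : b.M.sp.dl (ηn - b.bd.lam i0) k * b.M.sp.dl (b.bd.lam i0 - b.bd.q i0) k =
        b.M.sp.dl (ηn - b.bd.q i0) k := by
      rw [← dl_add]
      congr 1
      ring
    have k2 : p 2 - ((b.bd.r i0 0).1 k ω + (b.bd.r i0 1).1 k ω * p 0 + (b.bd.r i0 2).1 k ω * p 1) =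
        b.M.sp.dl (b.bd.q i0) k * b.M.sp.dl (b.bd.lam i0 - b.bd.q i0) k * (Q 2).1 k ω := by
      rw [p0, p1, p2, uv]
      exact y2
    have k3 : p 3 - ((b.bd.c i0 0).1 k ω + (b.bd.c i0 1).1 k ω * p 0 + (b.bd.c i0 2).1 k ω * p 1 +
        (b.bd.c i0 3).1 k ω * p 2) =
        b.M.sp.dl (b.bd.q i0) k * b.M.sp.dl (ηn - b.bd.q i0) k * (Q 3).1 k ω := by
      rw [p0, p1, p2, p3, uw]
      exact y3
    have a0 : (2 : ℝ) ^ ((q i0 + s0 * e) * n) * b.M.sp.dl (b.bd.q i0) k = 2 ^ (s0 * m) := by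
      rw [dlM, ← two_add, hm]
      congr 1
      show (q i0 + s0 * e) * n + -(q i0 * n) = _
      ring
    have a2 : (2 : ℝ) ^ ((lam i0 + w1 * s0 * e) * n) * (b.M.sp.dl (b.bd.q i0) k *
        b.M.sp.dl (b.bd.lam i0 - b.bd.q i0) k) = 2 ^ (w1 * s0 * m) := by
      rw [uv, dlM, ← two_add, hm]
      congr 1
      show (lam i0 + w1 * s0 * e) * n + -(lam i0 * n) = _
      ring
    have hθ : (2 : ℝ) ^ (-((ηn + w * s0 * e) * n)) = b.M.sp.dl (b.bd.q i0) k * b.M.sp.dl (ηn - b.bd.q i0) k *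
        2 ^ (-(w * s0 * m)) := by
      rw [uw, dlM, ← two_add, hm]
      congr 1
      ring
    have hbg : ∀ i, bgv (fun i => 2 ^ ((![q i0 + s0 * e, q i0 + s0 * e, lam i0 + w1 * s0 * e] : Fin 3 → ℝ) i * n))
        (frx (b.M.sp.dl (b.bd.q i0) k) (b.M.sp.dl (b.bd.lam i0 - b.bd.q i0) k)
          (b.M.sp.dl (ηn - b.bd.q i0) k) (b.M.sp.dl (ηn - b.bd.lam i0) k) ((b.bd.tc i0).1 k ω) ((b.bd.yc i0).1 k ω)
          (fun j => (b.bd.r i0 j).1 k ω) (fun j => (b.bd.c i0 j).1 k ω) (fun j => (f j).1 k ω)) p i =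
        bgv (bsc w1 s0 m) (fun j => (f j).1 k ω) (fun i => (Q i).1 k ω) i :=
      fun i => frx_bgv k0 k1 k2 a0 a0 a2 i
    have hbq := frx_bqv (A := fun i => 2 ^ ((![q i0 + s0 * e, q i0 + s0 * e, lam i0 + w1 * s0 * e] : Fin 3 → ℝ) i * n))
      (A' := bsc w1 s0 m) (r := fun j => (b.bd.r i0 j).1 k ω) (c := fun j => (b.bd.c i0 j).1 k ω)
      (f := fun j => (f j).1 k ω) (T := fun i => (Q i).1 k ω) k0 k1 k2 k3 wv a0 a0 a2 hθ (fun a => cY a k ω)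
    rw [← hp]
    have hκm : 2 * κ * e * n = 2 * κ * m := by rw [hm]; ring
    rw [hκm]
    have r1' : ∀ j, |(b.bd.r i0 j).1 k ω| ≤ 2 ^ (κ / 4 * m) := fun j => by
      have h1 := g3 j ω hω
      rw [hnM, mul_assoc, ← hm] at h1
      exact h1
    have c1' : ∀ j, |(b.bd.c i0 j).1 k ω| ≤ 2 ^ (κ / 4 * m) := fun j => by
      have h1 := g4 j ω hω
      rw [hnM, mul_assoc, ← hm] at h1
      exact h1
    have v1 : b.M.sp.dl (b.bd.lam i0 - b.bd.q i0) k ≤ 1 := by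
      rw [dlM]
      exact two_le_one (exp_aux0 hn0.le hq0')
    have w1' : b.M.sp.dl (ηn - b.bd.q i0) k ≤ 2 ^ (κ * m) := by
      rw [dlM, hm]
      exact two_le (exp_aux hn0.le (hq0'.trans n4''))
    have w2' : b.M.sp.dl (ηn - b.bd.lam i0) k ≤ 2 ^ (κ * m) := by
      rw [dlM, hm]
      exact two_le (exp_aux hn0.le n4'')
    have hM1 : (1 : ℝ) ≤ 2 ^ (κ / 4 * m) := one_le_two (by positivity)
    have hN1 : (1 : ℝ) ≤ 2 ^ (κ * m) := one_le_two (by positivity)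
    refine ⟨fun j j0 j1 j2 j5 => ?_, fun i => ?_, fun a => ?_, fun a => ?_, ?_⟩
    · have h1 := frx_slope (u := b.M.sp.dl (b.bd.q i0) k) (v := b.M.sp.dl (b.bd.lam i0 - b.bd.q i0) k)
        (w := b.M.sp.dl (ηn - b.bd.q i0) k) (w' := b.M.sp.dl (ηn - b.bd.lam i0) k) (tc := (b.bd.tc i0).1 k ω)
        (yc := (b.bd.yc i0).1 k ω) (r := fun j => (b.bd.r i0 j).1 k ω) (c := fun j => (b.bd.c i0 j).1 k ω)
        (f := fun j => (f j).1 k ω) hM1 hN1 (dl_pos _ _ _).le v1 (dl_pos _ _ _).le w1' (dl_pos _ _ _).le w2' r1' c1'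
        (fun j _ _ _ _ => g2' j) j j0 j1 j2 j5
      refine h1.trans ?_
      have h3 : (3 : ℝ) ≤ 2 ^ (κ / 2 * m) := by linarith
      calc (3 : ℝ) * 2 ^ (κ * m) * (2 ^ (κ / 4 * m)) ^ 2 ≤ 2 ^ (κ / 2 * m) * 2 ^ (κ * m) * (2 ^ (κ / 4 * m)) ^ 2 :=
            mul_le_mul_of_nonneg_right (mul_le_mul_of_nonneg_right h3 (by positivity)) (by positivity)
        _ = 2 ^ (2 * κ * m) := by
            rw [two_pow_nat, ← two_add, ← two_add]
            congr 1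
            push_cast
            ring
    · rw [hbg]
      exact c1 i
    · refine (z1 a).trans (two_le ?_)
      have := mul_pos hκ hm0
      linarith
    · refine (z2 a).trans (two_le ?_)
      rw [hm]
      have h1 : 0 ≤ κ * (e * n) := by positivity
      have h2 : (ηn + (u - κ) * e - (ηn + w * s0 * e)) * n = (u - w * s0) * (e * n) - κ * (e * n) := by ring
      rw [h2]
      linarith
    · rw [hbq, uw, abs_mul, abs_of_pos (dl_pos _ _ _), dlM]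
      refine (mul_le_mul_of_nonneg_left c2 (by positivity)).trans (le_of_eq ?_)
      rw [← two_add, hm]
      congr 1
      ring

end

end Pool.Agent.Helper88.NSK
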