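import Pool.Agent.Helper88.NSK.KlC
import Pool.Agent.Helper80.HCI.Obk
import Pool.Agent.Helper80.HCI.Trm

/-! THE KILL OF CASE B from the output `OutE` of the diagonal (trimmed labels). -/

set_option autoImplicit false

namespace Pool.Agent.Helper88.NSK

open Finset Filter Topology MvPolynomial Pool.Agent.Helper69.RK Pool.Agent.Helper31.EC Pool.Agent.Helper31.EC.Sp
open Pool.Agent.Helper40.EL Pool.Agent.Helper52.KP Pool.Agent.Helper89.LX Pool.Agent.Helper3.LF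
open Pool.Agent.Helper42.NS Pool.Agent.Helper51.KL Pool.Agent.Helper98.FR Pool.Agent.Helper80.HCI
open Pool.Agent.Helper79.NF Pool.Agent.Helper31.NSB

noncomputable section

/-! ### literal functions are known up to rate zero -/

theorem Nul_one (S : Sp) : Nul S (fun _ => 1) := S.div_n_tendsto 1

/-- an indicator has at most one bit -/
theorem h_ind_le {F : FSp} (E : F.Ω → Prop) (x : FL F) : h (fc (Setoid.ker E) : FL F) x ≤ 1 := by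
  classical
  obtain ⟨X, hX⟩ : ∃ X : F.Ω → Fin 1 → ℤ, X = fun ω _ => if E ω then 1 else 0 := ⟨_, rfl⟩
  have h1 : (fc (Setoid.ker E) : FL F) ≤ fc (Setoid.ker X) := by
    apply fc_mono
    intro ω ω' h
    have h2 : X ω = X ω' := h
    have h3 := congrFun h2 0
    rw [hX] at h3
    simp only at h3
    show E ω = E ω'
    apply propext
    constructor
    · intro a
      by_contra b
      rw [if_pos a, if_neg b] at h3
      exact absurd h3 (by norm_num)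
    · intro a
      by_contra b
      rw [if_neg b, if_pos a] at h3
      exact absurd h3 (by norm_num)
  refine ((h_mono h1).trans (h_le_H _ _)).trans ?_
  rw [H_fc]
  have e5 := F.e_int_le X F.Z 1 (by norm_num) (by
    intro ω ω' _ _ _ i
    rw [hX]
    show |(((if E ω then 1 else 0 : ℤ)) : ℝ) - ((if E ω' then 1 else 0 : ℤ) : ℝ)| ≤ 1
    split_ifs <;> simp)
  refine e5.trans (le_of_eq ?_)
  rw [show (1 : ℝ) + 1 = 2 by norm_num, Real.logb_self_eq_one (by norm_num)]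
  simp

variable {S : Sp} {s : Sys S 3} {q lam eta : ℕ → ℝ} {L : ℕ → Lab S}

/-- the values of functions which are literal over the base label, in terms of a variable and a trimmed variable -/
theorem nul_lit (b : Bx s q lam eta L) {i0 i2 : ℕ} {e : ℝ} (he : 0 < e) (hi : q i0 ≤ q i2) {A : Part S}
    {α β : ℕ → Type} (V : ∀ k, ((b.bd.Sj i0 e he).F k).Ω → α k) (K : ∀ k, ((b.bd.Sj i0 e he).F k).Ω → β k)
    (E : ∀ k, ((b.bd.Sj i0 e he).F k).Ω → Prop)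
    (hV : Nul S (fun k => h (fc (Setoid.ker (V k)) : FL ((b.M.lab i2) k).T)
      (((b.M.lab i2) k).v ⊔ ((b.M.lab i2) k).p.map (A k))))
    (hK : ∀ᶠ k in UF, ∀ ω ω', (b.M.sp.F k).μ ω ≠ 0 → (b.M.sp.F k).μ ω' ≠ 0 → (b.M k).V i2 ω ω' →
      (b.M.sp.F k).Z ω ω' → K k ω = K k ω') {D : ℕ} (c : Mon 3 D → ∀ k, ((b.bd.Sj i0 e he).F k).Ω → ℝ)
    (hc : ∀ a, ∀ᶠ k in UF, FLit ((b.bd.Sj i0 e he).F k) (fun ω => (V k ω, trm E K k ω)) (c a k)) :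
    Nul S (fun k => h (fc (Setoid.ker fun ω => fun a => c a k ω) : FL ((b.M.lab i2) k).T)
      (((b.M.lab i2) k).v ⊔ ((b.M.lab i2) k).p.map (A k))) := by
  have hc' : ∀ᶠ k in UF, ∀ a, FLit ((b.bd.Sj i0 e he).F k) (fun ω => (V k ω, trm E K k ω)) (c a k) :=
    (eventually_all).mpr hc
  apply (hV.add (Nul_one S)).of_le (Eventually.of_forall fun k => h_nonneg _ _)
  filter_upwards [hc', hK] with k h1 h2
  obtain ⟨y, hy⟩ : ∃ y, y = ((b.M.lab i2) k).v ⊔ ((b.M.lab i2) k).p.map (A k) := ⟨_, rfl⟩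
  rw [← hy]
  have hvy : (fc ((b.M k).V i2) : FL ((b.M.lab i2) k).T) ≤ y := by
    rw [hy]
    exact le_sup_left
  have h3 : (fc (Setoid.ker fun ω => fun a => c a k ω) : FL ((b.M.lab i2) k).T) ≤
      (fc (Setoid.ker (V k)) : FL ((b.M.lab i2) k).T) ⊔ fc (Setoid.ker (E k)) ⊔ fc ((b.M k).V i2) := by
    rw [← fc_inf, ← fc_inf]
    apply fc_le
    intro ω ω' a a' z g
    obtain ⟨⟨g1, g2⟩, g3⟩ := g
    have g1' : V k ω = V k ω' := g1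
    have g2' : E k ω = E k ω' := g2
    have g4 : K k ω = K k ω' := h2 ω ω' a a' g3 z
    have g5 : trm E K k ω = trm E K k ω' := trm_eq (Iff.of_eq g2') g4
    show (fun a => c a k ω) = fun a => c a k ω'
    funext a1
    exact h1 a1 ω ω' a a' ⟨b.nest i0 i2 hi k g3, z⟩ (Prod.ext g1' g5)
  refine (h_mono h3).trans ?_
  have h4 := h_sup_le (fc (Setoid.ker (V k)) ⊔ fc (Setoid.ker (E k)) : FL ((b.M.lab i2) k).T) (fc ((b.M k).V i2)) y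
  have h5 := h_sup_le (fc (Setoid.ker (V k)) : FL ((b.M.lab i2) k).T) (fc (Setoid.ker (E k))) y
  have h6 : h (fc ((b.M k).V i2) : FL ((b.M.lab i2) k).T) y = 0 := h_zero hvy
  have h7 := h_ind_le (F := ((b.M.lab i2) k).T) (E k) y
  linarith

/-- knowledge in the space over the label of `i0` gives knowledge over the label of `i2`, up to rate zero -/
theorem nul_of_io (b : Bx s q lam eta L) {i0 i2 : ℕ} {e : ℝ} (he : 0 < e) (hi : q i0 ≤ q i2)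
    {α : ℕ → Type} {V : ∀ k, ((b.bd.Sj i0 e he).F k).Ω → α k} (hb : Bdd (S := b.bd.Sj i0 e he) V) {A : S.Inf}
    (hV : io (S := b.bd.Sj i0 e he) V ≤ (b.M.lab i0).upL e he (cl A)) :
    Nul S (fun k => h (fc (Setoid.ker (V k)) : FL ((b.M.lab i2) k).T)
      (((b.M.lab i2) k).v ⊔ ((b.M.lab i2) k).p.map (rpI A k))) := by
  have h1 : cl (S := b.bd.Sj i0 e he) hb.toInf ≤ cl ((b.M.lab i0).upI e he A) := by
    have h2 := hV
    rw [io_eq hb] at h2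
    exact h2
  have h3 : PLe (S := b.bd.Sj i0 e he) (rpI hb.toInf) (rpI ((b.M.lab i0).upI e he A)) := PLe_rpI.mpr h1
  have h4 : Nul (b.bd.Sj i0 e he) (fun k => h (rpI hb.toInf k) (rpI (S := b.bd.Sj i0 e he) ((b.M.lab i0).upI e he A) k)) := h3
  have h5 : Nul S (fun k => h (rpI hb.toInf k) (rpI (S := b.bd.Sj i0 e he) ((b.M.lab i0).upI e he A) k)) :=
    ((b.M.lab i0).nul_over e he).mp h4
  refine h5.of_le (Eventually.of_forall fun k => h_nonneg _ _) (Eventually.of_forall fun k => ?_)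
  have e1 : h (fc (Setoid.ker (V k)) : FL ((b.M.lab i2) k).T)
      (((b.M.lab i2) k).v ⊔ ((b.M.lab i2) k).p.map (rpI A k)) =
      (b.M.sp.F k).e (Setoid.ker (V k)) (((b.M k).V i2 ⊓ Setoid.comap ((b.M k).p.π) (A.1 k)) ⊓ (b.M.sp.F k).Z) := by
    have e2 : ((b.M.lab i2) k).v ⊔ ((b.M.lab i2) k).p.map (rpI A k) =
        (fc ((b.M k).V i2 ⊓ Setoid.comap ((b.M k).p.π) (A.1 k)) : FL ((b.M.lab i2) k).T) := (fc_inf _ _).symm
    rw [e2]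
    exact h_fc _ _
  have e3 : h (rpI hb.toInf k) (rpI (S := b.bd.Sj i0 e he) ((b.M.lab i0).upI e he A) k) =
      (b.M.sp.F k).e (Setoid.ker (V k)) (Setoid.comap ((b.M k).p.π) (A.1 k) ⊓ ((b.M k).V i0 ⊓ (b.M.sp.F k).Z)) :=
    h_fc _ _
  rw [e1, e3]
  apply (b.M.sp.F k).e_anti
  intro ω ω' _ _ g
  exact ⟨g.1.2, b.nest i0 i2 hi k g.1.1, g.2⟩

/-! ### the kill -/

theorem bxr_eq (n w1 s0 : ℝ) (P : Fin 10 → ℝ) (c : Fin 9 → ℝ) (i : Fin 3) :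
    bxr n w1 s0 P c i = bgv (bsc w1 s0 n) c ![P 0, P 1, P 2, P 3] i := by
  have key : ∀ x y : ℝ, x / 2 ^ (-y) = 2 ^ y * x := by
    intro x y
    rw [Real.rpow_neg (by norm_num), div_inv_eq_mul, mul_comm]
  fin_cases i
  · exact key (P 0 - c 0) (s0 * n)
  · exact key (P 1 - c 1) (s0 * n)
  · exact key (P 2 - (c 2 + c 3 * P 0 + c 4 * P 1)) (w1 * s0 * n)

theorem shr_eq {D : ℕ} (n w1 w s0 : ℝ) (P : Fin 10 → ℝ) (c : Fin 9 → ℝ) (cY : Mon 3 D → ℝ) :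
    shr n w1 w s0 P c cY = bqv (bsc w1 s0 n) c (2 ^ (-(w * s0 * n))) cY ![P 0, P 1, P 2, P 3] := by
  unfold shr bqv
  simp only [bxr_eq]
  rfl

/-- THE KILL: an output at the space over the label of the window `i0` (labels `K s` of the windows known to the label of
`i2`, trimmed to a typical event) gives `H(q i2, ηn + (w s1 + v - C κ) e)` -/
theorem kill_out (hR : RobH s) (b : Bx s q lam eta L) {i0 i2 : ℕ} {e : ℝ} (he : 0 < e) (hi : q i0 ≤ q i2) {ηn : ℝ}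
    (hη : ηn ≤ b.bd.eta i0) {D : ℕ} (hD : 1 ≤ D) {w1 w s0 s1 v κ p η : ℝ} (hκ : 0 < κ) (hs0 : 0 ≤ s0) (hw1 : 1 ≤ w1)
    (hw : 1 ≤ w) (n1 : q i0 + s0 * e ≤ 1 + κ * e) (n2 : lam i0 + w1 * s0 * e ≤ 1 + κ * e)
    (n3 : ηn + (w * s1 + v) * e ≤ 1) (n4 : lam i0 + w1 * s0 * e ≤ ηn + w * s0 * e + κ * e) (n4' : lam i0 ≤ ηn + κ * e)
    (n6 : w * s0 + (1 + D) * κ ≤ w * s1 + v) (n7 : w * s1 + v + (D + 3) * (2 * κ) ≤ 1)
    (n8 : w * s1 + v + (w1 - w) * s0 + (D + 3) * (2 * κ) ≤ 1) (n9 : w1 * s0 + κ ≤ 1) (hp : 0 < p) (hηκ : η ≤ κ)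
    {H : RD (b.bd.Sj i0 e he)} {f : FR (b.bd.Sj i0 e he)} {E0 : ∀ k, ((b.bd.Sj i0 e he).F k).Ω → Prop}
    (hE0 : Typ (S := b.bd.Sj i0 e he) E0) (ht : H.t = QS.mk (b.bd.tT i0 e he)) (hy : H.y = QS.mk (b.bd.yT i0 e he))
    (hRR : H.R = QS.mk (b.bd.RT i0 e he)) (hz : H.z = QS.mk (b.bd.zT i0 e he ηn hη))
    (P : Fin 10 → TR (b.bd.Sj i0 e he)) (hP : ∀ i, QS.mk (P i) = b10 H i) (c : Fin 9 → TR (b.bd.Sj i0 e he))
    (hc : ∀ i, QS.mk (c i) = f9 f s0 i) (hcl : ∀ i, ∀ᶠ k in UF, FLit ((b.bd.Sj i0 e he).F k) (H.K s0 k) ((c i).1 k))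
    (ft : H.t - f.t0 s0 ∈ QS.Id (b.bd.Sj i0 e he) (s0 - κ)) (fy : H.y - f.y0 s0 ∈ QS.Id (b.bd.Sj i0 e he) (s0 - κ))
    (fR : H.R - (f.r0 s0 + f.rt s0 * H.t + f.ry s0 * H.y) ∈ QS.Id (b.bd.Sj i0 e he) (w1 * s0 - κ))
    (hK0 : ∀ᶠ k in UF, ∀ ω ω', (b.M.sp.F k).μ ω ≠ 0 → (b.M.sp.F k).μ ω' ≠ 0 → (b.M k).V i2 ω ω' →
      (b.M.sp.F k).Z ω ω' → H.K s0 k ω = H.K s0 k ω')
    (hK1 : ∀ᶠ k in UF, ∀ ω ω', (b.M.sp.F k).μ ω ≠ 0 → (b.M.sp.F k).μ ω' ≠ 0 → (b.M k).V i2 ω ω' →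
      (b.M.sp.F k).Z ω ω' → H.K s1 k ω = H.K s1 k ω')
    (hVA : Nul S (fun k => h (fc (Setoid.ker (H.VA k)) : FL ((b.M.lab i2) k).T)
      (((b.M.lab i2) k).v ⊔ ((b.M.lab i2) k).p.map (cA s (q i2) k))))
    (hVB : Nul S (fun k => h (fc (Setoid.ker (H.VB k)) : FL ((b.M.lab i2) k).T)
      (((b.M.lab i2) k).v ⊔ ((b.M.lab i2) k).p.map (cB s k))))
    (out : OutE (rdt H E0) P (fun i => trf E0 (c i)) w1 w D s0 s1 v p η) :
    Hf s D (q i2) (ηn + (w * s1 + v - (1 + D + (D + 2) ^ 2) * κ) * e) := by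
  obtain ⟨E, cX, cY, hE, hX, hY, hest⟩ := out
  have hP' : ∀ i : Fin 10, QS.mk (P i) = b10 H i := hP
  have hc' : ∀ i, QS.mk (trf E0 (c i)) = f9 f s0 i := fun i => (trf_mk hE0 (c i)).trans (hc i)
  have e0 : QS.mk (P 0) = H.t := hP' 0
  have e1 : QS.mk (P 1) = H.y := hP' 1
  have e2 : QS.mk (P 2) = H.R := hP' 2
  have e3 : QS.mk (P 3) = H.z := hP' 3
  have g0 : QS.mk (trf E0 (c 0)) = f.t0 s0 := hc' 0
  have g1 : QS.mk (trf E0 (c 1)) = f.y0 s0 := hc' 1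
  have g2 : QS.mk (trf E0 (c 2)) = f.r0 s0 := hc' 2
  have g3 : QS.mk (trf E0 (c 3)) = f.rt s0 := hc' 3
  have g4 : QS.mk (trf E0 (c 4)) = f.ry s0 := hc' 4
  have hcl' : ∀ᶠ k in UF, ∀ i, FLit ((b.bd.Sj i0 e he).F k) (H.K s0 k) ((c i).1 k) := (eventually_all).mpr hcl
  refine kill_box hR b he hi hη hD (u := w * s1 + v) hκ hs0 hw1 hw n1 n2 n3 n4 n4' n6 n7 n8 n9
    ![P 0, P 1, P 2, P 3] (e0.trans ht) (e1.trans hy) (e2.trans hRR) (e3.trans hz) (fun i => trf E0 (c i))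
    ?_ ?_ ?_ E0 hE0 ?_ cX cY (nul_lit b he hi H.VA (H.K s1) E0 hVA hK1 cX hX)
    (nul_lit b he hi H.VB (H.K s1) E0 hVB hK1 cY hY) E (hp.trans_le hE) ?_
  · show QS.mk (P 0) - QS.mk (trf E0 (c 0)) ∈ _
    rw [e0, g0]
    exact ft
  · show QS.mk (P 1) - QS.mk (trf E0 (c 1)) ∈ _
    rw [e1, g1]
    exact fy
  · show QS.mk (P 2) - (QS.mk (trf E0 (c 2)) + QS.mk (trf E0 (c 3)) * QS.mk (P 0) +
      QS.mk (trf E0 (c 4)) * QS.mk (P 1)) ∈ _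
    rw [e0, e1, e2, g2, g3, g4]
    exact fR
  · filter_upwards [hcl', hK0] with k h1 h2 ω ω' a a' x x' v z j
    have e1 : (trf E0 (c j)).1 k ω = (c j).1 k ω := trf_pos x
    have e2 : (trf E0 (c j)).1 k ω' = (c j).1 k ω' := trf_pos x'
    exact e1.trans ((h1 j ω ω' a a' ⟨b.nest i0 i2 hi k v, z⟩ (h2 ω ω' a a' v z)).trans e2.symm)
  · filter_upwards [hest] with k hk ω hω hEω
    obtain ⟨-, h2, h3, h4⟩ := hk ω hω hEω
    refine ⟨fun a => (h2 a).trans (two_le (mul_le_mul_of_nonneg_right hηκ ((b.bd.Sj i0 e he).F k).pos.le)),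
      fun a => ?_, ?_⟩
    · have h5 := h3 a
      have e5 : w * s1 + v - w * s0 = w * (s1 - s0) + v := by ring
      rw [e5]
      exact h5
    · rw [shr_eq] at h4
      have e6 : (fun i : Fin 4 => ((![P 0, P 1, P 2, P 3] : Fin 4 → TR (b.bd.Sj i0 e he)) i).1 k ω) =
          ![(P 0).1 k ω, (P 1).1 k ω, (P 2).1 k ω, (P 3).1 k ω] := by
        funext i
        fin_cases i <;> rfl
      rw [e6]
      exact h4

/-! ### choice of the constants -/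

/-- gain of the kill -/
def vk (w1 w s0 s1 v : ℝ) : ℝ := min (v / 2) ((1 - (w1 * s0 + w * (s1 - s0))) / 2)

/-- admissible errors of the kill -/
def kk (D : ℕ) (w1 w s0 s1 v : ℝ) : ℝ := vk w1 w s0 s1 v / (2 * (1 + D + (D + 2) ^ 2))

theorem vk_pos {w1 w s0 s1 v : ℝ} (hv : 0 < v) (h : w1 * s0 + w * (s1 - s0) < 1) : 0 < vk w1 w s0 s1 v :=
  lt_min (by linarith) (by linarith)

theorem kk_pos {D : ℕ} {w1 w s0 s1 v : ℝ} (hv : 0 < v) (h : w1 * s0 + w * (s1 - s0) < 1) : 0 < kk D w1 w s0 s1 v :=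
  div_pos (vk_pos hv h) (by positivity)

theorem vk_le {w1 w s0 s1 v : ℝ} (hv : 0 < v) : vk w1 w s0 s1 v ≤ v := (min_le_left _ _).trans (by linarith)

theorem kk_eq (D : ℕ) (w1 w s0 s1 v : ℝ) : (1 + D + (D + 2) ^ 2) * kk D w1 w s0 s1 v = vk w1 w s0 s1 v / 2 := by
  have : (0 : ℝ) < 1 + D + (D + 2) ^ 2 := by positivity
  unfold kk
  field_simp

theorem kk_le (D : ℕ) {w1 w s0 s1 v : ℝ} (hv : 0 < v) (h : w1 * s0 + w * (s1 - s0) < 1) :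
    (1 + D) * kk D w1 w s0 s1 v ≤ vk w1 w s0 s1 v / 2 ∧ (D + 3) * (2 * kk D w1 w s0 s1 v) ≤ vk w1 w s0 s1 v ∧
      kk D w1 w s0 s1 v ≤ vk w1 w s0 s1 v / 2 := by
  have h1 := kk_eq D w1 w s0 s1 v
  have h2 := kk_pos (D := D) hv h
  have hD : (0 : ℝ) ≤ D := Nat.cast_nonneg D
  have h3 : (1 + (D : ℝ)) * kk D w1 w s0 s1 v ≤ (1 + D + (D + 2) ^ 2) * kk D w1 w s0 s1 v :=
    mul_le_mul_of_nonneg_right (by nlinarith) h2.le
  have h4 : ((D : ℝ) + 3) * kk D w1 w s0 s1 v ≤ (1 + D + (D + 2) ^ 2) * kk D w1 w s0 s1 v :=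
    mul_le_mul_of_nonneg_right (by nlinarith) h2.le
  have h5 : 1 * kk D w1 w s0 s1 v ≤ (1 + D + (D + 2) ^ 2) * kk D w1 w s0 s1 v :=
    mul_le_mul_of_nonneg_right (by nlinarith) h2.le
  refine ⟨by linarith, by linarith, by linarith⟩

/-- THE KILL with the constants chosen: outputs with errors at most `kk` beat the depth `ηn + w s1 e` -/
theorem kill_fin (hR : RobH s) (b : Bx s q lam eta L) {i0 i2 : ℕ} {e : ℝ} (he : 0 < e) (hi : q i0 ≤ q i2) {ηn : ℝ}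
    (hη : ηn ≤ b.bd.eta i0) {D : ℕ} (hD : 1 ≤ D) {w1 w s0 s1 v κ p η : ℝ} (hκ : κ = kk D w1 w s0 s1 v) (hv : 0 < v)
    (hs0 : 0 ≤ s0) (hs1 : s0 ≤ s1) (hw1 : 1 ≤ w1) (hw : 1 ≤ w) (hws : w1 * s0 + w * (s1 - s0) < 1)
    (hwv : w * s1 + v ≤ 1) (n1 : q i0 + s0 * e ≤ 1 + κ * e) (n2 : lam i0 + w1 * s0 * e ≤ 1 + κ * e)
    (n3 : ηn + e ≤ 1) (n4 : lam i0 + w1 * s0 * e ≤ ηn + w * s0 * e + κ * e) (n4' : lam i0 ≤ ηn + κ * e)
    (hp : 0 < p) (hηκ : η ≤ κ)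
    {H : RD (b.bd.Sj i0 e he)} {f : FR (b.bd.Sj i0 e he)} {E0 : ∀ k, ((b.bd.Sj i0 e he).F k).Ω → Prop}
    (hE0 : Typ (S := b.bd.Sj i0 e he) E0) (ht : H.t = QS.mk (b.bd.tT i0 e he)) (hy : H.y = QS.mk (b.bd.yT i0 e he))
    (hRR : H.R = QS.mk (b.bd.RT i0 e he)) (hz : H.z = QS.mk (b.bd.zT i0 e he ηn hη))
    (P : Fin 10 → TR (b.bd.Sj i0 e he)) (hP : ∀ i, QS.mk (P i) = b10 H i) (c : Fin 9 → TR (b.bd.Sj i0 e he))
    (hc : ∀ i, QS.mk (c i) = f9 f s0 i) (hcl : ∀ i, ∀ᶠ k in UF, FLit ((b.bd.Sj i0 e he).F k) (H.K s0 k) ((c i).1 k))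
    (ft : H.t - f.t0 s0 ∈ QS.Id (b.bd.Sj i0 e he) (s0 - κ)) (fy : H.y - f.y0 s0 ∈ QS.Id (b.bd.Sj i0 e he) (s0 - κ))
    (fR : H.R - (f.r0 s0 + f.rt s0 * H.t + f.ry s0 * H.y) ∈ QS.Id (b.bd.Sj i0 e he) (w1 * s0 - κ))
    (hK0 : ∀ᶠ k in UF, ∀ ω ω', (b.M.sp.F k).μ ω ≠ 0 → (b.M.sp.F k).μ ω' ≠ 0 → (b.M k).V i2 ω ω' →
      (b.M.sp.F k).Z ω ω' → H.K s0 k ω = H.K s0 k ω')
    (hK1 : ∀ᶠ k in UF, ∀ ω ω', (b.M.sp.F k).μ ω ≠ 0 → (b.M.sp.F k).μ ω' ≠ 0 → (b.M k).V i2 ω ω' →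
      (b.M.sp.F k).Z ω ω' → H.K s1 k ω = H.K s1 k ω')
    (hVA : Nul S (fun k => h (fc (Setoid.ker (H.VA k)) : FL ((b.M.lab i2) k).T)
      (((b.M.lab i2) k).v ⊔ ((b.M.lab i2) k).p.map (cA s (q i2) k))))
    (hVB : Nul S (fun k => h (fc (Setoid.ker (H.VB k)) : FL ((b.M.lab i2) k).T)
      (((b.M.lab i2) k).v ⊔ ((b.M.lab i2) k).p.map (cB s k))))
    (out : OutE (rdt H E0) P (fun i => trf E0 (c i)) w1 w D s0 s1 v p η) :
    Hf s D (q i2) (ηn + (w * s1 + vk w1 w s0 s1 v / 2) * e) := by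
  have hκ0 : 0 < κ := by rw [hκ]; exact kk_pos hv hws
  obtain ⟨k1, k2, k3⟩ := kk_le D hv hws
  have k4 := kk_eq D w1 w s0 s1 v
  rw [← hκ] at k1 k2 k3 k4
  have hvk := vk_pos hv hws
  have hvk1 : vk w1 w s0 s1 v ≤ v / 2 := min_le_left _ _
  have hvk2 : vk w1 w s0 s1 v ≤ (1 - (w1 * s0 + w * (s1 - s0))) / 2 := min_le_right _ _
  have hws' : w * s0 ≤ w * s1 := mul_le_mul_of_nonneg_left hs1 (by linarith)
  have hw0 : 0 ≤ w * (s1 - s0) := mul_nonneg (by linarith) (by linarith)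
  have out' : OutE (rdt H E0) P (fun i => trf E0 (c i)) w1 w D s0 s1 (vk w1 w s0 s1 v) p η := by
    obtain ⟨E, cX, cY, hE, hX, hY, hest⟩ := out
    refine ⟨E, cX, cY, hE, hX, hY, ?_⟩
    filter_upwards [hest] with k hk ω hω hEω
    obtain ⟨h1, h2, h3, h4⟩ := hk ω hω hEω
    have hn := ((b.bd.Sj i0 e he).F k).pos
    refine ⟨h1, h2, fun a => (h3 a).trans (two_le ?_), h4.trans (two_le ?_)⟩
    · have h5 := mul_le_mul_of_nonneg_right (vk_le (w1 := w1) (w := w) (s0 := s0) (s1 := s1) hv) hn.le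
      linarith
    · have h5 := mul_le_mul_of_nonneg_right (vk_le (w1 := w1) (w := w) (s0 := s0) (s1 := s1) hv) hn.le
      linarith
  have key := kill_out hR b he hi hη hD (v := vk w1 w s0 s1 v) hκ0 hs0 hw1 hw n1 n2
    (by
      have h1 : (w * s1 + vk w1 w s0 s1 v) * e ≤ 1 * e := mul_le_mul_of_nonneg_right (by linarith) he.le
      linarith) n4 n4' (by linarith) (by linarith)
    (by
      have h1 : w * s1 + (w1 - w) * s0 = w1 * s0 + w * (s1 - s0) := by ring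
      linarith) (by linarith) hp hηκ hE0 ht hy hRR hz P hP c hc hcl ft fy fR hK0 hK1 hVA hVB out'
  have e1 : w * s1 + vk w1 w s0 s1 v - (1 + D + (D + 2) ^ 2) * κ = w * s1 + vk w1 w s0 s1 v / 2 := by
    rw [k4]
    ring
  rwa [e1] at key

end

end Pool.Agent.Helper88.NSK
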