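import Pool.Agent.Helper51.KL.Kill

/-! Real algebra for the kill of case B: rescaling of box polynomials, change from the box of the base label to the
space, perturbation of the point. -/

set_option autoImplicit false

namespace Pool.Agent.Helper88.NSK

open Finset Pool.Agent.Helper3.LF Pool.Agent.Helper51.KL

noncomputable section

variable {D : ℕ}

/-! ### rescaling -/

theorem bgv_scale (A : Fin 3 → ℝ) (x : Fin 9 → ℝ) (p : Fin 4 → ℝ) (c : ℝ) (i : Fin 3) :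
    bgv (fun i => A i * c) x p i = c * bgv A x p i := by
  fin_cases i
  · show A 0 * c * (p 0 - x 0) = c * (A 0 * (p 0 - x 0))
    ring
  · show A 1 * c * (p 1 - x 1) = c * (A 1 * (p 1 - x 1))
    ring
  · show A 2 * c * (p 2 - (x 2 + x 3 * p 0 + x 4 * p 1)) = c * (A 2 * (p 2 - (x 2 + x 3 * p 0 + x 4 * p 1)))
    ring

/-- total degree of a monomial -/
def dgm (a : Mon 3 D) : ℕ := ∑ i, (a.1 i : ℕ)

theorem dgm_le (a : Mon 3 D) : dgm a ≤ D := a.2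

theorem bqv_scale (A : Fin 3 → ℝ) (x : Fin 9 → ℝ) (θ : ℝ) (γ : Mon 3 D → ℝ) (p : Fin 4 → ℝ) {c d : ℝ} (hcd : c * d = 1) :
    bqv (fun i => A i * c) x θ (fun a => γ a * d ^ dgm a) p = bqv A x θ γ p := by
  have h : ∀ a : Mon 3 D, γ a * d ^ dgm a * ∏ i, bgv (fun i => A i * c) x p i ^ (a.1 i : ℕ) =
      γ a * ∏ i, bgv A x p i ^ (a.1 i : ℕ) := by
    intro a
    have h1 : ∏ i, bgv (fun i => A i * c) x p i ^ (a.1 i : ℕ) = c ^ dgm a * ∏ i, bgv A x p i ^ (a.1 i : ℕ) := by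
      unfold dgm
      rw [← Finset.prod_pow_eq_pow_sum, ← Finset.prod_mul_distrib]
      apply Finset.prod_congr rfl
      intro i _
      rw [bgv_scale, mul_pow]
    rw [h1]
    calc γ a * d ^ dgm a * (c ^ dgm a * ∏ i, bgv A x p i ^ (a.1 i : ℕ)) =
        (c * d) ^ dgm a * (γ a * ∏ i, bgv A x p i ^ (a.1 i : ℕ)) := by
          rw [mul_pow]
          ring
      _ = _ := by rw [hcd, one_pow, one_mul]
  unfold bqv
  rw [Finset.sum_congr rfl fun a _ => h a]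

/-! ### perturbation of the point -/

/-- constant of the perturbation -/
def Cpt (D : ℕ) (M : ℝ) : ℝ := 4 * M + Fintype.card (Mon 3 D) * M * (D * (4 * M) ^ D * (3 * M))

theorem Cpt_nonneg {M : ℝ} (hM : 0 ≤ M) : 0 ≤ Cpt D M := by unfold Cpt; positivity

/-- the box polynomial at a perturbed point, general weights -/
theorem bqv_near' (A : Fin 3 → ℝ) (hA : ∀ i, 0 ≤ A i) (x : Fin 9 → ℝ) {θ Θ : ℝ} (hθ : 0 ≤ θ) (hΘ : 1 ≤ Θ)
    (γ : Mon 3 D → ℝ) (p p' : Fin 4 → ℝ) {M r : ℝ} (hM : 1 ≤ M) (hr : 0 ≤ r) (hp : ∀ i, |p' i - p i| ≤ r)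
    (hAr : ∀ i, A i * r ≤ 1) (hθA : ∀ i, θ * A i ≤ Θ) (hx : ∀ j, j ≠ 0 → j ≠ 1 → j ≠ 2 → j ≠ 5 → |x j| ≤ M)
    (hg : ∀ i, |bgv A x p i| ≤ M) (hγ : ∀ a, |γ a| ≤ M) :
    |bqv A x θ γ p' - bqv A x θ γ p| ≤ 2 * Θ * (Cpt D M * r) := by
  have hΘ0 : 0 < Θ := by linarith
  have h1 := bqv_near A hA x (θ / Θ) (div_nonneg hθ hΘ0.le) γ p p' hM hr hp hAr
    (fun i => by rw [div_mul_eq_mul_div, div_le_one hΘ0]; exact hθA i) hx hg hγ
  have h0 := bqv_near A hA x 0 le_rfl γ p p' hM hr hp hAr (fun i => by rw [zero_mul]; exact zero_le_one) hx hg hγ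
  have e : bqv A x θ γ p' - bqv A x θ γ p = Θ * (bqv A x (θ / Θ) γ p' - bqv A x (θ / Θ) γ p) -
      (Θ - 1) * (bqv A x 0 γ p' - bqv A x 0 γ p) := by
    have e1 : θ = Θ * (θ / Θ) := by field_simp
    have e2 : ∀ p, bqv A x θ γ p = Θ * bqv A x (θ / Θ) γ p - (Θ - 1) * bqv A x 0 γ p := by
      intro p
      unfold bqv
      calc _ = p 3 - (x 5 + x 6 * p 0 + x 7 * p 1 + x 8 * p 2) -
            (Θ * (θ / Θ)) * ∑ a, γ a * ∏ i, bgv A x p i ^ (a.1 i : ℕ) := by rw [← e1]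
        _ = _ := by ring
    rw [e2 p, e2 p']
    ring
  have hC : 0 ≤ Cpt D M * r := mul_nonneg (Cpt_nonneg (by linarith)) hr
  have h1' : |bqv A x (θ / Θ) γ p' - bqv A x (θ / Θ) γ p| ≤ Cpt D M * r := h1
  have h0' : |bqv A x 0 γ p' - bqv A x 0 γ p| ≤ Cpt D M * r := h0
  rw [e]
  refine (abs_sub _ _).trans ?_
  rw [abs_mul, abs_mul, abs_of_pos hΘ0, abs_of_nonneg (by linarith : (0 : ℝ) ≤ Θ - 1)]
  have h2 := mul_le_mul_of_nonneg_left h1' hΘ0.le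
  have h3 := mul_le_mul_of_nonneg_left h0' (by linarith : (0 : ℝ) ≤ Θ - 1)
  have h4 : (Θ - 1) * (Cpt D M * r) ≤ Θ * (Cpt D M * r) := mul_le_mul_of_nonneg_right (by linarith) hC
  linarith

/-! ### from the box of the base label to the space -/

/-- frames in the space from frames in the box of the base label: `u = 2 ^ (-q0 n)`, `v = 2 ^ (-(lam0 - q0) n)`,
`w = 2 ^ (-(eta0 - q0) n)`, `w' = 2 ^ (-(eta0 - lam0) n)` -/
def frx (u v w w' : ℝ) (tc yc : ℝ) (r : Fin 3 → ℝ) (c : Fin 4 → ℝ) (f : Fin 9 → ℝ) : Fin 9 → ℝ :=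
  ![tc + u * f 0, yc + u * f 1, r 0 + u * v * f 2 - v * (f 3 * tc + f 4 * yc), r 1 + v * f 3, r 2 + v * f 4,
    c 0 + u * w * f 5 - w * (f 6 * tc + f 7 * yc) - w' * f 8 * r 0, c 1 + w * f 6 - w' * f 8 * r 1,
    c 2 + w * f 7 - w' * f 8 * r 2, c 3 + w' * f 8]

theorem frx_bgv {u v w w' tc yc : ℝ} {r : Fin 3 → ℝ} {c : Fin 4 → ℝ} {f : Fin 9 → ℝ} {p T : Fin 4 → ℝ}
    (h0 : p 0 - tc = u * T 0) (h1 : p 1 - yc = u * T 1) (h2 : p 2 - (r 0 + r 1 * p 0 + r 2 * p 1) = u * v * T 2)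
    {A A' : Fin 3 → ℝ} (a0 : A 0 * u = A' 0) (a1 : A 1 * u = A' 1) (a2 : A 2 * (u * v) = A' 2) (i : Fin 3) :
    bgv A (frx u v w w' tc yc r c f) p i = bgv A' f T i := by
  fin_cases i
  · show A 0 * (p 0 - (tc + u * f 0)) = A' 0 * (T 0 - f 0)
    rw [← a0]
    calc A 0 * (p 0 - (tc + u * f 0)) = A 0 * ((p 0 - tc) - u * f 0) := by ring
      _ = _ := by rw [h0]; ring
  · show A 1 * (p 1 - (yc + u * f 1)) = A' 1 * (T 1 - f 1)
    rw [← a1]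
    calc A 1 * (p 1 - (yc + u * f 1)) = A 1 * ((p 1 - yc) - u * f 1) := by ring
      _ = _ := by rw [h1]; ring
  · show A 2 * (p 2 - ((r 0 + u * v * f 2 - v * (f 3 * tc + f 4 * yc)) + (r 1 + v * f 3) * p 0 +
      (r 2 + v * f 4) * p 1)) = A' 2 * (T 2 - (f 2 + f 3 * T 0 + f 4 * T 1))
    rw [← a2]
    calc _ = A 2 * ((p 2 - (r 0 + r 1 * p 0 + r 2 * p 1)) - u * v * f 2 - v * f 3 * (p 0 - tc) -
          v * f 4 * (p 1 - yc)) := by ring
      _ = _ := by rw [h0, h1, h2]; ring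

theorem frx_bqv {u v w w' tc yc : ℝ} {r : Fin 3 → ℝ} {c : Fin 4 → ℝ} {f : Fin 9 → ℝ} {p T : Fin 4 → ℝ}
    (h0 : p 0 - tc = u * T 0) (h1 : p 1 - yc = u * T 1) (h2 : p 2 - (r 0 + r 1 * p 0 + r 2 * p 1) = u * v * T 2)
    (h3 : p 3 - (c 0 + c 1 * p 0 + c 2 * p 1 + c 3 * p 2) = u * w * T 3) (hw : w' * v = w)
    {A A' : Fin 3 → ℝ} (a0 : A 0 * u = A' 0) (a1 : A 1 * u = A' 1) (a2 : A 2 * (u * v) = A' 2) {θ θ' : ℝ}
    (hθ : θ = u * w * θ') (γ : Mon 3 D → ℝ) :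
    bqv A (frx u v w w' tc yc r c f) θ γ p = u * w * bqv A' f θ' γ T := by
  have e1 : ∀ i, bgv A (frx u v w w' tc yc r c f) p i = bgv A' f T i := frx_bgv h0 h1 h2 a0 a1 a2
  have e2 : p 3 - ((c 0 + u * w * f 5 - w * (f 6 * tc + f 7 * yc) - w' * f 8 * r 0) +
      (c 1 + w * f 6 - w' * f 8 * r 1) * p 0 + (c 2 + w * f 7 - w' * f 8 * r 2) * p 1 + (c 3 + w' * f 8) * p 2) =
      u * w * (T 3 - (f 5 + f 6 * T 0 + f 7 * T 1 + f 8 * T 2)) := by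
    calc _ = (p 3 - (c 0 + c 1 * p 0 + c 2 * p 1 + c 3 * p 2)) - u * w * f 5 - w * f 6 * (p 0 - tc) -
          w * f 7 * (p 1 - yc) - w' * f 8 * (p 2 - (r 0 + r 1 * p 0 + r 2 * p 1)) := by ring
      _ = u * w * T 3 - u * w * f 5 - w * f 6 * (u * T 0) - w * f 7 * (u * T 1) - (w' * v) * f 8 * (u * T 2) := by
          rw [h0, h1, h2, h3]; ring
      _ = _ := by rw [hw]; ring
  have e3 : bqv A (frx u v w w' tc yc r c f) θ γ p = (p 3 - ((c 0 + u * w * f 5 - w * (f 6 * tc + f 7 * yc) -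
      w' * f 8 * r 0) + (c 1 + w * f 6 - w' * f 8 * r 1) * p 0 + (c 2 + w * f 7 - w' * f 8 * r 2) * p 1 +
      (c 3 + w' * f 8) * p 2)) - θ * ∑ a, γ a * ∏ i, bgv A (frx u v w w' tc yc r c f) p i ^ (a.1 i : ℕ) := rfl
  rw [e3, e2, hθ]
  simp only [e1]
  unfold bqv
  ring

/-- bounds of the slopes -/
theorem frx_slope {u v w w' tc yc : ℝ} {r : Fin 3 → ℝ} {c : Fin 4 → ℝ} {f : Fin 9 → ℝ} {N M : ℝ} (hM : 1 ≤ M)
    (hN : 1 ≤ N) (hv0 : 0 ≤ v) (hv : v ≤ 1) (hw0 : 0 ≤ w) (hw : w ≤ N) (hw0' : 0 ≤ w') (hw' : w' ≤ N)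
    (hr : ∀ i, |r i| ≤ M) (hc : ∀ i, |c i| ≤ M) (hf : ∀ j, j ≠ 0 → j ≠ 1 → j ≠ 2 → j ≠ 5 → |f j| ≤ M) (j : Fin 9)
    (j0 : j ≠ 0) (j1 : j ≠ 1) (j2 : j ≠ 2) (j5 : j ≠ 5) : |frx u v w w' tc yc r c f j| ≤ 3 * N * M ^ 2 := by
  have f3 := hf 3 (by decide) (by decide) (by decide) (by decide)
  have f4 := hf 4 (by decide) (by decide) (by decide) (by decide)
  have f6 := hf 6 (by decide) (by decide) (by decide) (by decide)
  have f7 := hf 7 (by decide) (by decide) (by decide) (by decide)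
  have f8 := hf 8 (by decide) (by decide) (by decide) (by decide)
  have hM2 : M ≤ M ^ 2 := by nlinarith
  have hM0 : 0 ≤ M := by linarith
  have hN0 : 0 ≤ N := by linarith
  have hNM : M ≤ N * M := by nlinarith
  have hNM2 : N * M ≤ N * M ^ 2 := mul_le_mul_of_nonneg_left hM2 hN0
  have b1 : ∀ a y : ℝ, 0 ≤ a → a ≤ N → |y| ≤ M → |a * y| ≤ N * M := by
    intro a y h1 h2 h3
    rw [abs_mul, abs_of_nonneg h1]
    exact mul_le_mul h2 h3 (abs_nonneg _) hN0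
  have b2 : ∀ a y z : ℝ, 0 ≤ a → a ≤ N → |y| ≤ M → |z| ≤ M → |a * y * z| ≤ N * M ^ 2 := by
    intro a y z h1 h2 h3 h4
    rw [abs_mul]
    calc |a * y| * |z| ≤ (N * M) * M := mul_le_mul (b1 a y h1 h2 h3) h4 (abs_nonneg _) (by positivity)
      _ = N * M ^ 2 := by ring
  have hv1 : v ≤ N := hv.trans hN
  fin_cases j
  · exact absurd rfl j0
  · exact absurd rfl j1
  · exact absurd rfl j2
  · show |r 1 + v * f 3| ≤ _
    have := abs_add_le (r 1) (v * f 3)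
    have := b1 v _ hv0 hv1 f3
    have := hr 1
    linarith
  · show |r 2 + v * f 4| ≤ _
    have := abs_add_le (r 2) (v * f 4)
    have := b1 v _ hv0 hv1 f4
    have := hr 2
    linarith
  · exact absurd rfl j5
  · show |c 1 + w * f 6 - w' * f 8 * r 1| ≤ _
    have := abs_sub (c 1 + w * f 6) (w' * f 8 * r 1)
    have := abs_add_le (c 1) (w * f 6)
    have := b1 w _ hw0 hw f6
    have := b2 w' _ _ hw0' hw' f8 (hr 1)
    have := hc 1
    linarith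
  · show |c 2 + w * f 7 - w' * f 8 * r 2| ≤ _
    have := abs_sub (c 2 + w * f 7) (w' * f 8 * r 2)
    have := abs_add_le (c 2) (w * f 7)
    have := b1 w _ hw0 hw f7
    have := b2 w' _ _ hw0' hw' f8 (hr 2)
    have := hc 2
    linarith
  · show |c 3 + w' * f 8| ≤ _
    have := abs_add_le (c 3) (w' * f 8)
    have := b1 w' _ hw0' hw' f8
    have := hc 3
    linarith

end

end Pool.Agent.Helper88.NSK
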