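import Pool.Agent.Helper88.NSK.KlO
import Pool.Agent.Helper71.AGR.Fld
import Pool.Agent.Helper98.LV.Seq

/-! THE KILL OF CASE B at the corner of a box, and along a sequence of boxes at a typical window: the output of the
diagonal contradicts the maximality of the depth. -/

set_option autoImplicit false

namespace Pool.Agent.Helper88.NSK

open Finset Filter Topology Pool.Agent.Helper69.RK Pool.Agent.Helper31.EC Pool.Agent.Helper31.EC.Sp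
open Pool.Agent.Helper40.EL Pool.Agent.Helper52.KP Pool.Agent.Helper89.LX Pool.Agent.Helper3.LF
open Pool.Agent.Helper42.NS Pool.Agent.Helper51.KL Pool.Agent.Helper98.FR Pool.Agent.Helper80.HCI
open Pool.Agent.Helper82.TP
open Pool.Agent.Helper79.NF Pool.Agent.Helper31.NSB
open Pool.Agent.Helper71.AGR (L_up B_up)
open Pool.Agent.Helper57.TA (sc)

noncomputable section

open Sp QS

/-! ### the degree of the output -/

/-- inclusion of monomials -/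
def mu {N D D' : ℕ} (h : D' ≤ D) (a : Mon N D') : Mon N D :=
  ⟨fun i => ⟨(a.1 i : ℕ), by have := (a.1 i).2; omega⟩, a.2.trans h⟩

theorem mu_inj {N D D' : ℕ} (h : D' ≤ D) : Function.Injective (mu (N := N) h) := by
  intro a b hab
  apply Subtype.ext
  funext i
  apply Fin.ext
  have h1 : (((mu h a).1 i : Fin (D + 1)) : ℕ) = (((mu h b).1 i : Fin (D + 1)) : ℕ) := by rw [hab]
  exact h1

open Classical in
/-- extension of coefficients by zero -/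
def cex {R : Type*} [Zero R] {N D D' : ℕ} (h : D' ≤ D) (c : Mon N D' → R) (a : Mon N D) : R :=
  if h1 : ∃ b, mu h b = a then c h1.choose else 0

theorem cex_mu {R : Type*} [Zero R] {N D D' : ℕ} (h : D' ≤ D) (c : Mon N D' → R) (b : Mon N D') :
    cex h c (mu h b) = c b := by
  have h1 : ∃ b', mu h b' = mu h b := ⟨b, rfl⟩
  have h2 : cex h c (mu h b) = c h1.choose := dif_pos h1
  rw [h2, mu_inj h h1.choose_spec]

theorem cex_of {R : Type*} [Zero R] {N D D' : ℕ} (h : D' ≤ D) (c : Mon N D' → R) (a : Mon N D) :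
    (∃ b, cex h c a = c b ∧ mu h b = a) ∨ (cex h c a = 0 ∧ ∀ b, mu h b ≠ a) := by
  by_cases h1 : ∃ b, mu h b = a
  · obtain ⟨b, rfl⟩ := h1
    exact Or.inl ⟨b, cex_mu h c b, rfl⟩
  · exact Or.inr ⟨dif_neg h1, fun b hb => h1 ⟨b, hb⟩⟩

theorem sum_cex {R : Type*} [CommRing R] {N D D' : ℕ} (h : D' ≤ D) (c : Mon N D' → R) (g : Fin N → R) :
    ∑ a, cex h c a * ∏ i, g i ^ (a.1 i : ℕ) = ∑ b, c b * ∏ i, g i ^ (b.1 i : ℕ) := by
  symm
  refine Fintype.sum_of_injective (mu h) (mu_inj h) _ _ (fun a ha => ?_) fun b => ?_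
  · rcases cex_of h c a with ⟨b, -, hb⟩ | ⟨h1, -⟩
    · exact absurd ⟨b, hb⟩ ha
    · rw [h1, zero_mul]
  · rw [cex_mu]
    rfl

/-- the output of degree `D'` is an output of degree `D` -/
theorem OutL.mono_D {S : Sp} {H : RD S} {f : FR S} {w1 w s0 s v : ℝ} {D' D : ℕ} (h : D' ≤ D)
    (out : OutL H f w1 w D' s0 s v) : OutL H f w1 w D s0 s v := by
  obtain ⟨hv, hs, hw, E, hE, cA, cB, g, lA, lB, hAB, hbox, hz⟩ := out
  refine ⟨hv, hs, hw, E, hE, cex h cA, cex h cB, g, fun a => ?_, fun a => ?_, fun a => ?_, hbox, ?_⟩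
  · rcases cex_of h cA a with ⟨b, h1, -⟩ | ⟨h1, -⟩
    · rw [h1]
      exact lA b
    · rw [h1]
      exact ⟨0, map_zero _, Eventually.of_forall fun _ _ _ _ _ _ _ => rfl⟩
  · rcases cex_of h cB a with ⟨b, h1, -⟩ | ⟨h1, -⟩
    · rw [h1]
      exact lB b
    · rw [h1]
      exact ⟨0, map_zero _, Eventually.of_forall fun _ _ _ _ _ _ _ => rfl⟩
  · rcases cex_of h cA a with ⟨b, h1, h2⟩ | ⟨h1, h2⟩
    · subst h2
      rw [cex_mu, cex_mu]
      exact hAB b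
    · rcases cex_of h cB a with ⟨b, -, h3⟩ | ⟨h3, -⟩
      · exact absurd h3 (h2 b)
      · rw [h1, h3, sub_zero, map_zero]
        exact Ideal.zero_mem _
  · rw [sum_cex]
    exact hz

/-! ### the kill at the corner of a box -/

variable {S : Sp} {s : Sys S 3} {q lam eta : ℕ → ℝ} {L : ℕ → Lab S}

/-- THE KILL at the corner of a box with frames `g` -/
theorem kill_rd (hR : RobH s) (b : Bx s q lam eta L) (i0 : ℕ) {e : ℝ} (he : 0 < e) {ηn : ℝ} (hη : ηn ≤ b.bd.eta i0)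
    (ix : ℝ → ℕ) {Sc : Set ℝ} (g : Fin 9 → Sc → TR (b.bd.Sj i0 e he))
    (hg : ∀ (i : Fin 9) (r : Sc), ∀ᶠ k in UF, FLit ((b.bd.Sj i0 e he).F k)
      ((b.ld.rd i0 e he ηn hη ix).K r k) ((g i r).1 k))
    {w1 w ε : ℝ} (fe : FrE (b.ld.rd i0 e he ηn hη ix) (frOf g) w1 w Sc ε) {D : ℕ} (hD : 1 ≤ D)
    {s0 s1 v κ p η : ℝ} (h0 : s0 ∈ Sc) (hκ : κ = kk D w1 w s0 s1 v) (hε : ε ≤ κ) (hv : 0 < v)
    (hs0 : 0 ≤ s0) (hs1 : s0 ≤ s1) (hw1 : 1 ≤ w1) (hw : 1 ≤ w) (hws : w1 * s0 + w * (s1 - s0) < 1)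
    (hwv : w * s1 + v ≤ 1) (hi0 : q i0 ≤ q (ix s1)) (hi1 : q (ix s0) ≤ q (ix s1)) (n1 : lam i0 + e ≤ 1)
    (n3 : ηn + e ≤ 1) (n4 : lam i0 + w1 * s0 * e ≤ ηn + w * s0 * e + κ * e) (n4' : lam i0 ≤ ηn + κ * e)
    (hp : 0 < p) (hηκ : η ≤ κ) {E0 : ∀ k, ((b.bd.Sj i0 e he).F k).Ω → Prop}
    (hE0 : Typ (S := b.bd.Sj i0 e he) E0)
    (out : OutE (rdt (b.ld.rd i0 e he ηn hη ix) E0) (fun i => b.ld.r10 i0 e he ηn hη i)
      (fun i => trf E0 (g i ⟨s0, h0⟩)) w1 w D s0 s1 v p η) :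
    Hf s D (q (ix s1)) (ηn + (w * s1 + vk w1 w s0 s1 v / 2) * e) := by
  have hκ0 : 0 < κ := by rw [hκ]; exact kk_pos hv hws
  have hw0 : 0 ≤ w * (s1 - s0) := mul_nonneg (by linarith) (by linarith)
  have hw1s : w1 * s0 ≤ 1 := by linarith
  have hs0w : s0 ≤ w1 * s0 := by nlinarith
  have e1 : w1 * s0 * e ≤ 1 * e := mul_le_mul_of_nonneg_right hw1s he.le
  have e2 : s0 * e ≤ w1 * s0 * e := mul_le_mul_of_nonneg_right hs0w he.le
  have e3 : 0 < κ * e := mul_pos hκ0 he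
  have hq := b.qlam i0
  have hVA : io (S := b.bd.Sj i0 e he) (b.ld.rd i0 e he ηn hη ix).VA ≤ (b.M.lab i0).upL e he
      (cl (Inf.sup (Inf.sup (s.Ia 1) (s.Ix 1)) (s.It (q (ix s1))))) := by
    rw [cl_A]
    exact (fe.iA.le.trans (L_up b i0 he hη ix n1 n3)).trans ((b.M.lab i0).upL_mono e he le_sup_left)
  have hVB : io (S := b.bd.Sj i0 e he) (b.ld.rd i0 e he ηn hη ix).VB ≤ (b.M.lab i0).upL e he
      (cl (Inf.sup (s.IP 1) (s.It 1))) := by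
    rw [cl_B]
    exact fe.iB.le.trans (B_up b i0 he hη ix n1 n3)
  have k1 : (∀ᶠ k in UF, ∀ ω ω', (b.M.sp.F k).μ ω ≠ 0 → (b.M.sp.F k).μ ω' ≠ 0 → (b.M k).V (ix s1) ω ω' →
      (b.M.sp.F k).Z ω ω' → (b.ld.rd i0 e he ηn hη ix).K s0 k ω = (b.ld.rd i0 e he ηn hη ix).K s0 k ω') :=
    Eventually.of_forall fun k ω ω' _ _ hz _ => Quotient.sound (b.nest (ix s0) (ix s1) hi1 k hz)
  have k2 : (∀ᶠ k in UF, ∀ ω ω', (b.M.sp.F k).μ ω ≠ 0 → (b.M.sp.F k).μ ω' ≠ 0 → (b.M k).V (ix s1) ω ω' →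
      (b.M.sp.F k).Z ω ω' → (b.ld.rd i0 e he ηn hη ix).K s1 k ω = (b.ld.rd i0 e he ηn hη ix).K s1 k ω') :=
    Eventually.of_forall fun k ω ω' _ _ hz _ => Quotient.sound hz
  have a1 : Bdd (S := b.bd.Sj i0 e he) (b.ld.rd i0 e he ηn hη ix).VA := ⟨_, b.ld.nvA i0 e he ηn hη ix⟩
  have a2 := nul_of_io b he hi0 a1 hVA
  rw [← cA_eq] at a2
  have b1 : Bdd (S := b.bd.Sj i0 e he) (b.ld.rd i0 e he ηn hη ix).VB := ⟨_, b.ld.nvB i0 e he ηn hη ix⟩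
  have b2 := nul_of_io b he hi0 b1 hVB
  rw [← cB_eq] at b2
  have f1 := Id_anti (show s0 - κ ≤ s0 by linarith) (fe.ft s0 h0).1
  have f2 := Id_anti (show s0 - κ ≤ s0 by linarith) (fe.fy s0 h0).1
  have f3 := Id_anti (show w1 * s0 - κ ≤ w1 * s0 - ε by linarith) (fe.frR s0 h0)
  exact kill_fin hR b he hi0 hη hD hκ hv hs0 hs1 hw1 hw hws hwv (by linarith) (by linarith) n3 n4 n4' hp hηκ
    (H := b.ld.rd i0 e he ηn hη ix) (f := frOf g) hE0 rfl rfl rfl rfl (fun i => b.ld.r10 i0 e he ηn hη i)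
    (b.ld.r10_mk i0 e he ηn hη ix)
    (fun i => g i ⟨s0, h0⟩) (fun i => frOf_f9 g i ⟨s0, h0⟩) (fun i => hg i ⟨s0, h0⟩)
    f1 f2 f3 k1 k2 a2 b2 out

/-! ### the kill along the sequence of boxes -/

open Pool.Agent.Helper98.LV Pool.Agent.Helper30.UNS

/-- THE KILL along the sequence of boxes at a typical window -/
theorem kill_core (hR : RobH s) {lamf etaf : ℝ → ℝ} {c w1 w σ A : ℝ} {N : Scl σ A} (Q : Sq s lamf etaf c w1 w N)
    {D : ℕ} (hD : 1 ≤ D) {s0 s1 v p : ℝ} (h0 : s0 ∈ N.Sc) (h1 : s1 ∈ N.Sc) (hs1 : s0 ≤ s1) (hv : 0 < v) (hp : 0 < p)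
    (hw1 : 1 ≤ w1) (hw : 1 ≤ w) (hws : w1 * s0 + w * (s1 - s0) < 1) (hwv : w * s1 + v ≤ 1)
    (E0 : ∀ j k, (((Q.X j).b.bd.Sj 0 (Q.e j) (Q.he j)).F k).Ω → Prop)
    (hE0 : ∀ j, Typ (S := (Q.X j).b.bd.Sj 0 (Q.e j) (Q.he j)) (E0 j))
    (out : ∀ η : ℚ, 0 < η → ∀ M : ℕ, ∃ j, M ≤ j ∧ OutE (rdt ((Q.X j).b.ld.rd 0 (Q.e j) (Q.he j)
      (lvt etaf c (Q.ε j) (Q.e j)) (Cb.lvt_le (Q.hε j) (Q.he j) (Q.X j)) N.ix) (E0 j))
      (fun i => (Q.X j).b.ld.r10 0 (Q.e j) (Q.he j) (lvt etaf c (Q.ε j) (Q.e j))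
        (Cb.lvt_le (Q.hε j) (Q.he j) (Q.X j)) i)
      (fun i => trf (E0 j) (Q.g j i ⟨s0, h0⟩)) w1 w D s0 s1 v p η)
    (hle : lamf c ≤ etaf c) (heq : lamf c = etaf c → w1 ≤ w) (hc : etaf c < 1) (hh : HasDerivAt etaf w c)
    (kill : ∀ᶠ x in 𝓝 c, ∀ sg, Hf s D x sg → sg ≤ etaf x) : False := by
  obtain ⟨κ, hκ⟩ : ∃ κ, κ = kk D w1 w s0 s1 v := ⟨_, rfl⟩
  have hκ0 : 0 < κ := by rw [hκ]; exact kk_pos hv hws
  obtain ⟨V, hV⟩ : ∃ V, V = vk w1 w s0 s1 v := ⟨_, rfl⟩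
  have hV0 : 0 < V := by rw [hV]; exact vk_pos hv hws
  have hκV : κ ≤ V / 4 := by
    have h2 := (kk_le D hv hws).1
    rw [← hκ, ← hV] at h2
    have hD' : (1 : ℝ) ≤ D := by exact_mod_cast hD
    nlinarith
  have hs0 : 0 ≤ s0 := N.Sc_nn h0
  have hs1' : 0 ≤ s1 := N.Sc_nn h1
  obtain ⟨η, hη0, hη1⟩ := exists_rat_btwn hκ0
  obtain ⟨e1, he1, hinc⟩ := incr_e hh hs1' (show 0 < V / 8 by linarith)
  obtain ⟨e2, he2, hnear⟩ : ∃ e2 : ℝ, 0 < e2 ∧ ∀ e, 0 < e → e < e2 → ∀ sg, Hf s D (c + e * s1) sg →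
      sg ≤ etaf (c + e * s1) := by
    obtain ⟨d, hd, h2⟩ := Metric.eventually_nhds_iff.mp kill
    refine ⟨d / (s1 + 1), by positivity, fun e he hee sg hsg => h2 ?_ sg hsg⟩
    rw [Real.dist_eq, add_sub_cancel_left, abs_of_nonneg (mul_nonneg he.le hs1')]
    rw [lt_div_iff₀ (by positivity)] at hee
    nlinarith
  have ev : ∀ᶠ j in atTop, Q.ε j < κ ∧ Q.e j < e1 ∧ Q.e j < e2 ∧ Q.e j < 1 - etaf c ∧
      (lamf c < etaf c → Q.e j < etaf c - lamf c) := by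
    have a5 : ∀ᶠ j in atTop, (lamf c < etaf c → Q.e j < etaf c - lamf c) := by
      by_cases h : lamf c < etaf c
      · filter_upwards [Q.e0.eventually (gt_mem_nhds (show 0 < etaf c - lamf c by linarith))] with j hj _ using hj
      · exact Eventually.of_forall fun j h' => absurd h' h
    filter_upwards [Q.ε0.eventually (gt_mem_nhds hκ0), Q.e0.eventually (gt_mem_nhds he1),
      Q.e0.eventually (gt_mem_nhds he2), Q.e0.eventually (gt_mem_nhds (show 0 < 1 - etaf c by linarith)), a5]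
      with j b1 b2 b3 b4 b5
    exact ⟨b1, b2, b3, b4, b5⟩
  obtain ⟨M, hM⟩ := eventually_atTop.mp ev
  obtain ⟨j, hj, hout⟩ := out η (by exact_mod_cast hη0) M
  obtain ⟨b1, b2, b3, b4, b5⟩ := hM j hj
  have hej := Q.he j
  have hεe : 0 < Q.ε j * Q.e j := mul_pos (Q.hε j) hej
  have hεκ : Q.ε j * Q.e j ≤ κ * Q.e j := mul_le_mul_of_nonneg_right b1.le hej.le
  have q0 : c + Q.e j * N.ν 0 = c := Cb.q0
  have q1 : c + Q.e j * N.ν (N.ix s1) = c + Q.e j * s1 := by rw [N.ix_eq h1]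
  have q2 : c + Q.e j * N.ν (N.ix s0) = c + Q.e j * s0 := by rw [N.ix_eq h0]
  have hw0 : 0 ≤ w * (s1 - s0) := mul_nonneg (by linarith) (by linarith)
  have hw1s : w1 * s0 ≤ 1 := by linarith
  have c1 : w1 * s0 * Q.e j ≤ 1 * Q.e j := mul_le_mul_of_nonneg_right hw1s hej.le
  have c2 : 0 ≤ w * s0 * Q.e j := by positivity
  have m1 : c + Q.e j * N.ν 0 ≤ c + Q.e j * N.ν (N.ix s1) := by
    rw [q0, q1]
    have := mul_nonneg hej.le hs1'
    linarith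
  have m2 : c + Q.e j * N.ν (N.ix s0) ≤ c + Q.e j * N.ν (N.ix s1) := by
    rw [q1, q2]
    have := mul_le_mul_of_nonneg_left hs1 hej.le
    linarith
  have m3 : lamf (c + Q.e j * N.ν 0) + Q.e j ≤ 1 := by
    rw [q0]
    linarith
  have m4 : lvt etaf c (Q.ε j) (Q.e j) + Q.e j ≤ 1 := by
    unfold lvt
    linarith
  have m5 : lamf (c + Q.e j * N.ν 0) + w1 * s0 * Q.e j ≤ lvt etaf c (Q.ε j) (Q.e j) + w * s0 * Q.e j + κ * Q.e j := by
    rw [q0]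
    unfold lvt
    rcases hle.eq_or_lt with h2 | h2
    · have h3 : w1 * s0 * Q.e j ≤ w * s0 * Q.e j :=
        mul_le_mul_of_nonneg_right (mul_le_mul_of_nonneg_right (heq h2) hs0) hej.le
      linarith
    · have := b5 h2
      linarith
  have m6 : lamf (c + Q.e j * N.ν 0) ≤ lvt etaf c (Q.ε j) (Q.e j) + κ * Q.e j := by
    rw [q0]
    unfold lvt
    linarith
  have key := kill_rd hR (Q.X j).b 0 hej (Cb.lvt_le (Q.hε j) hej (Q.X j)) N.ix (Q.g j) (fun i r => Q.hg i r j) (Q.fre j)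
    hD h0 hκ b1.le hv hs0 hs1 hw1 hw hws hwv m1 m2 m3 m4 m5 m6 hp hη1.le (hE0 j) hout
  rw [q1, ← hV] at key
  have h2 := hnear (Q.e j) hej b3 _ key
  have h3 : etaf (c + Q.e j * s1) - etaf c - w * s1 * Q.e j ≤ V / 8 * Q.e j := by
    have h6 := (abs_le.mp (hinc (Q.e j) hej b2.le s1 (abs_of_nonneg hs1').le)).2
    rwa [mul_comm s1 (Q.e j)] at h6
  unfold lvt at h2
  have h4 : κ * Q.e j ≤ V / 4 * Q.e j := mul_le_mul_of_nonneg_right hκV hej.le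
  have h5 : 0 < V * Q.e j := mul_pos hV0 hej
  linarith

end

end Pool.Agent.Helper88.NSK
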