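import Pool.Agent.Helper3.LF.Eta

/-! The polynomial `q - λ c(aff)`: values on a small cell around a point at which `q ≈ λ z`, `z ≈ c(x)` and
`x ≈ aff`; derivative in a direction in which the affine functions `aff` are almost constant. -/

set_option autoImplicit false

namespace Pool.Agent.Helper88.NSK

open Finset MvPolynomial Pool.Agent.Helper3.LF

noncomputable section

variable {N M K0 : ℕ}

/-- affine functions -/
def aff (b0 : Fin M → ℝ) (b1 : Fin M → Fin N → ℝ) (i : Fin M) : MvPolynomial (Fin N) ℝ :=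
  C (b0 i) + ∑ j, C (b1 i j) * X j

/-- a polynomial of affine functions -/
def sbp (c : Mon M K0 → ℝ) (b0 : Fin M → ℝ) (b1 : Fin M → Fin N → ℝ) : MvPolynomial (Fin N) ℝ :=
  ∑ a, C (c a) * ∏ i, aff b0 b1 i ^ (a.1 i : ℕ)

theorem eval_aff (b0 : Fin M → ℝ) (b1 : Fin M → Fin N → ℝ) (i : Fin M) (y : Fin N → ℝ) :
    eval y (aff b0 b1 i) = b0 i + ∑ j, b1 i j * y j := by
  unfold aff
  simp

theorem eval_sbp (c : Mon M K0 → ℝ) (b0 : Fin M → ℝ) (b1 : Fin M → Fin N → ℝ) (y : Fin N → ℝ) :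
    eval y (sbp c b0 b1) = ∑ a, c a * ∏ i, (b0 i + ∑ j, b1 i j * y j) ^ (a.1 i : ℕ) := by
  unfold sbp
  simp only [map_sum, map_mul, eval_C, map_prod, map_pow, eval_aff]

theorem deg_aff (b0 : Fin M → ℝ) (b1 : Fin M → Fin N → ℝ) (i : Fin M) : (aff b0 b1 i).totalDegree ≤ 1 := by
  unfold aff
  refine (totalDegree_add _ _).trans (max_le ?_ ?_)
  · rw [totalDegree_C]; exact Nat.zero_le _
  · apply totalDegree_finsetSum_le
    intro j _
    refine (totalDegree_mul _ _).trans ?_
    rw [totalDegree_C, totalDegree_X]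

theorem deg_sbp (c : Mon M K0 → ℝ) (b0 : Fin M → ℝ) (b1 : Fin M → Fin N → ℝ) : (sbp c b0 b1).totalDegree ≤ K0 := by
  unfold sbp
  apply totalDegree_finsetSum_le
  intro a _
  refine (totalDegree_mul _ _).trans ?_
  rw [totalDegree_C, zero_add]
  refine (totalDegree_finsetProd _ _).trans ?_
  refine le_trans (Finset.sum_le_sum fun i _ => ?_) a.2
  refine (totalDegree_pow _ _).trans ?_
  have := deg_aff b0 b1 i
  nlinarith

/-- products of powers are Lipschitz -/
theorem prod_pow_lip {ι : Type} (s : Finset ι) (x y : ι → ℝ) (e : ι → ℕ) (R η : ℝ) (hR : 1 ≤ R) (hη : 0 ≤ η)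
    (hx : ∀ i ∈ s, |x i| ≤ R) (hy : ∀ i ∈ s, |y i| ≤ R) (hd : ∀ i ∈ s, |x i - y i| ≤ η) :
    |∏ i ∈ s, x i ^ e i - ∏ i ∈ s, y i ^ e i| ≤ (∑ i ∈ s, (e i : ℝ)) * R ^ (∑ i ∈ s, e i) * η := by
  classical
  have hpow : ∀ (u v : ℝ) (n : ℕ), |u| ≤ R → |v| ≤ R → |u - v| ≤ η → |u ^ n - v ^ n| ≤ n * R ^ n * η := by
    intro u v n hu hv huv
    induction n with
    | zero => simp
    | succ n ih =>
      have e1 : u ^ (n + 1) - v ^ (n + 1) = u ^ n * (u - v) + (u ^ n - v ^ n) * v := by ring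
      rw [e1]
      refine (abs_add_le _ _).trans ?_
      rw [abs_mul, abs_mul, abs_pow]
      have h1 : |u| ^ n ≤ R ^ n := pow_le_pow_left₀ (abs_nonneg _) hu n
      have hRn : 0 ≤ R ^ n := by positivity
      have h2 : |u| ^ n * |u - v| ≤ R ^ n * η := mul_le_mul h1 huv (abs_nonneg _) hRn
      have h3 : |u ^ n - v ^ n| * |v| ≤ (n * R ^ n * η) * R :=
        mul_le_mul ih hv (abs_nonneg _) (by positivity)
      have h4 : R ^ n * η ≤ R ^ (n + 1) * η := by
        apply mul_le_mul_of_nonneg_right _ hη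
        exact pow_le_pow_right₀ hR (Nat.le_succ n)
      push_cast
      calc |u| ^ n * |u - v| + |u ^ n - v ^ n| * |v| ≤ R ^ (n + 1) * η + (n * R ^ n * η) * R := by linarith
        _ = (n + 1) * R ^ (n + 1) * η := by ring
  have hpb : ∀ (u : ℝ) (n : ℕ), |u| ≤ R → |u ^ n| ≤ R ^ n := by
    intro u n hu
    rw [abs_pow]
    exact pow_le_pow_left₀ (abs_nonneg _) hu n
  induction s using Finset.induction_on with
  | empty => simp
  | insert i s hi ih =>
    rw [Finset.prod_insert hi, Finset.prod_insert hi, Finset.sum_insert hi, Finset.sum_insert hi]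
    have ih' := ih (fun j hj => hx j (Finset.mem_insert_of_mem hj)) (fun j hj => hy j (Finset.mem_insert_of_mem hj))
      (fun j hj => hd j (Finset.mem_insert_of_mem hj))
    have hxi := hx i (Finset.mem_insert_self i s)
    have hyi := hy i (Finset.mem_insert_self i s)
    have hdi := hd i (Finset.mem_insert_self i s)
    have e1 : x i ^ e i * ∏ j ∈ s, x j ^ e j - y i ^ e i * ∏ j ∈ s, y j ^ e j =
        x i ^ e i * (∏ j ∈ s, x j ^ e j - ∏ j ∈ s, y j ^ e j) + (x i ^ e i - y i ^ e i) * ∏ j ∈ s, y j ^ e j := by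
      ring
    rw [e1]
    refine (abs_add_le _ _).trans ?_
    rw [abs_mul, abs_mul]
    have h1 := hpb _ (e i) hxi
    have h2 := hpow _ _ (e i) hxi hyi hdi
    have h3 : |∏ j ∈ s, y j ^ e j| ≤ R ^ (∑ j ∈ s, e j) := by
      rw [Finset.abs_prod, ← Finset.prod_pow_eq_pow_sum]
      apply Finset.prod_le_prod (fun _ _ => abs_nonneg _)
      intro j hj
      exact hpb _ _ (hy j (Finset.mem_insert_of_mem hj))
    have hR0 : 0 ≤ R := by linarith
    have h4 : |x i ^ e i| * |∏ j ∈ s, x j ^ e j - ∏ j ∈ s, y j ^ e j| ≤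
        R ^ e i * ((∑ j ∈ s, (e j : ℝ)) * R ^ (∑ j ∈ s, e j) * η) :=
      mul_le_mul h1 ih' (abs_nonneg _) (by positivity)
    have h5 : |x i ^ e i - y i ^ e i| * |∏ j ∈ s, y j ^ e j| ≤ (e i * R ^ e i * η) * R ^ (∑ j ∈ s, e j) :=
      mul_le_mul h2 h3 (abs_nonneg _) (by positivity)
    refine (add_le_add h4 h5).trans (le_of_eq ?_)
    rw [pow_add]
    ring

/-- products of powers are bounded -/
theorem prod_pow_le {ι : Type} (s : Finset ι) (x : ι → ℝ) (e : ι → ℕ) (R : ℝ) (hx : ∀ i ∈ s, |x i| ≤ R) :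
    |∏ i ∈ s, x i ^ e i| ≤ R ^ (∑ i ∈ s, e i) := by
  rw [Finset.abs_prod, ← Finset.prod_pow_eq_pow_sum]
  apply Finset.prod_le_prod (fun _ _ => abs_nonneg _)
  intro j hj
  rw [abs_pow]
  exact pow_le_pow_left₀ (abs_nonneg _) (hx j hj) _

/-- the derivative in the direction `u` -/
def Du (u : Fin N → ℝ) : Derivation ℝ (MvPolynomial (Fin N) ℝ) (MvPolynomial (Fin N) ℝ) := ∑ j, u j • pderiv j

theorem Du_apply (u : Fin N → ℝ) (q : MvPolynomial (Fin N) ℝ) : Du u q = ∑ j, u j • pderiv j q := by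
  classical
  have h : ∀ t : Finset (Fin N), (∑ j ∈ t, u j • pderiv j : Derivation ℝ (MvPolynomial (Fin N) ℝ)
      (MvPolynomial (Fin N) ℝ)) q = ∑ j ∈ t, u j • pderiv j q := by
    intro t
    induction t using Finset.induction_on with
    | empty => rw [Finset.sum_empty, Finset.sum_empty, Derivation.zero_apply]
    | insert i s hi ih => rw [Finset.sum_insert hi, Finset.sum_insert hi, Derivation.add_apply, ih,
        Derivation.smul_apply]
  exact h Finset.univ

theorem eval_Du (u : Fin N → ℝ) (q : MvPolynomial (Fin N) ℝ) (p : Fin N → ℝ) :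
    eval p (Du u q) = ∑ j, u j * eval p (pderiv j q) := by
  rw [Du_apply, map_sum]
  apply Finset.sum_congr rfl
  intro j _
  rw [smul_eq_C_mul, map_mul, eval_C]

theorem Du_aff (u : Fin N → ℝ) (b0 : Fin M → ℝ) (b1 : Fin M → Fin N → ℝ) (i : Fin M) :
    Du u (aff b0 b1 i) = C (∑ j, u j * b1 i j) := by
  rw [Du_apply]
  unfold aff
  rw [map_sum]
  apply Finset.sum_congr rfl
  intro j _
  rw [map_add, pderiv_C, zero_add, map_sum, Finset.sum_eq_single j]
  · rw [pderiv_mul, pderiv_C, pderiv_X_self, zero_mul, zero_add, mul_one, smul_eq_C_mul, ← map_mul]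
  · intro k _ hk
    rw [pderiv_mul, pderiv_C, pderiv_X_of_ne hk, zero_mul, zero_add, mul_zero]
  · intro h
    exact absurd (Finset.mem_univ j) h

/-- derivatives of products of powers -/
theorem Du_prod_le {ι : Type} (s : Finset ι) (f : ι → MvPolynomial (Fin N) ℝ) (e : ι → ℕ) (u p : Fin N → ℝ) (R G : ℝ)
    (hR : 1 ≤ R) (hG : 0 ≤ G) (hf : ∀ i ∈ s, |eval p (f i)| ≤ R) (hd : ∀ i ∈ s, |eval p (Du u (f i))| ≤ G) :
    |eval p (Du u (∏ i ∈ s, f i ^ e i))| ≤ (∑ i ∈ s, (e i : ℝ)) * R ^ (∑ i ∈ s, e i) * G := by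
  classical
  have hpow : ∀ (g : MvPolynomial (Fin N) ℝ) (n : ℕ), |eval p g| ≤ R → |eval p (Du u g)| ≤ G →
      |eval p (Du u (g ^ n))| ≤ n * R ^ n * G := by
    intro g n h1 h2
    induction n with
    | zero =>
      rw [pow_zero, Derivation.map_one_eq_zero, map_zero, abs_zero]
      positivity
    | succ n ih =>
      rw [pow_succ, Derivation.leibniz, smul_eq_mul, smul_eq_mul, map_add, map_mul, map_mul, map_pow]
      refine (abs_add_le _ _).trans ?_
      rw [abs_mul, abs_mul, abs_pow]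
      have h3 : |eval p g| ^ n * |eval p (Du u g)| ≤ R ^ n * G :=
        mul_le_mul (pow_le_pow_left₀ (abs_nonneg _) h1 n) h2 (abs_nonneg _) (by positivity)
      have h4 : |eval p g| * |eval p (Du u (g ^ n))| ≤ R * (n * R ^ n * G) :=
        mul_le_mul h1 ih (abs_nonneg _) (by linarith)
      have h5 : R ^ n * G ≤ R ^ (n + 1) * G :=
        mul_le_mul_of_nonneg_right (pow_le_pow_right₀ hR (Nat.le_succ n)) hG
      push_cast
      calc |eval p g| ^ n * |eval p (Du u g)| + |eval p g| * |eval p (Du u (g ^ n))|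
          ≤ R ^ (n + 1) * G + R * (n * R ^ n * G) := by linarith
        _ = (n + 1) * R ^ (n + 1) * G := by ring
  induction s using Finset.induction_on with
  | empty =>
    rw [Finset.prod_empty, Derivation.map_one_eq_zero, map_zero, abs_zero]
    simp
  | insert i s hi ih =>
    have ih' := ih (fun j hj => hf j (Finset.mem_insert_of_mem hj)) (fun j hj => hd j (Finset.mem_insert_of_mem hj))
    have hfi := hf i (Finset.mem_insert_self i s)
    have hdi := hd i (Finset.mem_insert_self i s)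
    rw [Finset.prod_insert hi, Finset.sum_insert hi, Finset.sum_insert hi, Derivation.leibniz, smul_eq_mul,
      smul_eq_mul, map_add, map_mul, map_mul]
    refine (abs_add_le _ _).trans ?_
    rw [abs_mul, abs_mul]
    have h1 : |eval p (f i ^ e i)| ≤ R ^ e i := by
      rw [map_pow, abs_pow]
      exact pow_le_pow_left₀ (abs_nonneg _) hfi _
    have h2 := hpow (f i) (e i) hfi hdi
    have h3 : |eval p (∏ j ∈ s, f j ^ e j)| ≤ R ^ (∑ j ∈ s, e j) := by
      rw [map_prod]
      simp only [map_pow]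
      exact prod_pow_le s (fun j => eval p (f j)) e R fun j hj => hf j (Finset.mem_insert_of_mem hj)
    have h4 : |eval p (f i ^ e i)| * |eval p (Du u (∏ j ∈ s, f j ^ e j))| ≤
        R ^ e i * ((∑ j ∈ s, (e j : ℝ)) * R ^ (∑ j ∈ s, e j) * G) := mul_le_mul h1 ih' (abs_nonneg _) (by positivity)
    have h5 : |eval p (∏ j ∈ s, f j ^ e j)| * |eval p (Du u (f i ^ e i))| ≤
        R ^ (∑ j ∈ s, e j) * (e i * R ^ e i * G) := mul_le_mul h3 h2 (abs_nonneg _) (by positivity)
    refine (add_le_add h4 h5).trans (le_of_eq ?_)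
    rw [pow_add]
    ring

end

end Pool.Agent.Helper88.NSK
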