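import Pool.Agent.Helper88.NSK.Der
import Pool.Agent.Helper88.NSK.Hfp

/-! EXACT SHEETS FROM SHEETS OVER A BASE: `z ≈ 2 ^ (r n) v(P)`, `z ≈ c(x)`, `x ≈ aff(P)` on an event of positive
probability of the space of a label, all coefficients functions of the label: `v - 2 ^ (- r n) c(aff)` is a sheet of
depth `r + w`. -/

set_option autoImplicit false

namespace Pool.Agent.Helper88.NSK

open Finset Filter Topology Matrix Pool.Agent.Helper69.RK Pool.Agent.Helper31.EC Pool.Agent.Helper31.EC.Sp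
open Pool.Agent.Helper40.EL Pool.Agent.Helper52.KP Pool.Agent.Helper89.LX Pool.Agent.Helper3.LF
open Pool.Agent.Helper42.NS

noncomputable section

/-- the constant of the size -/
def Cst (N M D K0 : ℕ) (K : ℝ) : ℝ := N * (Cu D * Cm N D) * K + K + K * (1 + nm M K0 * K ^ K0) +
  nm M K0 * (K * (K0 * ((2 + N) * K) ^ K0 * ((1 + N) * K)))

theorem Cst_sub {S : Sp} (N M D K0 : ℕ) {K : ℕ → ℝ} (hK : S.Sub K) : S.Sub (fun k => Cst N M D K0 (K k)) := by
  have h1 := Cu_one D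
  have h2 := Cm_one N D
  have hn : (0 : ℝ) ≤ N := Nat.cast_nonneg _
  have hk : (0 : ℝ) ≤ K0 := Nat.cast_nonneg _
  have hc := fun {x : ℝ} (hx : 0 ≤ x) => S.Sub_const hx
  unfold Cst
  refine (((((hc (x := N * (Cu D * Cm N D)) (by positivity)).mul hK)).add hK).add
    (hK.mul ((hc zero_le_one).add ((hc (nm_nonneg M K0)).mul (Sub_powN hK K0))))).add ?_
  refine (hc (nm_nonneg M K0)).mul (hK.mul (((hc hk).mul (Sub_powN ((hc (x := 2 + (N : ℝ)) (by positivity)).mul hK)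
    K0)).mul ((hc (x := 1 + (N : ℝ)) (by positivity)).mul hK)))

theorem Cst_nonneg (N M D K0 : ℕ) {K : ℝ} (hK : 0 ≤ K) : 0 ≤ Cst N M D K0 K := by
  have h1 := Cu_one D
  have h2 := Cm_one N D
  have h3 := nm_nonneg M K0
  unfold Cst
  positivity

variable {S : Sp} {m : ℕ} {s : Sys S m}

/-- SHEETS OVER A BASE. `x` the base coordinates, `z` the top coordinate, `cc` the coefficients of the sheet over the
base, `b0, b1` the coefficients of the base coordinates as affine functions of the point, `v` the polynomial of the top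
coordinate; all coefficients are functions of the label. -/
theorem Hf_of_sheet (hR : RobH s) (l : Lab S) {c r a w b : ℝ} (hl : l.DM (cA s c) (cB s)) {D D' K0 M : ℕ}
    (hD : D ≤ D') (hK0 : K0 ≤ D') (v : ∀ k, (l k).T.Ω → Mon (m + 1) D → ℝ) (cc : ∀ k, (l k).T.Ω → Mon M K0 → ℝ)
    (b0 : ∀ k, (l k).T.Ω → Fin M → ℝ) (b1 : ∀ k, (l k).T.Ω → Fin M → Fin (m + 1) → ℝ)
    (hm : ∀ k ω ω', (l k).T.μ ω ≠ 0 → (l k).T.μ ω' ≠ 0 → (l k).V ω ω' → (l k).T.Z ω ω' →
      v k ω = v k ω' ∧ cc k ω = cc k ω' ∧ b0 k ω = b0 k ω' ∧ b1 k ω = b1 k ω')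
    (x : ∀ k, (l k).T.Ω → Fin M → ℝ) (z : ∀ k, (l k).T.Ω → ℝ) (ha : 0 ≤ a) (hw : 0 ≤ w) (hrw : r + w ≤ 1)
    (hb : b + a + w ≤ 1) (K : ℕ → ℝ) (hK : S.Sub K) (G : ∀ k, (l.sp.F k).Ω → Prop) (hG : 0 < ul (l.sp.pr G))
    (h : ∀ᶠ k in UF, ∀ ω : (l k).T.Ω, (l k).T.μ ω ≠ 0 → G k ω →
      ga D (pol (v k ω)) (S.dl 1 k) (ptf s k ((l k).p.π ω)) ≤ K k ∧
      |z k ω - 2 ^ (r * (S.F k).n) * MvPolynomial.eval (ptf s k ((l k).p.π ω)) (pol (v k ω))| ≤ K k * S.dl w k ∧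
      |z k ω - ∑ a, cc k ω a * ∏ i, x k ω i ^ (a.1 i : ℕ)| ≤
        K k * ((1 + ∑ a : Mon M K0, |∏ i, x k ω i ^ (a.1 i : ℕ)|) * S.dl w k) ∧
      (∀ i, |x k ω i| ≤ K k) ∧
      (∀ i, |x k ω i - (b0 k ω i + ∑ j, b1 k ω i j * ptf s k ((l k).p.π ω) j)| ≤ K k * S.dl (a + w) k) ∧
      (∀ i j, |b1 k ω i j| ≤ K k * 2 ^ (b * (S.F k).n)) ∧ (∀ i, |cc k ω i| ≤ K k * 2 ^ (a * (S.F k).n)) ∧
      1 ≤ K k * ga D' (nwp (v k ω) (S.dl r k) (cc k ω) (b0 k ω) (b1 k ω)) (S.dl 1 k)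
        (ptf s k ((l k).p.π ω))) : Hf s D' c (r + w) := by
  have hK1 : S.Sub (fun k => K k + 1) := hK.add (S.Sub_const zero_le_one)
  have hC := Cst_sub (m + 1) M D K0 hK1
  have hF : S.Sub (fun k => nn (m + 1) D' * Cst (m + 1) M D K0 (K k + 1) ^ 2 + (K k + 1)) := by
    have := nn_one (m + 1) D'
    exact ((S.Sub_const (by linarith)).mul (Sub_powN hC 2)).add hK1
  refine Hf_of_poly_im hR l hl (fun k ω => nwv D' (v k ω) (S.dl r k) (cc k ω) (b0 k ω) (b1 k ω)) ?_ _ hF G hG ?_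
  · intro k ω ω' h1 h2 h3 h4
    obtain ⟨e1, e2, e3, e4⟩ := hm k ω ω' h1 h2 h3 h4
    show nwv D' (v k ω) (S.dl r k) (cc k ω) (b0 k ω) (b1 k ω) = nwv D' (v k ω') (S.dl r k) (cc k ω') (b0 k ω') (b1 k ω')
    rw [e1, e2, e3, e4]
  filter_upwards [h, hK.1] with k hk hKk ω hω hGω
  obtain ⟨g1, g2, g3, g4, g5, g6, g7, g8⟩ := hk ω hω hGω
  have hn := (S.F k).pos
  set n := (S.F k).n with hndef
  set P := ptf s k ((l k).p.π ω) with hP
  have hdl : ∀ y : ℝ, S.dl y k = 2 ^ (-(y * n)) := fun y => rfl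
  have hρ : 0 < S.dl w k := S.dl_pos w k
  have hlam : 0 < S.dl r k := S.dl_pos r k
  have hα1 : (1 : ℝ) ≤ 2 ^ (a * n) := Real.one_le_rpow (by norm_num) (by positivity)
  have hρ1 : S.dl w k ≤ 1 := by
    rw [hdl]
    exact Real.rpow_le_one_of_one_le_of_nonpos (by norm_num) (by nlinarith)
  have hρα : S.dl w k / 2 ^ (a * n) = S.dl (a + w) k := by
    rw [hdl, hdl, ← Real.rpow_sub (by norm_num)]
    congr 1
    ring
  have hlr : S.dl r k * S.dl w k = S.dl (r + w) k := by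
    rw [hdl, hdl, hdl, ← Real.rpow_add (by norm_num)]
    congr 1
    ring
  have hK1' : 1 ≤ K k + 1 := by linarith
  have hle : ∀ y : ℝ, 0 ≤ y → K k * y ≤ (K k + 1) * y := fun y hy => mul_le_mul_of_nonneg_right (by linarith) hy
  have hsq : Real.sqrt (ga D (pol (v k ω)) (S.dl 1 k) P) ≤ K k + 1 := by
    apply Real.sqrt_le_iff.mpr
    refine ⟨by linarith, g1.trans ?_⟩
    nlinarith
  have hinv : (S.dl r k)⁻¹ = 2 ^ (r * n) := by
    rw [hdl, Real.rpow_neg (by norm_num), inv_inv]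
  have key : ∀ y : Fin (m + 1) → ℝ, (∀ j, |y j - P j| ≤ S.dl 1 k) →
      |MvPolynomial.eval y (nwp (v k ω) (S.dl r k) (cc k ω) (b0 k ω) (b1 k ω))| ≤
        Cst (m + 1) M D K0 (K k + 1) * S.dl (r + w) k := by
    intro y hy
    rw [← hlr]
    have hh := core_val (v k ω) (cc k ω) (b0 k ω) (b1 k ω) P y (x k ω) (z k ω) (S.dl r k) (S.dl 1 k) (S.dl w k)
      (2 ^ (a * n)) (K k + 1) (K k * 2 ^ (b * n)) (S.dl_pos 1 k) hK1' hlam hρ.le hρ1 hα1 hy hsq (by
        rw [hlr]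
        exact S.dl_anti hrw k) (by
        rw [hinv]
        exact g2.trans (hle _ hρ.le)) (g3.trans (hle _ (by
          have : 0 ≤ ∑ a : Mon M K0, |∏ i, x k ω i ^ (a.1 i : ℕ)| := Finset.sum_nonneg fun _ _ => abs_nonneg _
          positivity))) (fun i => (g4 i).trans (by linarith)) (by
        intro i
        rw [hρα]
        exact (g5 i).trans (hle _ (S.dl_pos _ k).le)) g6 (by
        rw [hρα, mul_assoc, hdl 1, ← Real.rpow_add (by norm_num)]
        have e1 : (2 : ℝ) ^ (b * n + -(1 * n)) ≤ S.dl (a + w) k := by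
          rw [hdl]
          apply Real.rpow_le_rpow_of_exponent_le (by norm_num)
          nlinarith
        exact (mul_le_mul_of_nonneg_left e1 hKk).trans (hle _ (S.dl_pos _ k).le)) (by
        intro i
        exact (g7 i).trans (hle _ (by positivity)))
    exact hh
  have hCn : 0 ≤ Cst (m + 1) M D K0 (K k + 1) := Cst_nonneg _ _ _ _ (by linarith)
  have hnn := nn_one (m + 1) D'
  refine ⟨?_, ?_⟩
  · have e1 : ph D' (pol (nwv D' (v k ω) (S.dl r k) (cc k ω) (b0 k ω) (b1 k ω))) (S.dl 1 k) P ≤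
        nn (m + 1) D' * (Cst (m + 1) M D K0 (K k + 1) * S.dl (r + w) k) ^ 2 := by
      rw [pol_nwv hD hK0]
      unfold ph
      refine (Finset.sum_le_card_nsmul _ _ ((Cst (m + 1) M D K0 (K k + 1) * S.dl (r + w) k) ^ 2) fun j _ => ?_).trans
        (le_of_eq ?_)
      · rw [← sq_abs]
        apply pow_le_pow_left₀ (abs_nonneg _)
        apply key
        intro i
        unfold nodp
        have e1 : P i + S.dl 1 k * nod D' (j i) - P i = S.dl 1 k * nod D' (j i) := by ring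
        rw [e1, abs_mul, abs_of_pos (S.dl_pos 1 k), abs_of_nonneg (nod_nonneg D' _)]
        have := nod_le D' (j i) (Nat.le_of_lt_succ (j i).2)
        exact mul_le_of_le_one_right (S.dl_pos 1 k).le this
      · rw [nsmul_eq_mul, card_nodes]
    have e2 : (2 : ℝ) ^ (2 * (r + w) * n) * S.dl (r + w) k ^ 2 = 1 := by
      rw [hdl, ← Real.rpow_natCast (2 ^ _) 2, ← Real.rpow_mul (by norm_num), ← Real.rpow_add (by norm_num)]
      have : 2 * (r + w) * n + -((r + w) * n) * ((2 : ℕ) : ℝ) = 0 := by push_cast; ring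
      rw [this, Real.rpow_zero]
    calc (2 : ℝ) ^ (2 * (r + w) * n) *
          ph D' (pol (nwv D' (v k ω) (S.dl r k) (cc k ω) (b0 k ω) (b1 k ω))) (S.dl 1 k) P
        ≤ 2 ^ (2 * (r + w) * n) * (nn (m + 1) D' * (Cst (m + 1) M D K0 (K k + 1) * S.dl (r + w) k) ^ 2) :=
          mul_le_mul_of_nonneg_left e1 (by positivity)
      _ = nn (m + 1) D' * Cst (m + 1) M D K0 (K k + 1) ^ 2 * (2 ^ (2 * (r + w) * n) * S.dl (r + w) k ^ 2) := by ring
      _ = nn (m + 1) D' * Cst (m + 1) M D K0 (K k + 1) ^ 2 := by rw [e2, mul_one]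
      _ ≤ _ := by linarith
  · show 1 ≤ (nn (m + 1) D' * Cst (m + 1) M D K0 (K k + 1) ^ 2 + (K k + 1)) *
      ga D' (pol (nwv D' (v k ω) (S.dl r k) (cc k ω) (b0 k ω) (b1 k ω))) (S.dl 1 k) P
    rw [pol_nwv hD hK0]
    refine g8.trans ?_
    apply mul_le_mul_of_nonneg_right _ (ga_nonneg _ _ _)
    have : 0 ≤ nn (m + 1) D' * Cst (m + 1) M D K0 (K k + 1) ^ 2 := by positivity
    linarith

end

end Pool.Agent.Helper88.NSK
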